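import Mathlib

set_option autoImplicit false

namespace Pool.Agent.Cov

open Finset

/-- primes `r ≤ x` with `r ≡ 1 (mod P)` -/
def DD (P x : ℕ) : Finset ℕ := (Finset.Icc 1 x).filter (fun r => r.Prime ∧ r % P = 1)

/-- `∏_{r ∈ DD P x} (1 - 1/r)⁻¹` -/
noncomputable def HH (P x : ℕ) : ℝ := ∏ r ∈ DD P x, (1 - 1 / (r : ℝ))⁻¹

/-- all prime factors of `m ≠ 0` are `≡ 1 (mod P)` -/
def Gen (P m : ℕ) : Prop := m ≠ 0 ∧ ∀ q : ℕ, q.Prime → q ∣ m → q % P = 1

/-- the fresh primes for the scale `I` -/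
def Fr (k P I : ℕ) : Finset ℕ :=
  (Finset.range (2 ^ (I + 1))).filter (fun q => q.Prime ∧ q % P = 1 ∧ Nat.log 2 (2 * k * q) = I)

open Classical in
/-- the integers of the window `[2^I, 2^(I+1))` which are not covered by the primes `p` outside the
progression `1 mod P`, nor by the primes of earlier scales -/
noncomputable def Left (k P : ℕ) (a : ℕ → ℕ) (I : ℕ) : Finset ℕ :=
  (Finset.Ico (2 ^ I) (2 ^ (I + 1))).filter
    (fun n => ∀ p : ℕ, p.Prime → (p % P ≠ 1 ∨ Nat.log 2 (2 * k * p) < I) → k * p ≤ n → n % p ≠ a p)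

end Pool.Agent.Cov
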