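import Mathlib
import Pool.Agent.Cov.Defs

set_option autoImplicit false

namespace Pool.Agent.Cov

open Finset



/-- the standing conditions on an assignment of residues -/
def Good (P : ℕ) (a : ℕ → ℕ) : Prop :=
  (∀ q : ℕ, q.Prime → q % P = 1 → a q ≠ 0 ∧ a q < q) ∧
  (∀ p : ℕ, p.Prime → p ≠ P → p % P ≠ 1 → a p = 0) ∧ a P = 1

theorem exists_g (L F : Finset ℕ) (h : L.card ≤ F.card) :
    ∃ g : ℕ → ℕ, ∀ n ∈ L, ∃ q ∈ F, g q = n := by
  classical
  have h1 : Fintype.card L ≤ Fintype.card F := by simpa using h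
  obtain ⟨e⟩ := Function.Embedding.nonempty_of_card_le h1
  refine ⟨fun q => if h : ∃ n : L, (e n : ℕ) = q then (h.choose : ℕ) else 0, fun n hn => ?_⟩
  refine ⟨e ⟨n, hn⟩, (e ⟨n, hn⟩).2, ?_⟩
  have h2 : ∃ m : L, (e m : ℕ) = (e ⟨n, hn⟩ : ℕ) := ⟨⟨n, hn⟩, rfl⟩
  simp only
  rw [dif_pos h2]
  have h3 := h2.choose_spec
  have h4 : h2.choose = ⟨n, hn⟩ := e.injective (Subtype.ext h3)
  rw [h4]

theorem step_exists (k P I₀ : ℕ) (hk : 3 ≤ k) (hPk : 4 * k < P)
    (hmain : ∀ a : ℕ → ℕ,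
      (∀ q : ℕ, q.Prime → q % P = 1 → a q ≠ 0 ∧ a q < q) →
      (∀ p : ℕ, p.Prime → p ≠ P → p % P ≠ 1 → a p = 0) → a P = 1 →
      ∀ I : ℕ, I₀ ≤ I → (Left k P a I).card ≤ (Fr k P I).card) (I : ℕ) (a : ℕ → ℕ)
    (ha : Good P a) :
    ∃ a' : ℕ → ℕ, Good P a' ∧ (∀ q, q ∉ Fr k P I → a' q = a q) ∧
      (max I₀ (4 * k ^ 2) ≤ I → ∀ n ∈ Left k P a I, ∃ q ∈ Fr k P I, a' q = n % q) := by
  classical
  by_cases hI : max I₀ (4 * k ^ 2) ≤ I
  swap
  · exact ⟨a, ha, fun _ _ => rfl, fun h => absurd h hI⟩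
  obtain ⟨g, hg⟩ := exists_g _ _ (hmain a ha.1 ha.2.1 ha.2.2 I ((le_max_left _ _).trans hI))
  have hFr1 : ∀ q ∈ Fr k P I, q.Prime ∧ q % P = 1 ∧ Nat.log 2 (2 * k * q) = I := by
    intro q hq
    exact (Finset.mem_filter.1 hq).2
  refine ⟨fun q => if q ∈ Fr k P I ∧ g q ∈ Left k P a I then g q % q else a q, ⟨?_, ?_, ?_⟩, ?_, ?_⟩
  · intro q hq hq1
    simp only
    split_ifs with h
    · refine ⟨fun h0 => ?_, Nat.mod_lt _ hq.pos⟩
      obtain ⟨hqF, hn⟩ := h
      set n := g q with hndef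
      obtain ⟨-, -, hlog⟩ := hFr1 q hqF
      have hne : 2 * k * q ≠ 0 := by
        have := hq.pos
        positivity
      have hlo : 2 ^ I ≤ 2 * k * q := by
        rw [← hlog]; exact Nat.pow_log_le_self 2 hne
      have hhi : 2 * k * q < 2 ^ (I + 1) := by
        rw [← hlog]; exact Nat.lt_pow_succ_log_self (by norm_num) _
      unfold Left at hn
      rw [Finset.mem_filter, Finset.mem_Ico] at hn
      obtain ⟨⟨hn1, hn2⟩, hn3⟩ := hn
      obtain ⟨t, ht⟩ := Nat.dvd_of_mod_eq_zero h0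
      have hpow : 2 ^ (I + 1) = 2 * 2 ^ I := by rw [pow_succ]; ring
      have ht4 : t < 4 * k := by
        by_contra hcon
        rw [not_lt] at hcon
        have : q * (4 * k) ≤ q * t := Nat.mul_le_mul_left _ hcon
        have h5 : 2 ^ (I + 1) ≤ q * (4 * k) := by
          rw [hpow]
          calc 2 * 2 ^ I ≤ 2 * (2 * k * q) := Nat.mul_le_mul_left _ hlo
            _ = q * (4 * k) := by ring
        omega
      have htk : k < t := by
        by_contra hcon
        rw [not_lt] at hcon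
        have h5 : q * t ≤ q * k := Nat.mul_le_mul_left _ hcon
        have h6 : 2 * (q * k) < 2 * 2 ^ I := by
          rw [← hpow]
          calc 2 * (q * k) = 2 * k * q := by ring
            _ < _ := hhi
        omega
      have ht1 : t ≠ 1 := by omega
      have hp2 : t.minFac.Prime := Nat.minFac_prime ht1
      have hp2t : t.minFac ≤ t := Nat.minFac_le (by omega)
      have hp2P : t.minFac < P := by omega
      have hmod : t.minFac % P ≠ 1 := by
        rw [Nat.mod_eq_of_lt hp2P]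
        have := hp2.two_le
        omega
      have ha0 : a t.minFac = 0 := ha.2.1 _ hp2 (by omega) hmod
      have hle : k * t.minFac ≤ n := by
        have h7 : k * t.minFac ≤ k * (4 * k) := Nat.mul_le_mul_left _ (by omega)
        have h8 : 4 * k ^ 2 < 2 ^ (4 * k ^ 2) := Nat.lt_two_pow_self
        have h9 : 2 ^ (4 * k ^ 2) ≤ 2 ^ I :=
          Nat.pow_le_pow_right (by norm_num) ((le_max_right _ _).trans hI)
        have h10 : k * (4 * k) = 4 * k ^ 2 := by ring
        omega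
      have hfin := hn3 t.minFac hp2 (Or.inl hmod) hle
      apply hfin
      rw [ha0]
      apply Nat.mod_eq_zero_of_dvd
      rw [ht]
      exact Dvd.dvd.mul_left (Nat.minFac_dvd t) q
    · exact ha.1 q hq hq1
  · intro p hp hpP hp1
    simp only
    rw [if_neg]
    · exact ha.2.1 p hp hpP hp1
    · rintro ⟨h, -⟩
      exact hp1 (hFr1 p h).2.1
  · simp only
    rw [if_neg]
    · exact ha.2.2
    · rintro ⟨h, -⟩
      have := (hFr1 P h).2.1
      rw [Nat.mod_self] at this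
      omega
  · intro q hq
    simp only
    rw [if_neg]
    rintro ⟨h, -⟩
    exact hq h
  · intro _ n hn
    obtain ⟨q, hq, hqn⟩ := hg n hn
    refine ⟨q, hq, ?_⟩
    simp only
    rw [hqn, if_pos ⟨hq, hn⟩]

theorem construct (k P I₀ : ℕ) (hk : 3 ≤ k) (hP : P.Prime) (hPk : 4 * k < P)
    (hmain : ∀ a : ℕ → ℕ,
      (∀ q : ℕ, q.Prime → q % P = 1 → a q ≠ 0 ∧ a q < q) →
      (∀ p : ℕ, p.Prime → p ≠ P → p % P ≠ 1 → a p = 0) → a P = 1 →
      ∀ I : ℕ, I₀ ≤ I → (Left k P a I).card ≤ (Fr k P I).card) :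
    ∃ a : ℕ → ℕ, (∀ p : ℕ, p.Prime → a p < p) ∧
        ∃ N : ℕ, ∀ n : ℕ, N ≤ n →
          ∃ p t : ℕ, p.Prime ∧ k ≤ t ∧ n = a p + t * p := by
  classical
  choose F hF1 hF2 hF3 using step_exists k P I₀ hk hPk hmain
  -- the initial assignment
  have h0 : Good P (fun p => if p = P ∨ p % P = 1 then 1 else 0) := by
    refine ⟨fun q hq hq1 => ?_, fun p hp hpP hp1 => ?_, ?_⟩
    · simp only [hq1, or_true, if_true]
      exact ⟨one_ne_zero, hq.one_lt⟩
    · simp only [hpP, hp1, or_self, if_false]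
    · simp
  let sq : ℕ → {a : ℕ → ℕ // Good P a} := fun J =>
    Nat.rec ⟨_, h0⟩ (fun I b => ⟨F I b.1 b.2, hF1 I b.1 b.2⟩) J
  have hsucc : ∀ J, (sq (J + 1)).1 = F J (sq J).1 (sq J).2 := fun J => rfl
  have hfr : ∀ J q, q ∈ Fr k P J → q.Prime ∧ q % P = 1 ∧ Nat.log 2 (2 * k * q) = J := by
    intro J q hq
    exact (Finset.mem_filter.1 hq).2
  set a : ℕ → ℕ := fun p => (sq (Nat.log 2 (2 * k * p) + 1)).1 p with ha
  have hA : ∀ q J, Nat.log 2 (2 * k * q) < J → (sq J).1 q = a q := by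
    intro q J hJ
    induction J with
    | zero => omega
    | succ J ih =>
      rcases Nat.lt_succ_iff_lt_or_eq.1 hJ with h | h
      · rw [hsucc, hF2 J _ _ q (fun hq => by have := (hfr J q hq).2.2; omega), ih h]
      · simp only [ha, h]
  have hB : ∀ q, q % P ≠ 1 → ∀ J, (sq J).1 q = (sq 0).1 q := by
    intro q hq J
    induction J with
    | zero => rfl
    | succ J ih =>
      rw [hsucc, hF2 J _ _ q (fun h => hq (hfr J q h).2.1), ih]
  have hgood : Good P a := by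
    refine ⟨fun q hq hq1 => ?_, fun p hp hpP hp1 => ?_, ?_⟩
    · exact (sq (Nat.log 2 (2 * k * q) + 1)).2.1 q hq hq1
    · exact (sq (Nat.log 2 (2 * k * p) + 1)).2.2.1 p hp hpP hp1
    · exact (sq (Nat.log 2 (2 * k * P) + 1)).2.2.2
  have hLeft : ∀ I n, n ∈ Left k P a I → n ∈ Left k P (sq I).1 I := by
    intro I n hn
    unfold Left at hn ⊢
    rw [Finset.mem_filter] at hn ⊢
    refine ⟨hn.1, fun p hp hpc hkp => ?_⟩
    have h1 := hn.2 p hp hpc hkp
    have h2 : (sq I).1 p = a p := by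
      rcases hpc with h | h
      · rw [hB p h, ← hB p h (Nat.log 2 (2 * k * p) + 1)]
      · exact hA p I h
    rw [h2]; exact h1
  refine ⟨a, fun p hp => ?_, 2 ^ (max I₀ (4 * k ^ 2)), fun n hn => ?_⟩
  · by_cases h1 : p % P = 1
    · exact (hgood.1 p hp h1).2
    · by_cases h2 : p = P
      · rw [h2, hgood.2.2]; exact hP.one_lt
      · rw [hgood.2.1 p hp h2 h1]; exact hp.pos
  · have hn0 : n ≠ 0 := by
      have : 0 < 2 ^ (max I₀ (4 * k ^ 2)) := by positivity
      omega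
    set I := Nat.log 2 n with hI
    have hI1 : max I₀ (4 * k ^ 2) ≤ I := Nat.le_log_of_pow_le (by norm_num) hn
    have hlo : 2 ^ I ≤ n := Nat.pow_log_le_self 2 hn0
    have hhi : n < 2 ^ (I + 1) := Nat.lt_pow_succ_log_self (by norm_num) _
    have hfinish : ∀ p : ℕ, p.Prime → k * p ≤ n → n % p = a p →
        ∃ p t : ℕ, p.Prime ∧ k ≤ t ∧ n = a p + t * p := by
      intro p hp hkp hmod
      refine ⟨p, n / p, hp, (Nat.le_div_iff_mul_le hp.pos).2 hkp, ?_⟩
      rw [← hmod, mul_comm]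
      exact (Nat.mod_add_div n p).symm
    by_cases hL : n ∈ Left k P a I
    · obtain ⟨q, hq, hqn⟩ := hF3 I (sq I).1 (sq I).2 hI1 n (hLeft I n hL)
      obtain ⟨hqp, hq1, hqlog⟩ := hfr I q hq
      rw [← hsucc, hA q (I + 1) (by omega)] at hqn
      refine hfinish q hqp ?_ hqn.symm
      have h1 : 2 * k * q < 2 ^ (I + 1) := by
        rw [← hqlog]; exact Nat.lt_pow_succ_log_self (by norm_num) _
      have h2 : 2 * (k * q) < 2 * 2 ^ I := by
        calc 2 * (k * q) = 2 * k * q := by ring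
          _ < 2 ^ (I + 1) := h1
          _ = 2 * 2 ^ I := by rw [pow_succ]; ring
      omega
    · unfold Left at hL
      rw [Finset.mem_filter, Finset.mem_Ico] at hL
      push Not at hL
      obtain ⟨p, hp, -, hkp, hmod⟩ := hL ⟨hlo, hhi⟩
      exact hfinish p hp hkp hmod

end Pool.Agent.Cov
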