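import Mathlib
import Pool.Agent.Cov.Defs
import Pool.Agent.Cov.PNT

set_option autoImplicit false

namespace Pool.Agent.Cov

open Finset Filter Topology
open Pool.Agent.Cov.PNT (pnt_residueClass)



open ArithmeticFunction

/-- weighted count of prime powers -/
noncomputable def AA (P n : ℕ) : ℝ := ∑ k ∈ Finset.Icc 1 n, vonMangoldt.residueClass (1 : ZMod P) k

theorem AA_tendsto {P : ℕ} (hP : P.Prime) :
    Tendsto (fun n : ℕ => AA P n / n) atTop (𝓝 (((P : ℝ) - 1)⁻¹)) := by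
  have : NeZero P := ⟨hP.ne_zero⟩
  have h := (pnt_residueClass (q := P) (a := 1) isUnit_one).comp
    (tendsto_natCast_atTop_atTop (R := ℝ))
  have e : ((P.totient : ℕ) : ℝ) = (P : ℝ) - 1 := by
    rw [Nat.totient_prime hP, Nat.cast_sub hP.one_lt.le, Nat.cast_one]
  rw [e] at h
  refine h.congr fun n => ?_
  simp only [Function.comp, Nat.floor_natCast, AA]

theorem class_iff {P : ℕ} (hP : P.Prime) (r : ℕ) : ((r : ℕ) : ZMod P) = 1 ↔ r % P = 1 := by
  have h := ZMod.natCast_eq_natCast_iff' r 1 P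
  rw [Nat.mod_eq_of_lt hP.one_lt, Nat.cast_one] at h
  exact h

theorem R_prime {P : ℕ} (hP : P.Prime) {r : ℕ} (hr : r.Prime) (h : r % P = 1) :
    vonMangoldt.residueClass (1 : ZMod P) r = Real.log r := by
  rw [vonMangoldt.residueClass, Set.indicator_of_mem]
  · exact vonMangoldt_apply_prime hr
  · exact (class_iff hP r).2 h

theorem R_ne {P : ℕ} (hP : P.Prime) {r : ℕ} (h : r % P ≠ 1) :
    vonMangoldt.residueClass (1 : ZMod P) r = 0 := by
  rw [vonMangoldt.residueClass, Set.indicator_of_notMem]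
  exact fun h' => h ((class_iff hP r).1 h')

theorem AA_eq (P n : ℕ) : AA P n = ∑ k ∈ Finset.Ioc 0 n, vonMangoldt.residueClass (1 : ZMod P) k := by
  unfold AA
  congr 1

theorem AA_sub (P : ℕ) {a b : ℕ} (hab : a ≤ b) :
    AA P b - AA P a = ∑ k ∈ Finset.Ioc a b, vonMangoldt.residueClass (1 : ZMod P) k := by
  rw [AA_eq, AA_eq, ← Finset.sum_Ioc_consecutive _ (Nat.zero_le a) hab]
  ring

theorem AA_pow {P : ℕ} (hP : P.Prime) :
    Tendsto (fun i : ℕ => AA P (2 ^ i) / 2 ^ i) atTop (𝓝 (((P : ℝ) - 1)⁻¹)) := by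
  have h := (AA_tendsto hP).comp (tendsto_pow_atTop_atTop_of_one_lt (r := (2 : ℕ)) one_lt_two)
  refine h.congr fun n => ?_
  simp [Function.comp]

theorem window_upper (P : ℕ) (hP : P.Prime) :
    ∃ i₀ : ℕ, ∀ i : ℕ, i₀ ≤ i →
      ∑ r ∈ (Finset.Ioc (2 ^ i) (2 ^ (i + 1))).filter (fun r => r.Prime ∧ r % P = 1), Real.log r
        ≤ 2 * 2 ^ i / ((P : ℝ) - 1) := by
  have hc : 0 < ((P : ℝ) - 1)⁻¹ := by
    apply inv_pos.2
    have : (1 : ℝ) < P := by exact_mod_cast hP.one_lt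
    linarith
  have h1 := AA_pow hP
  have h2 : Tendsto (fun i : ℕ => AA P (2 ^ (i + 1)) / 2 ^ (i + 1)) atTop (𝓝 (((P : ℝ) - 1)⁻¹)) :=
    h1.comp (tendsto_add_atTop_nat 1)
  have h3 := (h2.const_mul 2).sub h1
  have h4 : 2 * ((P : ℝ) - 1)⁻¹ - ((P : ℝ) - 1)⁻¹ < 2 * ((P : ℝ) - 1)⁻¹ := by linarith
  obtain ⟨i₀, hi₀⟩ := eventually_atTop.1 (h3.eventually_lt_const h4)
  refine ⟨i₀, fun i hi => ?_⟩
  have h5 := hi₀ i hi
  have h2i : (0 : ℝ) < 2 ^ i := by positivity
  have h6 : AA P (2 ^ (i + 1)) - AA P (2 ^ i) ≤ 2 * 2 ^ i / ((P : ℝ) - 1) := by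
    have e : 2 * (AA P (2 ^ (i + 1)) / 2 ^ (i + 1)) - AA P (2 ^ i) / 2 ^ i
        = (AA P (2 ^ (i + 1)) - AA P (2 ^ i)) / 2 ^ i := by
      generalize AA P (2 ^ (i + 1)) = u
      generalize AA P (2 ^ i) = v
      have h7 : (2 : ℝ) ^ (i + 1) = 2 ^ i * 2 := pow_succ _ _
      rw [h7]
      field_simp
    rw [e, div_lt_iff₀ h2i] at h5
    rw [div_eq_mul_inv]
    linarith
  refine le_trans ?_ h6
  rw [AA_sub P (Nat.pow_le_pow_right (by norm_num) (Nat.le_succ i)), Finset.sum_filter]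
  refine Finset.sum_le_sum fun r _ => ?_
  split_ifs with h
  · rw [R_prime hP h.1 h.2]
  · exact vonMangoldt.residueClass_nonneg _ _

theorem psi_theta_tendsto :
    Tendsto (fun x : ℝ => (Chebyshev.psi x - Chebyshev.theta x) / x) atTop (𝓝 0) := by
  obtain ⟨C, hC⟩ := Chebyshev.psi_sub_theta_le_mul_sqrt
  have h2 : Tendsto (fun x : ℝ => C * (Real.sqrt x)⁻¹) atTop (𝓝 0) := by
    have := (tendsto_inv_atTop_zero.comp Real.tendsto_sqrt_atTop).const_mul C
    simpa [Function.comp_def] using this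
  refine squeeze_zero' ?_ ?_ h2
  · filter_upwards [eventually_gt_atTop 0] with x hx
    exact div_nonneg (sub_nonneg.mpr (Chebyshev.theta_le_psi x)) hx.le
  · filter_upwards [eventually_gt_atTop 0] with x hx
    rw [div_le_iff₀ hx]
    refine (hC x).trans (le_of_eq ?_)
    have hs : 0 < Real.sqrt x := Real.sqrt_pos.mpr hx
    have hx2 : Real.sqrt x * Real.sqrt x = x := Real.mul_self_sqrt hx.le
    field_simp
    rw [sq, hx2]

/-- left end of the window -/
def aw (k I : ℕ) : ℕ := (2 ^ I - 1) / (2 * k)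

theorem aw_ratio {k : ℕ} (hk : 1 ≤ k) :
    Tendsto (fun I : ℕ => (aw k I : ℝ) / 2 ^ I) atTop (𝓝 (1 / (2 * k))) := by
  have hk0 : (0 : ℝ) < k := by exact_mod_cast hk
  have h2 : Tendsto (fun I : ℕ => 2 * ((1 : ℝ) / 2) ^ I) atTop (𝓝 0) := by
    have := (tendsto_pow_atTop_nhds_zero_of_lt_one (r := (1 : ℝ) / 2) (by norm_num) (by norm_num)).const_mul 2
    simpa using this
  rw [← tendsto_sub_nhds_zero_iff]
  refine squeeze_zero_norm (fun I => ?_) h2
  have h2I : (0 : ℝ) < 2 ^ I := by positivity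
  have h3 : ((2 ^ I - 1 : ℕ) : ℝ) = 2 ^ I - 1 := by
    rw [Nat.cast_sub Nat.one_le_two_pow]; push_cast; ring
  have h4 : (aw k I : ℝ) * (2 * k) ≤ 2 ^ I - 1 := by
    rw [← h3]
    have := Nat.div_mul_le_self (2 ^ I - 1) (2 * k)
    unfold aw
    exact_mod_cast this
  have h5 : (2 : ℝ) ^ I - 1 < ((aw k I : ℝ) + 1) * (2 * k) := by
    rw [← h3]
    have := Nat.lt_div_mul_add (a := 2 ^ I - 1) (b := 2 * k) (by omega)
    have h6 : 2 ^ I - 1 < (aw k I + 1) * (2 * k) := by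
      unfold aw
      rw [add_mul, one_mul]
      exact this
    exact_mod_cast h6
  have e : (aw k I : ℝ) / 2 ^ I - 1 / (2 * k) = ((aw k I : ℝ) * (2 * k) - 2 ^ I) / (2 ^ I * (2 * k)) := by
    field_simp
  have e2 : 2 * ((1 : ℝ) / 2) ^ I = 2 / 2 ^ I := by
    rw [one_div, inv_pow]; rfl
  rw [e, e2, Real.norm_eq_abs, abs_div, abs_of_pos (by positivity : (0 : ℝ) < 2 ^ I * (2 * k)),
    div_le_div_iff₀ (by positivity) h2I]
  have h7 : |(aw k I : ℝ) * (2 * k) - 2 ^ I| ≤ 2 * (2 * k) := by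
    rw [abs_le]
    have hk1 : (1 : ℝ) ≤ k := by exact_mod_cast hk
    constructor
    · nlinarith
    · nlinarith
  calc |(aw k I : ℝ) * (2 * k) - 2 ^ I| * 2 ^ I ≤ (2 * (2 * k)) * 2 ^ I := by gcongr
    _ = 2 * (2 ^ I * (2 * k)) := by ring

theorem aw_atTop {k : ℕ} (hk : 1 ≤ k) : Tendsto (fun I : ℕ => aw k I) atTop atTop := by
  have hk0 : (0 : ℝ) < k := by exact_mod_cast hk
  have h1 := aw_ratio hk
  have h2 : Tendsto (fun I : ℕ => (aw k I : ℝ)) atTop atTop := by
    have h3 := Tendsto.pos_mul_atTop (by positivity) h1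
      (tendsto_pow_atTop_atTop_of_one_lt (r := (2 : ℝ)) (by norm_num))
    refine h3.congr fun I => ?_
    field_simp
  exact tendsto_natCast_atTop_iff.1 h2

theorem fresh_lower (k P : ℕ) (hk : 1 ≤ k) (hP : P.Prime) :
    ∃ I₀ : ℕ, ∀ I : ℕ, I₀ ≤ I → (2 : ℝ) ^ I / (8 * k * P * I) ≤ ((Fr k P I).card : ℝ) := by
  have hk0 : (0 : ℝ) < k := by exact_mod_cast hk
  have hP1 : (1 : ℝ) < P := by exact_mod_cast hP.one_lt
  set c : ℝ := ((P : ℝ) - 1)⁻¹ with hc
  have hc0 : 0 < c := inv_pos.2 (by linarith)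
  have hcP : 1 / (P : ℝ) ≤ c := by
    rw [hc, one_div]
    exact inv_anti₀ (by linarith) (by linarith)
  have h1 : Tendsto (fun I : ℕ => AA P (aw k I) / 2 ^ I) atTop (𝓝 (c * (1 / (2 * k)))) := by
    have h := ((AA_tendsto hP).comp (aw_atTop hk)).mul (aw_ratio hk)
    refine h.congr' ?_
    filter_upwards [(aw_atTop hk).eventually_ge_atTop 1] with I hI
    have : (0 : ℝ) < aw k I := by exact_mod_cast hI
    simp only [Function.comp]
    field_simp
  have h2 : Tendsto (fun I : ℕ => AA P (aw k (I + 1)) / 2 ^ I) atTop (𝓝 (2 * (c * (1 / (2 * k))))) := by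
    have h := (h1.comp (tendsto_add_atTop_nat 1)).const_mul 2
    refine h.congr fun I => ?_
    simp only [Function.comp]
    rw [pow_succ]
    field_simp
  have h3 : Tendsto (fun I : ℕ => (Chebyshev.psi (aw k (I + 1)) - Chebyshev.theta (aw k (I + 1))) / 2 ^ I)
      atTop (𝓝 0) := by
    have h0 : Tendsto (fun I : ℕ => (Chebyshev.psi (aw k I) - Chebyshev.theta (aw k I)) / (aw k I : ℝ))
        atTop (𝓝 0) := psi_theta_tendsto.comp (tendsto_natCast_atTop_atTop.comp (aw_atTop hk))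
    have h := ((h0.mul (aw_ratio hk)).comp (tendsto_add_atTop_nat 1)).const_mul 2
    rw [zero_mul, mul_zero] at h
    refine h.congr' ?_
    filter_upwards [((aw_atTop hk).comp (tendsto_add_atTop_nat 1)).eventually_ge_atTop 1] with I hI
    have : (0 : ℝ) < aw k (I + 1) := by exact_mod_cast hI
    simp only [Function.comp]
    rw [pow_succ]
    field_simp
  have h4 := (h2.sub h1).sub h3
  have h5 : Real.log 2 / (8 * k * P) < 2 * (c * (1 / (2 * k))) - c * (1 / (2 * k)) - 0 := by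
    have e : 2 * (c * (1 / (2 * k))) - c * (1 / (2 * k)) - 0 = c / (2 * k) := by
      field_simp; ring
    rw [e]
    have hlog : Real.log 2 < 1 := by
      have := Real.log_two_lt_d9; linarith
    calc Real.log 2 / (8 * k * P) < 1 / (8 * k * P) := by gcongr
      _ ≤ (1 / (P : ℝ)) / (2 * k) := by
        rw [div_div, div_le_div_iff₀ (by positivity) (by positivity)]
        nlinarith [mul_pos hk0 (by linarith : (0 : ℝ) < P)]
      _ ≤ c / (2 * k) := by gcongr
  obtain ⟨I₀, hI₀⟩ := eventually_atTop.1 (h4.eventually_const_lt h5)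
  refine ⟨max I₀ 1, fun I hI => ?_⟩
  have h6 := hI₀ I (le_trans (le_max_left _ _) hI)
  have hI1 : 1 ≤ I := le_trans (le_max_right _ _) hI
  have hI0 : (0 : ℝ) < I := by exact_mod_cast hI1
  have h2I : (0 : ℝ) < 2 ^ I := by positivity
  have hlog2 : 0 < Real.log 2 := Real.log_pos (by norm_num)
  set a := aw k I with ha
  set b := aw k (I + 1) with hb
  have hab : a ≤ b := by
    apply Nat.div_le_div_right
    have : 2 ^ I ≤ 2 ^ (I + 1) := Nat.pow_le_pow_right (by norm_num) (Nat.le_succ I)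
    omega
  have h7 : AA P b - AA P a - (Chebyshev.psi b - Chebyshev.theta b) ≤ ∑ r ∈ Fr k P I, Real.log r := by
    rw [AA_sub P hab, Chebyshev.psi_sub_theta_eq_sum_not_prime, Nat.floor_natCast]
    have e1 : ∑ r ∈ Finset.Ioc a b, vonMangoldt.residueClass (1 : ZMod P) r
        = ∑ r ∈ (Finset.Ioc a b).filter (fun r => r.Prime), vonMangoldt.residueClass (1 : ZMod P) r
        + ∑ r ∈ (Finset.Ioc a b).filter (fun r => ¬ r.Prime), vonMangoldt.residueClass (1 : ZMod P) r :=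
      (Finset.sum_filter_add_sum_filter_not _ _ _).symm
    have e2 : ∑ r ∈ (Finset.Ioc a b).filter (fun r => ¬ r.Prime), vonMangoldt.residueClass (1 : ZMod P) r
        ≤ ∑ r ∈ (Finset.Ioc 0 b).filter (fun r => ¬ r.Prime), vonMangoldt r := by
      calc _ ≤ ∑ r ∈ (Finset.Ioc a b).filter (fun r => ¬ r.Prime), vonMangoldt r :=
            Finset.sum_le_sum fun r _ => vonMangoldt.residueClass_le _ _
        _ ≤ _ := by
          apply Finset.sum_le_sum_of_subset_of_nonneg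
          · apply Finset.filter_subset_filter
            exact Finset.Ioc_subset_Ioc (Nat.zero_le _) le_rfl
          · intro r _ _
            exact vonMangoldt_nonneg
    have e3 : ∑ r ∈ (Finset.Ioc a b).filter (fun r => r.Prime), vonMangoldt.residueClass (1 : ZMod P) r
        ≤ ∑ r ∈ Fr k P I, Real.log r := by
      have : ∑ r ∈ (Finset.Ioc a b).filter (fun r => r.Prime), vonMangoldt.residueClass (1 : ZMod P) r
          = ∑ r ∈ ((Finset.Ioc a b).filter (fun r => r.Prime)).filter (fun r => r % P = 1), Real.log r := by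
        rw [Finset.sum_filter (p := fun r => r % P = 1)]
        refine Finset.sum_congr rfl fun r hr => ?_
        rw [Finset.mem_filter] at hr
        split_ifs with h
        · exact R_prime hP hr.2 h
        · exact R_ne hP h
      rw [this]
      apply Finset.sum_le_sum_of_subset_of_nonneg
      · intro r hr
        rw [Finset.mem_filter, Finset.mem_filter, Finset.mem_Ioc] at hr
        obtain ⟨⟨⟨hr1, hr2⟩, hr3⟩, hr4⟩ := hr
        have g1 : 2 ^ I ≤ 2 * k * r := by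
          rw [ha, aw, Nat.div_lt_iff_lt_mul (by omega)] at hr1
          have : r * (2 * k) = 2 * k * r := by ring
          have h1p : 1 ≤ 2 ^ I := Nat.one_le_two_pow
          omega
        have g2 : 2 * k * r < 2 ^ (I + 1) := by
          rw [hb, aw, Nat.le_div_iff_mul_le (by omega)] at hr2
          have : r * (2 * k) = 2 * k * r := by ring
          have h1p : 1 ≤ 2 ^ (I + 1) := Nat.one_le_two_pow
          omega
        rw [Fr, Finset.mem_filter, Finset.mem_range]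
        refine ⟨?_, hr3, hr4, ?_⟩
        · have : r ≤ 2 * k * r := Nat.le_mul_of_pos_left r (by omega)
          omega
        · rw [Nat.log_eq_iff (Or.inr ⟨by norm_num, by omega⟩)]
          exact ⟨g1, g2⟩
      · intro r hr _
        apply Real.log_natCast_nonneg
    linarith
  have h8 : ∑ r ∈ Fr k P I, Real.log r ≤ (Fr k P I).card * (I * Real.log 2) := by
    rw [← nsmul_eq_mul]
    refine Finset.sum_le_card_nsmul _ _ _ fun r hr => ?_
    rw [Fr, Finset.mem_filter] at hr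
    obtain ⟨_, hr1, _, hr2⟩ := hr
    have hne : 2 * k * r ≠ 0 := by
      have := hr1.pos
      positivity
    have g : 2 * k * r < 2 ^ (I + 1) := by
      rw [← hr2]
      exact Nat.lt_pow_succ_log_self (by norm_num) _
    have g3 : r ≤ 2 ^ I := by
      have h9 : 2 * r ≤ 2 * k * r := by nlinarith
      rw [pow_succ] at g
      omega
    rw [← Real.log_pow]
    apply Real.log_le_log
    · exact_mod_cast hr1.pos
    · exact_mod_cast g3
  have h9 : Real.log 2 / (8 * k * P) * 2 ^ I < (Fr k P I).card * (I * Real.log 2) := by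
    have e : (AA P b / 2 ^ I - AA P a / 2 ^ I - (Chebyshev.psi b - Chebyshev.theta b) / 2 ^ I)
        = (AA P b - AA P a - (Chebyshev.psi b - Chebyshev.theta b)) / 2 ^ I := by ring
    rw [e, lt_div_iff₀ h2I] at h6
    linarith
  rw [div_le_iff₀ (by positivity)]
  have h10 : Real.log 2 / (8 * k * P) * 2 ^ I * (8 * k * P) < (Fr k P I).card * (I * Real.log 2) * (8 * k * P) := by
    gcongr
  have e1 : Real.log 2 / (8 * k * P) * 2 ^ I * (8 * k * P) = Real.log 2 * 2 ^ I := by field_simp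
  rw [e1] at h10
  have e2 : (Fr k P I).card * (I * Real.log 2) * (8 * k * P) = Real.log 2 * ((Fr k P I).card * (8 * k * P * I)) := by
    ring
  rw [e2] at h10
  exact (lt_of_mul_lt_mul_left h10 hlog2.le).le

/-- the primes in the window above `2^j` -/
def Wn (P j : ℕ) : Finset ℕ :=
  (Finset.Ioc (2 ^ j) (2 ^ (j + 1))).filter (fun r => r.Prime ∧ r % P = 1)

theorem HH_pos (P x : ℕ) : 0 < HH P x := by
  apply Finset.prod_pos
  intro r hr
  rw [DD, Finset.mem_filter] at hr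
  apply inv_pos.2
  have : (1 : ℝ) < r := by exact_mod_cast hr.2.1.one_lt
  rw [sub_pos, div_lt_one (by linarith)]
  exact this

theorem HH_succ (P j : ℕ) : HH P (2 ^ (j + 1)) = HH P (2 ^ j) * ∏ r ∈ Wn P j, (1 - 1 / (r : ℝ))⁻¹ := by
  unfold HH
  rw [← Finset.prod_union]
  · congr 1
    ext r
    simp only [DD, Wn, Finset.mem_filter, Finset.mem_union, Finset.mem_Icc, Finset.mem_Ioc]
    have h1 : 1 ≤ 2 ^ j := Nat.one_le_two_pow
    have h2 : 2 ^ (j + 1) = 2 * 2 ^ j := by ring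
    constructor
    · rintro ⟨⟨h3, h4⟩, h5⟩
      rcases le_or_gt r (2 ^ j) with h | h
      · exact Or.inl ⟨⟨h3, h⟩, h5⟩
      · exact Or.inr ⟨⟨h, h4⟩, h5⟩
    · rintro (⟨⟨h3, h4⟩, h5⟩ | ⟨⟨h3, h4⟩, h5⟩)
      · exact ⟨⟨h3, by omega⟩, h5⟩
      · exact ⟨⟨by omega, h4⟩, h5⟩
  · rw [Finset.disjoint_left]
    intro r h1 h2
    simp only [DD, Wn, Finset.mem_filter, Finset.mem_Icc, Finset.mem_Ioc] at h1 h2
    omega

theorem factor_le {r N : ℕ} (hN : 1 ≤ N) (hr : N < r) :
    (1 - 1 / (r : ℝ))⁻¹ ≤ Real.exp (1 / N) ∧ 0 < (1 - 1 / (r : ℝ))⁻¹ := by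
  have hN0 : (0 : ℝ) < N := by exact_mod_cast hN
  have h1 : (N : ℝ) + 1 ≤ r := by exact_mod_cast hr
  have hr0 : (0 : ℝ) < r := by linarith
  have e : (1 - 1 / (r : ℝ))⁻¹ = 1 + 1 / ((r : ℝ) - 1) := by
    have : (r : ℝ) - 1 ≠ 0 := by intro h; linarith
    field_simp
    ring
  constructor
  · rw [e]
    calc 1 + 1 / ((r : ℝ) - 1) ≤ 1 + 1 / N := by
          gcongr
          linarith
      _ ≤ Real.exp (1 / N) := by
          have := Real.add_one_le_exp (1 / (N : ℝ))
          linarith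
  · rw [e]
    have : 0 < (r : ℝ) - 1 := by linarith
    positivity

theorem HH_step (P : ℕ) (hP : P.Prime) (hP50 : 50 ≤ P) :
    ∃ i₀ : ℕ, 1 ≤ i₀ ∧ ∀ j : ℕ, i₀ ≤ j →
      HH P (2 ^ (j + 1)) ^ 2 * j ≤ HH P (2 ^ j) ^ 2 * (j + 1) := by
  obtain ⟨i₀, hi₀⟩ := window_upper P hP
  refine ⟨max i₀ 1, le_max_right _ _, fun j hj => ?_⟩
  have hw := hi₀ j (le_trans (le_max_left _ _) hj)
  have hj1 : 1 ≤ j := le_trans (le_max_right _ _) hj
  have hj0 : (0 : ℝ) < j := by exact_mod_cast hj1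
  have hj1' : (1 : ℝ) ≤ j := by exact_mod_cast hj1
  have hP50' : (50 : ℝ) ≤ P := by exact_mod_cast hP50
  have hlog2 : (0.69 : ℝ) < Real.log 2 := by
    have := Real.log_two_gt_d9; linarith
  have hcard : ((Wn P j).card : ℝ) * (j * Real.log 2) ≤ 2 * 2 ^ j / ((P : ℝ) - 1) := by
    refine le_trans ?_ hw
    rw [← nsmul_eq_mul]
    refine Finset.card_nsmul_le_sum _ _ _ fun r hr => ?_
    rw [Wn, Finset.mem_filter, Finset.mem_Ioc] at hr
    rw [← Real.log_pow]
    apply Real.log_le_log (by positivity)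
    exact_mod_cast hr.1.1.le
  have hprod : ∏ r ∈ Wn P j, (1 - 1 / (r : ℝ))⁻¹ ≤ Real.exp ((Wn P j).card * (1 / 2 ^ j)) := by
    rw [Real.exp_nat_mul]
    have h1 : ∏ r ∈ Wn P j, (1 - 1 / (r : ℝ))⁻¹ ≤ ∏ r ∈ Wn P j, Real.exp (1 / 2 ^ j) := by
      refine Finset.prod_le_prod (fun r hr => ?_) (fun r hr => ?_)
      · rw [Wn, Finset.mem_filter, Finset.mem_Ioc] at hr
        exact (factor_le Nat.one_le_two_pow hr.1.1).2.le
      · rw [Wn, Finset.mem_filter, Finset.mem_Ioc] at hr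
        have := (factor_le Nat.one_le_two_pow hr.1.1).1
        push_cast at this
        exact this
    rwa [Finset.prod_const] at h1
  have hprod0 : 0 ≤ ∏ r ∈ Wn P j, (1 - 1 / (r : ℝ))⁻¹ := by
    refine Finset.prod_nonneg fun r hr => ?_
    rw [Wn, Finset.mem_filter, Finset.mem_Ioc] at hr
    exact (factor_le Nat.one_le_two_pow hr.1.1).2.le
  -- the exponent
  have hexp : (Wn P j).card * (1 / (2 : ℝ) ^ j) ≤ 0.06 / j := by
    have h2j : (0 : ℝ) < 2 ^ j := by positivity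
    rw [mul_one_div, div_le_div_iff₀ h2j hj0]
    have hP49 : (49 : ℝ) ≤ (P : ℝ) - 1 := by linarith
    have h3 : 2 * 2 ^ j / ((P : ℝ) - 1) ≤ 2 * 2 ^ j / 49 := by gcongr
    have h4 : ((Wn P j).card : ℝ) * j * 0.69 ≤ 2 * 2 ^ j / 49 := by
      calc ((Wn P j).card : ℝ) * j * 0.69 ≤ ((Wn P j).card : ℝ) * j * Real.log 2 := by gcongr
        _ = ((Wn P j).card : ℝ) * (j * Real.log 2) := by ring
        _ ≤ _ := hcard.trans h3
    linarith
  have hsq : (∏ r ∈ Wn P j, (1 - 1 / (r : ℝ))⁻¹) ^ 2 ≤ 1 + 1 / j := by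
    have h5 : ∏ r ∈ Wn P j, (1 - 1 / (r : ℝ))⁻¹ ≤ Real.exp (0.06 / j) :=
      hprod.trans (Real.exp_le_exp.2 hexp)
    have h6 : (∏ r ∈ Wn P j, (1 - 1 / (r : ℝ))⁻¹) ^ 2 ≤ Real.exp (0.06 / j) ^ 2 := by gcongr
    refine h6.trans ?_
    rw [← Real.exp_nat_mul]
    have h7 : ((2 : ℕ) : ℝ) * (0.06 / j) = 0.12 / j := by push_cast; ring
    rw [h7]
    have h8 : |0.12 / (j : ℝ)| ≤ 1 := by
      rw [abs_of_pos (by positivity), div_le_one hj0]
      linarith
    have h9 := Real.abs_exp_sub_one_sub_id_le h8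
    have h10 := (abs_le.1 h9).2
    have h11 : (0.12 / (j : ℝ)) ^ 2 ≤ 0.0144 / j := by
      rw [div_pow, div_le_div_iff₀ (by positivity) hj0]
      nlinarith
    have h12 : 0.12 / (j : ℝ) + 0.0144 / j ≤ 1 / j := by
      rw [← add_div]
      gcongr
      norm_num
    linarith
  rw [HH_succ, mul_pow]
  have hH := HH_pos P (2 ^ j)
  calc HH P (2 ^ j) ^ 2 * (∏ r ∈ Wn P j, (1 - 1 / (r : ℝ))⁻¹) ^ 2 * j
      ≤ HH P (2 ^ j) ^ 2 * (1 + 1 / j) * j := by gcongr
    _ = HH P (2 ^ j) ^ 2 * (j + 1) := by field_simp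

theorem HH_ratio (P : ℕ) (hP : P.Prime) (hP50 : 50 ≤ P) :
    ∃ i₀ : ℕ, 1 ≤ i₀ ∧ ∀ i j : ℕ, i₀ ≤ i → i ≤ j →
      HH P (2 ^ j) ^ 2 * i ≤ HH P (2 ^ i) ^ 2 * j := by
  obtain ⟨i₀, h1, h2⟩ := HH_step P hP hP50
  refine ⟨i₀, h1, fun i j hi hij => ?_⟩
  induction j, hij using Nat.le_induction with
  | base => exact le_rfl
  | succ j hij ih =>
    have h3 := h2 j (hi.trans hij)
    have hj0 : (0 : ℝ) < j := by exact_mod_cast (show 0 < j by omega)
    have hi0 : (0 : ℝ) ≤ i := by positivity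
    have h4 : HH P (2 ^ (j + 1)) ^ 2 * i * j ≤ HH P (2 ^ i) ^ 2 * (j + 1) * j := by
      calc HH P (2 ^ (j + 1)) ^ 2 * i * j = (HH P (2 ^ (j + 1)) ^ 2 * j) * i := by ring
        _ ≤ (HH P (2 ^ j) ^ 2 * (j + 1)) * i := by gcongr
        _ = (HH P (2 ^ j) ^ 2 * i) * (j + 1) := by ring
        _ ≤ (HH P (2 ^ i) ^ 2 * j) * (j + 1) := by gcongr
        _ = _ := by ring
    push_cast
    exact le_of_mul_le_mul_right h4 hj0

theorem sum_le_prod (s : Finset ℕ) (hs : ∀ r ∈ s, 1 < r) :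
    1 + ∑ r ∈ s, 1 / (r : ℝ) ≤ ∏ r ∈ s, (1 - 1 / (r : ℝ))⁻¹ := by
  induction s using Finset.induction_on with
  | empty => simp
  | insert r s hr ih =>
    have hr1 : (1 : ℝ) < r := by exact_mod_cast hs r (Finset.mem_insert_self r s)
    have ih' := ih fun x hx => hs x (Finset.mem_insert_of_mem hx)
    rw [Finset.sum_insert hr, Finset.prod_insert hr]
    have h0 : 0 ≤ ∑ r ∈ s, 1 / (r : ℝ) := Finset.sum_nonneg fun x _ => by positivity
    have h1 : 1 + 1 / (r : ℝ) ≤ (1 - 1 / (r : ℝ))⁻¹ := by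
      have h2 : 0 < 1 - 1 / (r : ℝ) := by
        rw [sub_pos, div_lt_one (by linarith)]; exact hr1
      rw [← one_div (1 - 1 / (r : ℝ)), le_div_iff₀ h2]
      have h3 : 0 ≤ (1 / (r : ℝ)) ^ 2 := by positivity
      nlinarith
    have h4 : 0 ≤ 1 / (r : ℝ) := by positivity
    have h5 : 0 ≤ (1 - 1 / (r : ℝ))⁻¹ := by linarith
    calc 1 + (1 / (r : ℝ) + ∑ r ∈ s, 1 / (r : ℝ)) ≤ (1 + 1 / (r : ℝ)) * (1 + ∑ r ∈ s, 1 / (r : ℝ)) := by
          nlinarith
      _ ≤ (1 - 1 / (r : ℝ))⁻¹ * ∏ r ∈ s, (1 - 1 / (r : ℝ))⁻¹ := by gcongr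

theorem HH_tendsto (P : ℕ) (hP : P.Prime) :
    Tendsto (fun i : ℕ => HH P (2 ^ i)) atTop atTop := by
  obtain ⟨I₀, hI₀⟩ := fresh_lower 1 P le_rfl hP
  have hP0 : (0 : ℝ) < P := by exact_mod_cast hP.pos
  have h1 : ∀ i : ℕ, ∑ I ∈ Finset.Ico (max I₀ 1) (i + 1), 1 / (8 * P * (I : ℝ)) ≤ HH P (2 ^ i) := by
    intro i
    have h2 : 1 + ∑ r ∈ DD P (2 ^ i), 1 / (r : ℝ) ≤ HH P (2 ^ i) := sum_le_prod _ fun r hr => by
      rw [DD, Finset.mem_filter] at hr
      exact hr.2.1.one_lt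
    have h3 : ∑ I ∈ Finset.Ico (max I₀ 1) (i + 1), 1 / (8 * P * (I : ℝ)) ≤ ∑ r ∈ DD P (2 ^ i), 1 / (r : ℝ) := by
      have hdis : ((Finset.Ico (max I₀ 1) (i + 1) : Finset ℕ) : Set ℕ).PairwiseDisjoint (fun I => Fr 1 P I) := by
        intro I _ J _ hIJ
        simp only [Function.onFun]
        rw [Finset.disjoint_left]
        intro r h4 h5
        rw [Fr, Finset.mem_filter] at h4 h5
        exact hIJ (h4.2.2.2.symm.trans h5.2.2.2)
      calc ∑ I ∈ Finset.Ico (max I₀ 1) (i + 1), 1 / (8 * P * (I : ℝ))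
          ≤ ∑ I ∈ Finset.Ico (max I₀ 1) (i + 1), ∑ r ∈ Fr 1 P I, 1 / (r : ℝ) := by
            refine Finset.sum_le_sum fun I hI => ?_
            rw [Finset.mem_Ico] at hI
            have hI1 : 1 ≤ I := le_trans (le_max_right _ _) hI.1
            have hI0 : (0 : ℝ) < I := by exact_mod_cast hI1
            have h4 := hI₀ I (le_trans (le_max_left _ _) hI.1)
            have h5 : ((Fr 1 P I).card : ℝ) * (1 / 2 ^ I) ≤ ∑ r ∈ Fr 1 P I, 1 / (r : ℝ) := by
              rw [← nsmul_eq_mul]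
              refine Finset.card_nsmul_le_sum _ _ _ fun r hr => ?_
              rw [Fr, Finset.mem_filter] at hr
              have hr0 : (0 : ℝ) < r := by exact_mod_cast hr.2.1.pos
              have g : 2 * 1 * r < 2 ^ (I + 1) := by
                rw [← hr.2.2.2]
                exact Nat.lt_pow_succ_log_self (by norm_num) _
              rw [pow_succ] at g
              have g2 : r ≤ 2 ^ I := by omega
              apply one_div_le_one_div_of_le hr0
              exact_mod_cast g2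
            refine le_trans ?_ h5
            have h2I : (0 : ℝ) < 2 ^ I := by positivity
            rw [mul_one_div, le_div_iff₀ h2I]
            refine le_trans (le_of_eq ?_) h4
            push_cast
            field_simp
        _ = ∑ r ∈ (Finset.Ico (max I₀ 1) (i + 1)).biUnion (fun I => Fr 1 P I), 1 / (r : ℝ) :=
            (Finset.sum_biUnion hdis).symm
        _ ≤ ∑ r ∈ DD P (2 ^ i), 1 / (r : ℝ) := by
            apply Finset.sum_le_sum_of_subset_of_nonneg
            · intro r hr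
              rw [Finset.mem_biUnion] at hr
              obtain ⟨I, hI, hr⟩ := hr
              rw [Finset.mem_Ico] at hI
              rw [Fr, Finset.mem_filter] at hr
              rw [DD, Finset.mem_filter, Finset.mem_Icc]
              refine ⟨⟨hr.2.1.pos, ?_⟩, hr.2.1, hr.2.2.1⟩
              have g : 2 * 1 * r < 2 ^ (I + 1) := by
                rw [← hr.2.2.2]
                exact Nat.lt_pow_succ_log_self (by norm_num) _
              have g2 : 2 ^ (I + 1) ≤ 2 ^ (i + 1) := Nat.pow_le_pow_right (by norm_num) (by omega)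
              rw [pow_succ 2 i] at g2
              omega
            · intro r _ _
              positivity
    linarith
  refine tendsto_atTop_mono h1 ?_
  -- divergence of the harmonic series
  have h5 : Tendsto (fun n : ℕ => ∑ I ∈ Finset.range n, 1 / (I : ℝ)) atTop atTop :=
    (not_summable_iff_tendsto_nat_atTop_of_nonneg (fun n => by positivity)).1
      Real.not_summable_one_div_natCast
  have h6 : Tendsto (fun i : ℕ => ∑ I ∈ Finset.range (i + 1), 1 / (I : ℝ)) atTop atTop :=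
    h5.comp (tendsto_add_atTop_nat 1)
  have h7 : Tendsto (fun i : ℕ => (∑ I ∈ Finset.range (i + 1), 1 / (I : ℝ))
      + -(∑ I ∈ Finset.range (max I₀ 1), 1 / (I : ℝ))) atTop atTop :=
    tendsto_atTop_add_const_right _ _ h6
  have h8 := h7.const_mul_atTop (show (0 : ℝ) < 1 / (8 * P) by positivity)
  refine h8.congr' ?_
  filter_upwards [eventually_ge_atTop (max I₀ 1)] with i hi
  rw [← sub_eq_add_neg, ← Finset.sum_Ico_eq_sub _ (by omega), Finset.mul_sum]
  refine Finset.sum_congr rfl fun I _ => ?_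
  rw [div_mul_div_comm, one_mul]

end Pool.Agent.Cov
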