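import Mathlib
import Pool.Agent.Cov.Defs

set_option autoImplicit false

namespace Pool.Agent.Cov

open Finset

theorem tele (n : ℕ) : ∑ r ∈ Finset.Icc 2 (n+1), (1:ℝ) / (r * (r - 1)) = 1 - 1 / (n+1) := by
  induction n with
  | zero => simp
  | succ n ih =>
    rw [Finset.sum_Icc_succ_top (by omega), ih]
    push_cast
    field_simp
    ring

open Classical in
theorem sum_totient_le : ∃ C : ℝ, 0 < C ∧ ∀ P x : ℕ, 2 ≤ P →
    ∑ A ∈ (Finset.Icc 1 x).filter (fun A => Gen P A), (1 : ℝ) / (A.totient : ℝ) ≤ C * HH P x := by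
  refine ⟨Real.exp 1, Real.exp_pos 1, ?_⟩
  intro P x _
  set f : ℕ → ℝ := fun n => 1 / (n.totient : ℝ) with hf
  have hf0 : ∀ n, 0 ≤ f n := fun n => by positivity
  have hf1 : f 1 = 1 := by simp [hf]
  have hmul : ∀ {m n : ℕ}, m.Coprime n → f (m*n) = f m * f n := by
    intro m n h
    simp only [hf, Nat.totient_mul h]
    push_cast
    rw [one_div_mul_one_div]
  have hfp : ∀ {p : ℕ}, p.Prime → HasSum (fun n => f (p^n)) (1 + p/((p:ℝ)-1)^2) := by
    intro p hp
    have hp2 : (2:ℝ) ≤ p := by exact_mod_cast hp.two_le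
    have h1 : HasSum (fun n => f (p^(n+1))) (p/((p:ℝ)-1)^2) := by
      have h2 := (hasSum_geometric_of_lt_one (r := 1/(p:ℝ)) (by positivity)
        (by rw [div_lt_one (by linarith)]; linarith)).mul_right (1/((p:ℝ)-1))
      have h3 : (1 - 1/(p:ℝ))⁻¹ * (1/((p:ℝ)-1)) = p/((p:ℝ)-1)^2 := by
        have : (p:ℝ) - 1 ≠ 0 := by linarith
        have h4 : (1 - 1/(p:ℝ)) = (p - 1)/p := by field_simp
        rw [h4]
        field_simp
      rw [h3] at h2
      have h5 : (fun n => f (p^(n+1))) = fun n => (1/(p:ℝ))^n * (1/((p:ℝ)-1)) := by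
        funext n
        rw [hf]
        simp only
        rw [Nat.totient_prime_pow_succ hp, Nat.cast_mul, Nat.cast_sub hp.one_le, Nat.cast_pow,
          Nat.cast_one, one_div_pow, one_div_mul_one_div]
      rw [h5]
      exact h2
    have h2 := (hasSum_nat_add_iff (f := fun n => f (p^n)) 1).1 h1
    rw [Finset.sum_range_one, pow_zero, hf1, add_comm] at h2
    exact h2
  have hE := (EulerProduct.summable_and_hasSum_factoredNumbers_prod_filter_prime_tsum hf1 hmul
    (fun {p} hp => by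
      have := (hfp hp).summable
      simpa only [Real.norm_eq_abs, abs_of_nonneg (hf0 _)] using this) (DD P x)).2
  have hDD : ∀ r ∈ DD P x, r.Prime := by
    intro r hr
    exact (Finset.mem_filter.1 hr).2.1
  rw [Finset.filter_true_of_mem hDD] at hE
  set F := (Finset.Icc 1 x).filter (fun A => Gen P A) with hF
  have hFm : ∀ A ∈ F, A ∈ Nat.factoredNumbers (DD P x) := by
    intro A hA
    rw [hF, Finset.mem_filter, Finset.mem_Icc] at hA
    rw [Nat.mem_factoredNumbers]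
    refine ⟨hA.2.1, ?_⟩
    intro p hp
    rw [Nat.mem_primeFactorsList hA.2.1] at hp
    rw [DD, Finset.mem_filter, Finset.mem_Icc]
    exact ⟨⟨hp.1.one_le, (Nat.le_of_dvd (by omega) hp.2).trans hA.1.2⟩, hp.1, hA.2.2 p hp.1 hp.2⟩
  have h1 : ∑ A ∈ F, f A ≤ ∏ p ∈ DD P x, ∑' n : ℕ, f (p^n) := by
    have h2 := sum_le_hasSum (F.subtype (· ∈ Nat.factoredNumbers (DD P x)))
      (fun i _ => hf0 i) hE
    rwa [Finset.sum_subtype_of_mem f hFm] at h2
  refine h1.trans ?_
  have h3 : ∏ p ∈ DD P x, ∑' n : ℕ, f (p^n)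
      = (∏ p ∈ DD P x, (1 + 1/((p:ℝ) * (p - 1)))) * HH P x := by
    rw [HH, ← Finset.prod_mul_distrib]
    apply Finset.prod_congr rfl
    intro p hp
    have hp2 : (2:ℝ) ≤ p := by exact_mod_cast (hDD p hp).two_le
    rw [(hfp (hDD p hp)).tsum_eq]
    have : (p:ℝ) - 1 ≠ 0 := by linarith
    have h4 : (1 - 1/(p:ℝ)) = (p - 1)/p := by field_simp
    rw [h4]
    field_simp
    ring
  rw [h3]
  apply mul_le_mul_of_nonneg_right _ _
  · have h5 : ∏ p ∈ DD P x, (1 + 1/((p:ℝ) * (p - 1))) ≤ ∏ p ∈ DD P x, Real.exp (1/((p:ℝ) * (p - 1))) := by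
      apply Finset.prod_le_prod
      · intro p hp
        have hp2 : (2:ℝ) ≤ p := by exact_mod_cast (hDD p hp).two_le
        have : 0 < (p:ℝ) * (p - 1) := mul_pos (by linarith) (by linarith)
        positivity
      · intro p _
        have := Real.add_one_le_exp (1/((p:ℝ) * (p - 1)))
        linarith
    refine h5.trans ?_
    rw [← Real.exp_sum]
    apply Real.exp_le_exp.2
    have h6 : ∑ p ∈ DD P x, 1/((p:ℝ) * (p - 1)) ≤ ∑ p ∈ Finset.Icc 2 (x+1), 1/((p:ℝ) * (p - 1)) := by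
      apply Finset.sum_le_sum_of_subset_of_nonneg
      · intro p hp
        have h7 := (hDD p hp).two_le
        rw [DD, Finset.mem_filter, Finset.mem_Icc] at hp
        rw [Finset.mem_Icc]; omega
      · intro p hp _
        rw [Finset.mem_Icc] at hp
        have hp2 : (2:ℝ) ≤ p := by exact_mod_cast hp.1
        have : 0 < (p:ℝ) * (p - 1) := mul_pos (by linarith) (by linarith)
        positivity
    rw [tele] at h6
    have : (0:ℝ) ≤ 1 / (x+1) := by positivity
    linarith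
  · rw [HH]
    apply Finset.prod_nonneg
    intro p hp
    have hp2 : (2:ℝ) ≤ p := by exact_mod_cast (hDD p hp).two_le
    apply inv_nonneg.2
    rw [sub_nonneg, div_le_one (by linarith)]
    linarith

theorem Gen.of_dvd {P m d : ℕ} (h : Gen P m) (hd : d ∣ m) : Gen P d :=
  ⟨ne_zero_of_dvd_ne_zero h.1 hd, fun q hq hqd => h.2 q hq (hqd.trans hd)⟩

theorem totient_ppow {d : ℕ} (hd : IsPrimePow d) : (d:ℝ)/2 ≤ d.totient := by
  obtain ⟨p, k, hp, hk, rfl⟩ := (isPrimePow_nat_iff d).1 hd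
  obtain ⟨m, rfl⟩ : ∃ m, k = m+1 := ⟨k-1, by omega⟩
  rw [Nat.totient_prime_pow_succ hp, pow_succ, Nat.cast_mul, Nat.cast_mul, Nat.cast_sub hp.one_le]
  have hp2 : (2:ℝ) ≤ p := by exact_mod_cast hp.two_le
  have h0 : (0:ℝ) ≤ ((p^m : ℕ) : ℝ) := Nat.cast_nonneg _
  push_cast at h0 ⊢
  nlinarith

theorem inner_window {W : ℝ} (hW : 0 < W) (S : Finset ℕ)
    (hS : ∀ d ∈ S, 0 < d ∧ W/2 < d ∧ (d:ℝ) ≤ W) :
    ∑ d ∈ S, ArithmeticFunction.vonMangoldt d / (d.totient : ℝ) ≤ 4 * (Real.log 4 + 4) := by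
  have h1 : ∀ d ∈ S, ArithmeticFunction.vonMangoldt d / (d.totient : ℝ)
      ≤ 4 / W * ArithmeticFunction.vonMangoldt d := by
    intro d hd
    obtain ⟨h2, h3, h4⟩ := hS d hd
    by_cases h5 : ArithmeticFunction.vonMangoldt d = 0
    · rw [h5]; simp
    · have h6 := totient_ppow (ArithmeticFunction.vonMangoldt_ne_zero_iff.1 h5)
      have h7 : 0 ≤ ArithmeticFunction.vonMangoldt d := ArithmeticFunction.vonMangoldt_nonneg
      have h8 : W / 4 ≤ d.totient := by linarith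
      have h9 : (0:ℝ) < d.totient := lt_of_lt_of_le (by positivity) h8
      rw [div_le_iff₀ h9]
      have h10 : 4 / W * ArithmeticFunction.vonMangoldt d * (W / 4)
          = ArithmeticFunction.vonMangoldt d := by field_simp
      calc ArithmeticFunction.vonMangoldt d
          = 4 / W * ArithmeticFunction.vonMangoldt d * (W / 4) := h10.symm
        _ ≤ _ := mul_le_mul_of_nonneg_left h8 (by positivity)
  refine (Finset.sum_le_sum h1).trans ?_
  rw [← Finset.mul_sum]
  have h2 : ∑ d ∈ S, ArithmeticFunction.vonMangoldt d ≤ Chebyshev.psi W := by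
    rw [Chebyshev.psi]
    apply Finset.sum_le_sum_of_subset_of_nonneg
    · intro d hd
      obtain ⟨h2, h3, h4⟩ := hS d hd
      rw [Finset.mem_Ioc]
      exact ⟨h2, Nat.le_floor h4⟩
    · intro d _ _
      exact ArithmeticFunction.vonMangoldt_nonneg
  have h3 := h2.trans (Chebyshev.psi_le_const_mul_self hW.le)
  calc 4 / W * ∑ d ∈ S, ArithmeticFunction.vonMangoldt d
      ≤ 4 / W * ((Real.log 4 + 4) * W) := mul_le_mul_of_nonneg_left h3 (by positivity)
    _ = _ := by field_simp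

open Classical in
theorem sum_totient_window : ∃ C : ℝ, 0 < C ∧ ∀ P z i : ℕ, 2 ≤ P → 1 ≤ z →
    (Real.log z - (i + 1) * Real.log 2) *
      ∑ A ∈ (Finset.Icc 1 z).filter (fun A => Gen P A ∧ Nat.log 2 (z / A) = i),
        (1 : ℝ) / (A.totient : ℝ) ≤ C * HH P z := by
  obtain ⟨C1, hC1, hsum⟩ := sum_totient_le
  have hK : (0:ℝ) < 4 * (Real.log 4 + 4) := by
    have := Real.log_nonneg (show (1:ℝ) ≤ 4 by norm_num)
    linarith
  refine ⟨4 * (Real.log 4 + 4) * C1, by positivity, ?_⟩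
  intro P z i hP hz
  set F := (Finset.Icc 1 z).filter (fun A => Gen P A ∧ Nat.log 2 (z / A) = i) with hF
  have hFm : ∀ A, A ∈ F ↔ (1 ≤ A ∧ A ≤ z) ∧ Gen P A ∧ Nat.log 2 (z / A) = i := by
    intro A
    rw [hF, Finset.mem_filter, Finset.mem_Icc]
  have hwin : ∀ A ∈ F, 2^i * A ≤ z ∧ z < 2^(i+1) * A := by
    intro A hA
    rw [hFm] at hA
    obtain ⟨⟨h1, h2⟩, _, h3⟩ := hA
    have h4 : z / A ≠ 0 := by
      have := Nat.div_pos h2 h1
      omega
    have h5 := Nat.pow_log_le_self 2 h4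
    have h6 := Nat.lt_pow_succ_log_self (b := 2) (by norm_num) (z / A)
    rw [h3] at h5 h6
    exact ⟨(Nat.le_div_iff_mul_le h1).1 h5, (Nat.div_lt_iff_lt_mul h1).1 h6⟩
  have ha : (Real.log z - (i + 1) * Real.log 2) * ∑ A ∈ F, (1 : ℝ) / (A.totient : ℝ)
      ≤ ∑ A ∈ F, Real.log A / (A.totient : ℝ) := by
    rw [Finset.mul_sum]
    apply Finset.sum_le_sum
    intro A hA
    obtain ⟨h1, h2⟩ := hwin A hA
    have hA0 : (0:ℝ) < A := by
      have := ((hFm A).1 hA).1.1
      exact_mod_cast this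
    have h3 : Real.log z ≤ (i+1) * Real.log 2 + Real.log A := by
      have h4 : (z:ℝ) ≤ 2^(i+1) * A := by exact_mod_cast h2.le
      have h5 := Real.log_le_log (by exact_mod_cast hz) h4
      rw [Real.log_mul (by positivity) hA0.ne', Real.log_pow] at h5
      push_cast at h5
      exact h5
    rw [mul_one_div]
    gcongr
    linarith
  set Λ' : ℕ → ℝ := fun d => ArithmeticFunction.vonMangoldt d / (d.totient : ℝ) with hΛ'
  have hΛ0 : ∀ d, 0 ≤ Λ' d := fun d =>
    div_nonneg ArithmeticFunction.vonMangoldt_nonneg (Nat.cast_nonneg _)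
  set g : ℕ × ℕ → ℝ := fun p => Λ' p.1 * (1 / (p.2.totient : ℝ)) with hg
  have hb : ∀ A ∈ F, Real.log A / (A.totient : ℝ) ≤ ∑ p ∈ A.divisorsAntidiagonal, g p := by
    intro A hA
    have h1 : Real.log A = ∑ p ∈ A.divisorsAntidiagonal, ArithmeticFunction.vonMangoldt p.1 := by
      rw [Nat.sum_divisorsAntidiagonal (fun a _ => ArithmeticFunction.vonMangoldt a),
        ArithmeticFunction.vonMangoldt_sum]
    rw [h1, Finset.sum_div]
    apply Finset.sum_le_sum
    intro p hp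
    rw [Nat.mem_divisorsAntidiagonal] at hp
    have hp1 : 0 < p.1 := Nat.pos_of_ne_zero (by rintro h; rw [h] at hp; omega)
    have hp2 : 0 < p.2 := Nat.pos_of_ne_zero (by rintro h; rw [h] at hp; omega)
    have h2 := Nat.totient_super_multiplicative p.1 p.2
    rw [hp.1] at h2
    have h3 : ((p.1.totient : ℝ) * p.2.totient) ≤ A.totient := by exact_mod_cast h2
    have h4 : (0:ℝ) < p.1.totient := by exact_mod_cast Nat.totient_pos.2 hp1
    have h5 : (0:ℝ) < p.2.totient := by exact_mod_cast Nat.totient_pos.2 hp2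
    have h6 : g p = ArithmeticFunction.vonMangoldt p.1 / ((p.1.totient : ℝ) * p.2.totient) := by
      simp only [hg, hΛ']
      field_simp
    rw [h6]
    exact div_le_div_of_nonneg_left ArithmeticFunction.vonMangoldt_nonneg (by positivity) h3
  set U := Finset.Icc 1 z ×ˢ Finset.Icc 1 z with hU
  have hc : ∑ A ∈ F, ∑ p ∈ A.divisorsAntidiagonal, g p
      = ∑ p ∈ U.filter (fun p => p.1 * p.2 ∈ F), g p := by
    rw [← Finset.sum_fiberwise_of_maps_to (s := U.filter (fun p => p.1 * p.2 ∈ F)) (t := F)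
      (g := fun p => p.1 * p.2) (fun p hp => (Finset.mem_filter.1 hp).2)]
    apply Finset.sum_congr rfl
    intro A hA
    apply Finset.sum_congr _ (fun _ _ => rfl)
    ext p
    rw [Nat.mem_divisorsAntidiagonal, Finset.mem_filter, Finset.mem_filter, hU,
      Finset.mem_product, Finset.mem_Icc, Finset.mem_Icc]
    have hA1 := ((hFm A).1 hA).1
    constructor
    · rintro ⟨h1, h2⟩
      have hp1 : 0 < p.1 := Nat.pos_of_ne_zero (by rintro h; rw [h] at h1; omega)
      have hp2 : 0 < p.2 := Nat.pos_of_ne_zero (by rintro h; rw [h] at h1; omega)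
      have h3 : p.1 ≤ A := by rw [← h1]; exact Nat.le_mul_of_pos_right _ hp2
      have h4 : p.2 ≤ A := by rw [← h1]; exact Nat.le_mul_of_pos_left _ hp1
      refine ⟨⟨⟨⟨hp1, by omega⟩, ⟨hp2, by omega⟩⟩, ?_⟩, h1⟩
      rw [h1]; exact hA
    · rintro ⟨⟨_, _⟩, h1⟩
      exact ⟨h1, by omega⟩
  have hd : ∑ p ∈ U.filter (fun p => p.1 * p.2 ∈ F), g p
      ≤ ∑ e ∈ (Finset.Icc 1 z).filter (fun A => Gen P A),
        (4 * (Real.log 4 + 4)) * (1 / (e.totient : ℝ)) := by
    rw [Finset.sum_filter, hU, Finset.sum_product_right, Finset.sum_filter]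
    apply Finset.sum_le_sum
    intro e he
    rw [Finset.mem_Icc] at he
    rw [← Finset.sum_filter]
    split_ifs with hge
    · simp only [hg]
      rw [← Finset.sum_mul]
      apply mul_le_mul_of_nonneg_right _ (by positivity)
      have he0 : (0:ℝ) < e := by exact_mod_cast he.1
      have hz0 : (0:ℝ) < z := by exact_mod_cast hz
      apply inner_window (W := z / (2^i * e)) (by positivity)
      intro d hd
      rw [Finset.mem_filter, Finset.mem_Icc] at hd
      obtain ⟨h1, h2⟩ := hwin _ hd.2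
      refine ⟨by omega, ?_, ?_⟩
      · rw [div_div, div_lt_iff₀ (by positivity)]
        have : (z:ℝ) < 2^(i+1) * (d * e) := by exact_mod_cast h2
        calc (z:ℝ) < 2^(i+1) * (d * e) := this
          _ = d * (2^i * e * 2) := by ring
      · rw [le_div_iff₀ (by positivity)]
        have : 2^i * ((d:ℝ) * e) ≤ z := by exact_mod_cast h1
        calc (d:ℝ) * (2^i * e) = 2^i * ((d:ℝ) * e) := by ring
          _ ≤ z := this
    · apply le_of_eq
      apply Finset.sum_eq_zero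
      intro d hd
      exfalso
      apply hge
      rw [Finset.mem_filter] at hd
      exact ((hFm _).1 hd.2).2.1.of_dvd (dvd_mul_left _ _)
  calc _ ≤ _ := ha
    _ ≤ _ := Finset.sum_le_sum hb
    _ = _ := hc
    _ ≤ _ := hd
    _ = 4 * (Real.log 4 + 4) * ∑ e ∈ (Finset.Icc 1 z).filter (fun A => Gen P A),
        (1 / (e.totient : ℝ)) := by rw [Finset.mul_sum]
    _ ≤ 4 * (Real.log 4 + 4) * (C1 * HH P z) :=
        mul_le_mul_of_nonneg_left (hsum P z hP) hK.le
    _ = _ := by ring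

theorem geo_tail {r : ℝ} (h0 : 0 ≤ r) (h1 : r ≤ 1/2) (z : ℕ) :
    ∑ e ∈ Finset.Icc 2 z, r ^ e ≤ 2 * r^2 := by
  have key : ∀ n : ℕ, ∑ e ∈ Finset.Icc 2 (n+1), r ^ e ≤ 2 * r^2 * (1 - r^n) := by
    intro n
    induction n with
    | zero => simp
    | succ n ih =>
      rw [Finset.sum_Icc_succ_top (by omega)]
      have h2 : 0 ≤ r^n * r^2 := by positivity
      have h3 : r^(n+1+1) = r^n * r^2 := by ring
      have h4 : r^(n+1) = r^n * r := by ring
      rw [h3, h4]
      nlinarith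
  rcases Nat.eq_zero_or_pos z with rfl | hz
  · simp
    positivity
  · obtain ⟨n, rfl⟩ : ∃ n, z = n + 1 := ⟨z - 1, by omega⟩
    refine (key n).trans ?_
    have : 0 ≤ 2 * r^2 * r^n := by positivity
    linarith

open Classical in
/-- prime powers contribute little -/
theorem sum_nonprime_le : ∃ C : ℝ, 0 < C ∧ ∀ P z : ℕ, 2 ≤ P →
    ∑ d ∈ (Finset.Icc 1 z).filter (fun d => Gen P d ∧ ¬ d.Prime),
      ArithmeticFunction.vonMangoldt d / (d : ℝ) ≤ C / P := by
  have hsm : Summable fun n : ℕ => (((n:ℝ) ^ ((3:ℝ)/2))⁻¹) :=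
    Real.summable_nat_rpow_inv.2 (by norm_num)
  have hts0 : 0 ≤ ∑' n : ℕ, (((n:ℝ) ^ ((3:ℝ)/2))⁻¹) :=
    tsum_nonneg fun n => by positivity
  refine ⟨4 * (∑' n : ℕ, (((n:ℝ) ^ ((3:ℝ)/2))⁻¹)) + 1, by positivity, ?_⟩
  intro P z hP
  have hPR : (2:ℝ) ≤ P := by exact_mod_cast hP
  set F := (Finset.Icc 1 z).filter (fun d => Gen P d ∧ ¬ d.Prime) with hF
  set f : ℕ → ℝ := fun d => ArithmeticFunction.vonMangoldt d / (d : ℝ) with hf
  have hf0 : ∀ d, 0 ≤ f d := fun d =>
    div_nonneg ArithmeticFunction.vonMangoldt_nonneg (Nat.cast_nonneg _)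
  set R := DD P z ×ˢ Finset.Icc 2 z with hR
  have hDD : ∀ r ∈ DD P z, r.Prime ∧ r % P = 1 ∧ 1 ≤ r ∧ r ≤ z := by
    intro r hr
    rw [DD, Finset.mem_filter, Finset.mem_Icc] at hr
    exact ⟨hr.2.1, hr.2.2, hr.1.1, hr.1.2⟩
  have h1 : ∑ d ∈ F, f d ≤ ∑ d ∈ R.image (fun p => p.1 ^ p.2), f d := by
    rw [← Finset.sum_filter_ne_zero]
    apply Finset.sum_le_sum_of_subset_of_nonneg
    · intro d hd
      rw [Finset.mem_filter, hF, Finset.mem_filter, Finset.mem_Icc] at hd
      obtain ⟨⟨⟨hd1, hdz⟩, hgen, hnp⟩, hne⟩ := hd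
      have h2 : ArithmeticFunction.vonMangoldt d ≠ 0 := by
        intro h
        apply hne
        simp only [hf, h, zero_div]
      obtain ⟨q, e, hq, he, hqe⟩ := (isPrimePow_nat_iff d).1
        (ArithmeticFunction.vonMangoldt_ne_zero_iff.1 h2)
      rw [Finset.mem_image]
      refine ⟨(q, e), ?_, hqe⟩
      have hqd : q ∣ d := by rw [← hqe]; exact dvd_pow_self q he.ne'
      have he1 : e ≠ 1 := by
        rintro rfl
        rw [pow_one] at hqe
        exact hnp (hqe ▸ hq)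
      have he2 : e < d := by
        rw [← hqe]
        exact Nat.lt_pow_self hq.one_lt
      rw [hR, Finset.mem_product, Finset.mem_Icc, DD, Finset.mem_filter, Finset.mem_Icc]
      refine ⟨⟨⟨hq.one_le, (Nat.le_of_dvd (by omega) hqd).trans hdz⟩, hq, hgen.2 q hq hqd⟩, ?_, ?_⟩
      · show 2 ≤ e
        omega
      · show e ≤ z
        omega
    · intro d _ _
      exact hf0 d
  have h2 : ∑ d ∈ R.image (fun p => p.1 ^ p.2), f d ≤ ∑ p ∈ R, f (p.1 ^ p.2) :=
    Finset.sum_image_le_of_nonneg fun u _ => hf0 u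
  have h3 : ∑ p ∈ R, f (p.1 ^ p.2) ≤ ∑ q ∈ DD P z, 4 / P * (((q/P : ℕ):ℝ) ^ ((3:ℝ)/2))⁻¹ := by
    rw [hR, Finset.sum_product]
    apply Finset.sum_le_sum
    intro q hq
    obtain ⟨hqp, hqm, hq1, hqz⟩ := hDD q hq
    have hq2 : (2:ℝ) ≤ q := by exact_mod_cast hqp.two_le
    have hlog : 0 ≤ Real.log q := Real.log_nonneg (by linarith)
    have h4 : ∑ e ∈ Finset.Icc 2 z, f (q ^ e) = Real.log q * ∑ e ∈ Finset.Icc 2 z, (1/(q:ℝ))^e := by
      rw [Finset.mul_sum]
      apply Finset.sum_congr rfl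
      intro e he
      rw [Finset.mem_Icc] at he
      simp only [hf]
      rw [ArithmeticFunction.vonMangoldt_apply_pow (by omega),
        ArithmeticFunction.vonMangoldt_apply_prime hqp, one_div_pow, mul_one_div, Nat.cast_pow]
    show ∑ e ∈ Finset.Icc 2 z, f (q ^ e) ≤ _
    rw [h4]
    have h5 := geo_tail (r := 1/(q:ℝ)) (by positivity)
      (one_div_le_one_div_of_le (by norm_num) hq2) z
    have h6 : Real.log q ≤ 2 * (q:ℝ)^((1:ℝ)/2) := by
      have := Real.log_le_rpow_div (x := q) (ε := 1/2) (by linarith) (by norm_num)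
      linarith
    have hq0 : (0:ℝ) < q := by linarith
    have h7 : (q:ℝ)^((1:ℝ)/2) * (1/(q:ℝ))^2 = ((q:ℝ)^((3:ℝ)/2))⁻¹ := by
      have h8 : (q:ℝ)^((1:ℝ)/2) * (q:ℝ)^((3:ℝ)/2) = (q:ℝ)^2 := by
        rw [← Real.rpow_add hq0]; norm_num
      have h9 : (0:ℝ) < (q:ℝ)^((3:ℝ)/2) := by positivity
      apply eq_inv_of_mul_eq_one_left
      rw [one_div_pow, mul_right_comm, h8]
      field_simp
    set l := q / P with hl
    have hqdiv : q = P * l + 1 := by
      have := Nat.div_add_mod q P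
      rw [hqm] at this
      exact this.symm
    have hl1 : 1 ≤ l := by
      rcases Nat.eq_zero_or_pos l with h | h
      · rw [h] at hqdiv
        have := hqp.two_le
        omega
      · exact h
    have hl0 : (0:ℝ) < l := by exact_mod_cast hl1
    have h10 : (l:ℝ)^((3:ℝ)/2) * P ≤ (q:ℝ)^((3:ℝ)/2) := by
      calc (l:ℝ)^((3:ℝ)/2) * P = (l:ℝ)^((3:ℝ)/2) * (P:ℝ)^(1:ℝ) := by rw [Real.rpow_one]
        _ ≤ (l:ℝ)^((3:ℝ)/2) * (P:ℝ)^((3:ℝ)/2) := by
            gcongr
            · linarith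
            · norm_num
        _ = ((l:ℝ) * P)^((3:ℝ)/2) := by rw [Real.mul_rpow hl0.le (by linarith)]
        _ ≤ _ := by
            apply Real.rpow_le_rpow (by positivity) _ (by norm_num)
            have : ((q:ℕ):ℝ) = P * l + 1 := by exact_mod_cast hqdiv
            rw [this]
            linarith
    calc Real.log q * ∑ e ∈ Finset.Icc 2 z, (1/(q:ℝ))^e
        ≤ (2 * (q:ℝ)^((1:ℝ)/2)) * (2 * (1/(q:ℝ))^2) :=
          mul_le_mul h6 h5 (Finset.sum_nonneg fun e _ => by positivity) (by positivity)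
      _ = 4 * ((q:ℝ)^((1:ℝ)/2) * (1/(q:ℝ))^2) := by ring
      _ = 4 * ((q:ℝ)^((3:ℝ)/2))⁻¹ := by rw [h7]
      _ ≤ 4 * ((l:ℝ)^((3:ℝ)/2) * P)⁻¹ := by
          have h11 : (0:ℝ) < (l:ℝ)^((3:ℝ)/2) * P := by
            have : (0:ℝ) < P := by linarith
            positivity
          exact mul_le_mul_of_nonneg_left (inv_anti₀ h11 h10) (by norm_num)
      _ = _ := by rw [mul_inv]; ring
  have h4 : ∑ q ∈ DD P z, 4 / P * (((q/P : ℕ):ℝ) ^ ((3:ℝ)/2))⁻¹
      ≤ 4 / P * ∑' n : ℕ, (((n:ℝ) ^ ((3:ℝ)/2))⁻¹) := by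
    rw [← Finset.mul_sum]
    apply mul_le_mul_of_nonneg_left _ (by positivity)
    have hinj : Set.InjOn (fun q => q / P) (DD P z : Set ℕ) := by
      intro a ha b hb hab
      have h5 := (hDD a ha).2.1
      have h6 := (hDD b hb).2.1
      have h7 := Nat.div_add_mod a P
      have h8 := Nat.div_add_mod b P
      have h9 : a / P = b / P := hab
      rw [h5, h9] at h7
      rw [h6] at h8
      omega
    have h5 := Finset.sum_image (f := fun n : ℕ => (((n:ℝ) ^ ((3:ℝ)/2))⁻¹)) hinj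
    rw [← h5]
    exact hsm.sum_le_tsum _ fun n _ => by positivity
  calc _ ≤ _ := h1
    _ ≤ _ := h2
    _ ≤ _ := h3
    _ ≤ _ := h4
    _ = (4 * ∑' n : ℕ, (((n:ℝ) ^ ((3:ℝ)/2))⁻¹)) / P := by ring
    _ ≤ _ := by
        gcongr
        linarith

end Pool.Agent.Cov
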