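import Mathlib
import Pool.Agent.Erdos456.Sieve

set_option autoImplicit false

namespace Pool.Agent.Cov

open Finset Pool.Agent.Erdos456.SieveAux

theorem coprime_prod_of_notMem {T : Finset ℕ} (hT : ∀ p ∈ T, p.Prime) {p : ℕ} (hp : p.Prime)
    (hpT : p ∉ T) : Nat.Coprime p (∏ q ∈ T, q) := by
  rw [Nat.coprime_prod_right_iff]
  intro q hq
  rw [Nat.coprime_primes hp (hT q hq)]
  rintro rfl
  exact hpT hq

/-- residues modulo a product of primes -/
theorem card_residues (T : Finset ℕ) (hT : ∀ p ∈ T, p.Prime) (E : ℕ → Finset ℕ)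
    (hE : ∀ p ∈ T, E p ⊆ range p) :
    ((range (∏ p ∈ T, p)).filter (fun n => ∀ p ∈ T, n % p ∈ E p)).card = ∏ p ∈ T, (E p).card := by
  classical
  induction T using Finset.induction_on with
  | empty => simp
  | insert p T hpT ih =>
    have hp : p.Prime := hT p (mem_insert_self _ _)
    have hT' : ∀ q ∈ T, q.Prime := fun q hq => hT q (mem_insert_of_mem hq)
    have hE' : ∀ q ∈ T, E q ⊆ range q := fun q hq => hE q (mem_insert_of_mem hq)
    have hcop : Nat.Coprime p (∏ q ∈ T, q) := coprime_prod_of_notMem hT' hp hpT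
    rw [prod_insert hpT, prod_insert hpT, ← ih hT' hE', ← Finset.card_product]
    set m := ∏ q ∈ T, q with hm
    have hm0 : m ≠ 0 := by
      rw [hm, Finset.prod_ne_zero_iff]
      intro q hq
      exact (hT' q hq).ne_zero
    apply Finset.card_bij (fun n _ => (n % p, n % m))
    · intro n hn
      rw [mem_filter, mem_range] at hn
      rw [mem_product, mem_filter, mem_range]
      refine ⟨hn.2 p (mem_insert_self _ _), Nat.mod_lt _ (Nat.pos_of_ne_zero hm0), ?_⟩
      intro q hq
      have : (n % m) % q = n % q := Nat.mod_mod_of_dvd _ (Finset.dvd_prod_of_mem _ hq)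
      rw [this]
      exact hn.2 q (mem_insert_of_mem hq)
    · intro a ha b hb hab
      rw [mem_filter, mem_range] at ha hb
      simp only [Prod.mk.injEq] at hab
      have h1 : a ≡ b [MOD (p * m)] := by
        rw [← Nat.modEq_and_modEq_iff_modEq_mul hcop]
        exact hab
      unfold Nat.ModEq at h1
      rwa [Nat.mod_eq_of_lt ha.1, Nat.mod_eq_of_lt hb.1] at h1
    · rintro ⟨x, y⟩ hxy
      rw [mem_product, mem_filter, mem_range] at hxy
      obtain ⟨hx, hy, hy2⟩ := hxy
      have hxp : x < p := mem_range.1 (hE p (mem_insert_self _ _) hx)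
      have h1 := (Nat.chineseRemainder hcop x y).2
      have h2 := Nat.chineseRemainder_lt_mul hcop x y hp.ne_zero hm0
      set n : ℕ := (Nat.chineseRemainder hcop x y : ℕ) with hn
      have h3 : n % p = x := by
        have := h1.1
        unfold Nat.ModEq at this
        rwa [Nat.mod_eq_of_lt hxp] at this
      have h4 : n % m = y := by
        have := h1.2
        unfold Nat.ModEq at this
        rwa [Nat.mod_eq_of_lt hy] at this
      refine ⟨n, ?_, by rw [h3, h4]⟩
      rw [mem_filter, mem_range]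
      refine ⟨h2, ?_⟩
      intro q hq
      rcases mem_insert.1 hq with h | h
      · subst h; rw [h3]; exact hx
      · have : (n % m) % q = n % q := Nat.mod_mod_of_dvd _ (Finset.dvd_prod_of_mem _ h)
        rw [← this, h4]
        exact hy2 q h

theorem count_residues (T : Finset ℕ) (hT : ∀ p ∈ T, p.Prime) (E : ℕ → Finset ℕ)
    (hE : ∀ p ∈ T, E p ⊆ range p) (Y : ℕ) :
    |(((Icc 1 Y).filter (fun l => ∀ p ∈ T, l % p ∈ E p)).card : ℝ)
      - Y * ∏ p ∈ T, ((E p).card : ℝ) / p| ≤ ∏ p ∈ T, ((E p).card : ℝ) := by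
  classical
  set m := ∏ q ∈ T, q with hm
  have hm0 : 0 < m := Finset.prod_pos fun q hq => (hT q hq).pos
  set R := (range m).filter (fun n => ∀ p ∈ T, n % p ∈ E p) with hR
  have hcard := card_residues T hT E hE
  have h1 : (Icc 1 Y).filter (fun l => ∀ p ∈ T, l % p ∈ E p)
      = R.biUnion (fun e => (Icc 1 Y).filter (fun l => l ≡ e [MOD m])) := by
    ext l
    simp only [mem_filter, mem_biUnion, hR, mem_range]
    constructor
    · rintro ⟨h1, h2⟩
      refine ⟨l % m, ⟨Nat.mod_lt _ hm0, ?_⟩, h1, (Nat.mod_modEq _ _).symm⟩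
      intro p hp
      rw [Nat.mod_mod_of_dvd _ (Finset.dvd_prod_of_mem _ hp)]
      exact h2 p hp
    · rintro ⟨e, ⟨he1, he2⟩, hl, hle⟩
      refine ⟨hl, ?_⟩
      intro p hp
      have : l ≡ e [MOD p] := hle.of_dvd (Finset.dvd_prod_of_mem _ hp)
      unfold Nat.ModEq at this
      rw [this]
      exact he2 p hp
  have h2 : (((Icc 1 Y).filter (fun l => ∀ p ∈ T, l % p ∈ E p)).card : ℝ)
      = ∑ e ∈ R, (((Icc 1 Y).filter (fun l => l ≡ e [MOD m])).card : ℝ) := by
    rw [h1, Finset.card_biUnion]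
    · push_cast; rfl
    · intro a ha b hb hab
      show Disjoint ((Icc 1 Y).filter (fun l => l ≡ a [MOD m]))
        ((Icc 1 Y).filter (fun l => l ≡ b [MOD m]))
      rw [Finset.disjoint_left]
      intro l hl1 hl2
      rw [mem_filter] at hl1 hl2
      apply hab
      have h3 : a ≡ b [MOD m] := hl1.2.symm.trans hl2.2
      rw [Finset.mem_coe, hR, mem_filter, mem_range] at ha hb
      unfold Nat.ModEq at h3
      rwa [Nat.mod_eq_of_lt ha.1, Nat.mod_eq_of_lt hb.1] at h3
  have h3 : (Y : ℝ) * ∏ p ∈ T, ((E p).card : ℝ) / p = ∑ e ∈ R, (Y : ℝ) / m := by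
    rw [Finset.sum_const, nsmul_eq_mul, hR, hcard, Finset.prod_div_distrib, hm]
    push_cast
    ring
  rw [h2, h3, ← Finset.sum_sub_distrib]
  refine (Finset.abs_sum_le_sum_abs _ _).trans ?_
  refine (Finset.sum_le_sum fun e _ => count_class Y m e hm0).trans ?_
  rw [Finset.sum_const, nsmul_eq_mul, mul_one, hR, hcard]
  push_cast
  exact le_rfl

end Pool.Agent.Cov
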