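import Mathlib
import Pool.Agent.Cov.SieveG
import Pool.Agent.Erdos456.Mertens

set_option autoImplicit false

namespace Pool.Agent.Cov

open Finset ArithmeticFunction BoundingSieve Pool.Agent.Erdos456.SieveAux

theorem markov_aux (Q : Finset ℕ) (f w : ℕ → ℝ) (hf : ∀ p ∈ Q, 0 ≤ f p) (hw : ∀ p ∈ Q, 0 ≤ w p) :
    ∑ t ∈ Q.powerset, (∏ p ∈ t, f p) * (∑ p ∈ t, w p)
      ≤ (∑ p ∈ Q, f p * w p) * ∏ p ∈ Q, (1 + f p) := by
  classical
  induction Q using Finset.induction_on with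
  | empty => simp
  | insert p Q hpQ ih =>
    have hf' : ∀ q ∈ Q, 0 ≤ f q := fun q hq => hf q (mem_insert_of_mem hq)
    have hw' : ∀ q ∈ Q, 0 ≤ w q := fun q hq => hw q (mem_insert_of_mem hq)
    have hfp := hf p (mem_insert_self _ _)
    have hwp := hw p (mem_insert_self _ _)
    rw [Finset.sum_powerset_insert hpQ, Finset.sum_insert hpQ, Finset.prod_insert hpQ]
    have h1 : ∀ t ∈ Q.powerset, (∏ q ∈ insert p t, f q) * (∑ q ∈ insert p t, w q)
        = f p * ((∏ q ∈ t, f q) * (∑ q ∈ t, w q)) + f p * w p * ∏ q ∈ t, f q := by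
      intro t ht
      have hpt : p ∉ t := fun h => hpQ (mem_powerset.1 ht h)
      rw [Finset.prod_insert hpt, Finset.sum_insert hpt]
      ring
    rw [Finset.sum_congr rfl h1, Finset.sum_add_distrib, ← Finset.mul_sum, ← Finset.mul_sum,
      ← Finset.prod_one_add]
    have ih' := ih hf' hw'
    set S := ∑ t ∈ Q.powerset, (∏ q ∈ t, f q) * (∑ q ∈ t, w q)
    set Pr := ∏ q ∈ Q, (1 + f q) with hPr
    have hPr0 : 0 ≤ Pr := Finset.prod_nonneg fun q hq => by have := hf' q hq; linarith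
    set V := ∑ q ∈ Q, f q * w q
    have h2 : S + f p * S ≤ (1 + f p) * (V * Pr) := by nlinarith
    have h3 : 0 ≤ f p * w p * Pr * f p := by positivity
    nlinarith

theorem markov (Q : Finset ℕ) (hQ : ∀ p ∈ Q, 1 ≤ p) (f : ℕ → ℝ) (hf : ∀ p ∈ Q, 0 ≤ f p) (X : ℕ)
    (h : ∑ p ∈ Q, f p * Real.log p ≤ Real.log (X + 1) / 2) (hX : 1 ≤ X) :
    ∏ p ∈ Q, (1 + f p) ≤ 2 * ∑ t ∈ Q.powerset.filter (fun t => ∏ p ∈ t, p ≤ X), ∏ p ∈ t, f p := by
  classical
  have hlog : 0 < Real.log ((X : ℝ) + 1) := Real.log_pos (by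
    have : (1 : ℝ) ≤ X := by exact_mod_cast hX
    linarith)
  have h1 := markov_aux Q f (fun p => Real.log p) hf
    (fun p hp => Real.log_nonneg (by exact_mod_cast hQ p hp))
  set Pr := ∏ p ∈ Q, (1 + f p) with hPr
  have hPr0 : 0 ≤ Pr := Finset.prod_nonneg fun q hq => by have := hf q hq; linarith
  have hsplit : Pr = ∑ t ∈ Q.powerset.filter (fun t => ∏ p ∈ t, p ≤ X), ∏ p ∈ t, f p
      + ∑ t ∈ Q.powerset.filter (fun t => ¬ ∏ p ∈ t, p ≤ X), ∏ p ∈ t, f p := by
    rw [Finset.sum_filter_add_sum_filter_not, hPr, Finset.prod_one_add]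
  have h2 : (∑ t ∈ Q.powerset.filter (fun t => ¬ ∏ p ∈ t, p ≤ X), ∏ p ∈ t, f p) * Real.log (X + 1)
      ≤ ∑ t ∈ Q.powerset, (∏ p ∈ t, f p) * (∑ p ∈ t, Real.log p) := by
    rw [Finset.sum_mul]
    refine le_trans ?_ (Finset.sum_le_sum_of_subset_of_nonneg
      (Finset.filter_subset (fun t => ¬ ∏ p ∈ t, p ≤ X) _) ?_)
    · apply Finset.sum_le_sum
      intro t ht
      rw [mem_filter, mem_powerset] at ht
      have h3 : 0 ≤ ∏ p ∈ t, f p := Finset.prod_nonneg fun q hq => hf q (ht.1 hq)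
      apply mul_le_mul_of_nonneg_left _ h3
      rw [← Real.log_prod (fun p hp => by
        have := hQ p (ht.1 hp)
        have h5 : (1 : ℝ) ≤ p := by exact_mod_cast this
        linarith)]
      apply Real.log_le_log (by positivity)
      have h4 : X + 1 ≤ ∏ p ∈ t, p := by
        have := ht.2
        omega
      have h4' : ((X + 1 : ℕ) : ℝ) ≤ ((∏ p ∈ t, p : ℕ) : ℝ) := by exact_mod_cast h4
      push_cast at h4'
      exact h4'
    · intro t ht _
      rw [mem_powerset] at ht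
      have h3 : 0 ≤ ∏ p ∈ t, f p := Finset.prod_nonneg fun q hq => hf q (ht hq)
      have h4 : 0 ≤ ∑ p ∈ t, Real.log (p : ℝ) := Finset.sum_nonneg fun p hp =>
        Real.log_nonneg (by exact_mod_cast hQ p (ht hp))
      positivity
  set B := ∑ t ∈ Q.powerset.filter (fun t => ¬ ∏ p ∈ t, p ≤ X), ∏ p ∈ t, f p
  have h5 : B * Real.log (X + 1) ≤ (Real.log (X + 1) / 2) * Pr :=
    h2.trans (h1.trans (mul_le_mul_of_nonneg_right h hPr0))
  have h6 : B ≤ Pr / 2 := by
    by_contra hc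
    rw [not_le] at hc
    have := mul_lt_mul_of_pos_right hc hlog
    linarith
  linarith

/-- lower bound for the Selberg denominator -/
theorem JJ_lower (Y X M : ℕ) (E : ℕ → Finset ℕ) (hS : Sys M E) (hM : M ≠ 0) (Q : Finset ℕ)
    (hQ : ∀ p ∈ Q, p.Prime ∧ ¬ p ∣ M ∧ (E p).card = 2) :
    (∑ t ∈ Q.powerset.filter (fun t => ∏ p ∈ t, p ≤ X), ∏ p ∈ t, (2 : ℝ) / ((p : ℝ) - 2))
      * U X (M * ∏ p ∈ Q, p) ≤ JJ (sg Y (X ^ 2) M E hS) (X ^ 2) := by
  classical
  have hQp : ∀ p ∈ Q, p.Prime := fun p hp => (hQ p hp).1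
  set A := Q.powerset.filter (fun t => ∏ p ∈ t, p ≤ X) with hA
  set N := M * ∏ p ∈ Q, p with hN
  have key : ∀ t ∈ A, ∀ b ∈ SF X N, (∏ p ∈ t, p) * b ≤ X ^ 2 ∧ (∏ p ∈ t, p) * b ∣ PR (X ^ 2) M ∧
      ((∏ p ∈ t, p) * b).primeFactors = t ∪ b.primeFactors ∧ Disjoint t b.primeFactors ∧
      Disjoint Q b.primeFactors := by
    intro t ht b hb
    rw [hA, mem_filter, mem_powerset] at ht
    unfold SF at hb
    rw [mem_filter, mem_Icc] at hb
    obtain ⟨⟨hb1, hbX⟩, hbsq, hbN⟩ := hb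
    have htp : ∀ p ∈ t, p.Prime := fun p hp => hQp p (ht.1 hp)
    have hbQ : Nat.Coprime b (∏ p ∈ Q, p) := Nat.Coprime.coprime_mul_left_right hbN
    have hbM : Nat.Coprime b M := Nat.Coprime.coprime_mul_right_right hbN
    have hdQ : Disjoint Q b.primeFactors := by
      rw [Finset.disjoint_left]
      intro p hpQ hpb
      rw [Nat.mem_primeFactors] at hpb
      rw [Nat.coprime_prod_right_iff] at hbQ
      have h1 := hbQ p hpQ
      have h2 : p ∣ Nat.gcd b p := Nat.dvd_gcd hpb.2.1 dvd_rfl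
      rw [h1] at h2
      exact hpb.1.one_lt.ne' (Nat.dvd_one.1 h2)
    have hdt : Disjoint t b.primeFactors := Finset.disjoint_of_subset_left ht.1 hdQ
    have htb : Nat.Coprime (∏ p ∈ t, p) b := by
      rw [Nat.coprime_prod_left_iff]
      intro p hp
      rw [Nat.coprime_prod_right_iff] at hbQ
      exact (hbQ p (ht.1 hp)).symm
    have htsq : Squarefree (∏ p ∈ t, p) := by
      refine Finset.squarefree_prod_of_pairwise_isCoprime (fun p hp q hq hpq => ?_)
        (fun p hp => (htp p hp).squarefree)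
      exact Nat.coprime_iff_isRelPrime.1 ((Nat.coprime_primes (htp p hp) (htp q hq)).2 hpq)
    have htM : Nat.Coprime (∏ p ∈ t, p) M := by
      rw [Nat.coprime_prod_left_iff]
      intro p hp
      rw [Nat.Prime.coprime_iff_not_dvd (htp p hp)]
      exact (hQ p (ht.1 hp)).2.1
    have hle : (∏ p ∈ t, p) * b ≤ X ^ 2 := by
      rw [sq]; exact Nat.mul_le_mul ht.2 hbX
    refine ⟨hle, ?_, ?_, hdt, hdQ⟩
    · apply dvd_PR hle
      · rw [Nat.squarefree_mul_iff]
        exact ⟨htb, htsq, hbsq⟩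
      · exact Nat.Coprime.mul_left htM hbM
    · rw [Nat.primeFactors_mul (Finset.prod_ne_zero_iff.2 fun p hp => (htp p hp).ne_zero) (by omega),
        Nat.primeFactors_prod htp]
  have h0 : (∑ t ∈ A, ∏ p ∈ t, (2 : ℝ) / ((p : ℝ) - 2)) * U X N
      = ∑ x ∈ A ×ˢ SF X N, (∏ p ∈ x.1, (2 : ℝ) / ((p : ℝ) - 2)) * (1 / (x.2 : ℝ)) := by
    unfold U
    rw [Finset.sum_mul_sum, Finset.sum_product]
  rw [h0]
  unfold JJ
  apply sum_le_of_inj (fun x : Finset ℕ × ℕ => (∏ p ∈ x.1, p) * x.2)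
  · rintro ⟨t, b⟩ hx
    rw [mem_product] at hx
    obtain ⟨h1, h2, -, -, -⟩ := key t hx.1 b hx.2
    rw [mem_filter, Nat.mem_divisors]
    exact ⟨⟨h2, P_ne _⟩, h1⟩
  · rintro ⟨t, b⟩ hx ⟨t', b'⟩ hx' heq
    rw [Finset.mem_coe, mem_product] at hx hx'
    simp only at heq hx hx'
    obtain ⟨-, -, h3, h4, h5⟩ := key t hx.1 b hx.2
    obtain ⟨-, -, h3', h4', h5'⟩ := key t' hx'.1 b' hx'.2
    have htQ : t ⊆ Q := by rw [hA, mem_filter, mem_powerset] at hx; exact hx.1.1
    have htQ' : t' ⊆ Q := by rw [hA, mem_filter, mem_powerset] at hx'; exact hx'.1.1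
    have e1 : t = Q ∩ ((∏ p ∈ t, p) * b).primeFactors := by
      rw [h3, Finset.inter_union_distrib_left, Finset.inter_eq_right.2 htQ,
        Finset.disjoint_iff_inter_eq_empty.1 h5, Finset.union_empty]
    have e2 : t' = Q ∩ ((∏ p ∈ t', p) * b').primeFactors := by
      rw [h3', Finset.inter_union_distrib_left, Finset.inter_eq_right.2 htQ',
        Finset.disjoint_iff_inter_eq_empty.1 h5', Finset.union_empty]
    have e3 : t = t' := by rw [e1, e2, heq]
    subst e3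
    have hpos : 0 < ∏ p ∈ t, p := Finset.prod_pos fun p hp => (hQp p (htQ hp)).pos
    rw [Prod.mk.injEq]
    exact ⟨rfl, Nat.eq_of_mul_eq_mul_left hpos heq⟩
  · rintro ⟨t, b⟩ hx
    rw [mem_product] at hx
    simp only at hx ⊢
    obtain ⟨h1, h2, h3, h4, h5⟩ := key t hx.1 b hx.2
    have htQ : t ⊆ Q := by rw [hA, mem_filter, mem_powerset] at hx; exact hx.1.1
    rw [sg_terms hS h2, h3, Finset.prod_union h4]
    have hb := hx.2
    unfold SF at hb
    rw [mem_filter, mem_Icc] at hb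
    have e1 : ∏ p ∈ t, (2 : ℝ) / ((p : ℝ) - 2) = ∏ p ∈ t, ((E p).card : ℝ) / ((p : ℝ) - (E p).card) := by
      apply Finset.prod_congr rfl
      intro p hp
      rw [(hQ p (htQ hp)).2.2]
      norm_num
    rw [e1]
    have h3le : ∀ p ∈ t ∪ b.primeFactors, (3 : ℝ) ≤ p ∧ ((E p).card : ℝ) ≤ 2 ∧ 1 ≤ ((E p).card : ℝ) := by
      intro p hp
      rw [← h3, Nat.mem_primeFactors] at hp
      have h6 := hp.2.1.trans h2
      have h7 := (prime_dvd_PR hp.1).1 h6
      refine ⟨by exact_mod_cast three_le_of_dvd hS.even hp.1 h6, ?_, ?_⟩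
      · exact_mod_cast hS.le p hp.1 h7.2
      · exact_mod_cast hS.pos p hp.1 h7.2
    apply mul_le_mul_of_nonneg_left
    · have e2 : (1 : ℝ) / b = ∏ p ∈ b.primeFactors, (1 : ℝ) / p := by
        rw [Finset.prod_div_distrib, Finset.prod_const_one]
        congr 1
        conv_lhs => rw [← Nat.prod_primeFactors_of_squarefree hb.2.1]
        push_cast; rfl
      rw [e2]
      apply Finset.prod_le_prod
      · intro p _; positivity
      · intro p hp
        obtain ⟨h6, h7, h8⟩ := h3le p (mem_union_right _ hp)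
        rw [div_le_div_iff₀ (by linarith) (by linarith)]
        nlinarith
    · apply Finset.prod_nonneg
      intro p hp
      obtain ⟨h6, h7, h8⟩ := h3le p (mem_union_left _ hp)
      apply div_nonneg (by linarith) (by linarith)
  · intro l hl
    exact (g_pos (mem_filter.1 hl).1).le

end Pool.Agent.Cov
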