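import Mathlib
import Pool.Agent.Cov.SieveJ

set_option autoImplicit false

namespace Pool.Agent.Cov

open Finset ArithmeticFunction BoundingSieve Pool.Agent.Erdos456.SieveAux

theorem prod_one_sub_ge (y : ℕ) (Q : Finset ℕ) (hQ : ∀ p ∈ Q, 2 ≤ p ∧ p ≤ y) (hy : 1 ≤ y) :
    1 / (y : ℝ) ≤ ∏ p ∈ Q, (1 - 1 / (p : ℝ)) := by
  have h1 : ∏ n ∈ Icc 2 y, (1 - 1 / (n : ℝ)) = 1 / y := by
    induction y, hy using Nat.le_induction with
    | base => simp
    | succ n hn ih =>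
      have hn' : (0 : ℝ) < n := by exact_mod_cast hn
      rw [Finset.prod_Icc_succ_top (by omega)]
      have ih' : ∏ m ∈ Icc 2 n, (1 - 1 / (m : ℝ)) = 1 / n := by
        clear hQ
        clear ih
        induction n, hn using Nat.le_induction with
        | base => simp
        | succ m hm ih2 =>
          have hm' : (0 : ℝ) < m := by exact_mod_cast hm
          rw [Finset.prod_Icc_succ_top (by omega), ih2 hm']
          push_cast
          field_simp
          ring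
      rw [ih']
      push_cast
      field_simp
      ring
  rw [← h1]
  have hsub : Q ⊆ Icc 2 y := by
    intro p hp
    rw [mem_Icc]; exact hQ p hp
  rw [← Finset.prod_sdiff hsub]
  have hb : ∀ n ∈ Icc 2 y, 0 ≤ 1 - 1 / (n : ℝ) ∧ 1 - 1 / (n : ℝ) ≤ 1 := by
    intro n hn
    rw [mem_Icc] at hn
    have h2 : (2 : ℝ) ≤ n := by exact_mod_cast hn.1
    have h3 : 1 / (n : ℝ) ≤ 1 := by rw [div_le_one (by linarith)]; linarith
    have h4 : 0 < 1 / (n : ℝ) := by positivity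
    constructor <;> linarith
  have h2 : ∏ n ∈ Icc 2 y \ Q, (1 - 1 / (n : ℝ)) ≤ 1 :=
    Finset.prod_le_one (fun n hn => (hb n (mem_sdiff.1 hn).1).1) (fun n hn => (hb n (mem_sdiff.1 hn).1).2)
  have h3 : 0 ≤ ∏ p ∈ Q, (1 - 1 / (p : ℝ)) := Finset.prod_nonneg fun n hn => (hb n (hsub hn)).1
  nlinarith

theorem sieve_general : ∃ C : ℝ, 0 < C ∧ ∃ Y₀ : ℕ, ∀ (Y M : ℕ) (E : ℕ → Finset ℕ) (Q : Finset ℕ),
    Y₀ ≤ Y → M ≠ 0 → Sys M E →
    (∀ p ∈ Q, p.Prime ∧ ¬ p ∣ M ∧ (E p).card = 2 ∧ p ^ 512 ≤ Y) →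
    ∀ S : Finset ℕ, S ⊆ Icc 1 Y →
    (∀ l ∈ S, ∀ p : ℕ, p.Prime → p ^ 8 ≤ Y → ¬ p ∣ M → l % p ∉ E p) →
    (S.card : ℝ) ≤ C * ((M : ℝ) / (M.totient : ℝ)) * ((Y : ℝ) / Real.log Y)
      * ∏ p ∈ Q, (1 - 1 / (p : ℝ)) := by
  obtain ⟨C₀, hC₀⟩ := Pool.Agent.Erdos456.Mert.mertens_log
  have hC00 : 0 ≤ C₀ := (abs_nonneg _).trans (hC₀ 1 le_rfl)
  refine ⟨72, by norm_num, max 2 ⌈Real.exp (308 * C₀)⌉₊, ?_⟩
  intro Y M E Q hY hM hS hQ S hSY hSE
  classical
  have hY2 : 2 ≤ Y := (le_max_left _ _).trans hY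
  have hYR : (2 : ℝ) ≤ Y := by exact_mod_cast hY2
  have hY0 : (0 : ℝ) < Y := by linarith
  have hlog : 0 < Real.log Y := Real.log_pos (by linarith)
  have hlogC : 308 * C₀ ≤ Real.log Y := by
    have h1 : Real.exp (308 * C₀) ≤ Y := by
      refine (Nat.le_ceil _).trans ?_
      exact_mod_cast (le_max_right _ _).trans hY
    have := Real.log_le_log (Real.exp_pos _) h1
    rwa [Real.log_exp] at this
  set X := ⌊(Y : ℝ) ^ ((1 : ℝ) / 16)⌋₊ with hX
  have hX1 : 1 ≤ X := by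
    rw [hX, Nat.one_le_floor_iff]
    exact Real.one_le_rpow (by linarith) (by norm_num)
  have hXle : (X : ℝ) ≤ (Y : ℝ) ^ ((1 : ℝ) / 16) := Nat.floor_le (by positivity)
  have hXlt : (Y : ℝ) ^ ((1 : ℝ) / 16) < X + 1 := Nat.lt_floor_add_one _
  have hlogX : Real.log Y / 16 ≤ Real.log (X + 1) := by
    have h1 := Real.log_le_log (by positivity) hXlt.le
    rw [Real.log_rpow hY0] at h1
    linarith
  have hX16 : X ^ 16 ≤ Y := by
    have h1 : (X : ℝ) ^ 16 ≤ (Y : ℝ) := by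
      calc (X : ℝ) ^ 16 ≤ ((Y : ℝ) ^ ((1 : ℝ) / 16)) ^ 16 := by gcongr
        _ = (Y : ℝ) := by rw [← Real.rpow_natCast, ← Real.rpow_mul hY0.le]; norm_num
    exact_mod_cast h1
  set y := ⌊(Y : ℝ) ^ ((1 : ℝ) / 512)⌋₊ with hy
  have hy1 : 1 ≤ y := by
    rw [hy, Nat.one_le_floor_iff]
    exact Real.one_le_rpow (by linarith) (by norm_num)
  have hyle : (y : ℝ) ≤ (Y : ℝ) ^ ((1 : ℝ) / 512) := Nat.floor_le (by positivity)
  have hlogy : Real.log y ≤ Real.log Y / 512 := by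
    have h1 := Real.log_le_log (by exact_mod_cast hy1) hyle
    rw [Real.log_rpow hY0] at h1
    linarith
  have hQy : ∀ p ∈ Q, 3 ≤ p ∧ p ≤ y := by
    intro p hp
    obtain ⟨h1, h2, h3, h4⟩ := hQ p hp
    constructor
    · have h5 := h1.two_le
      rcases h5.lt_or_eq with h6 | h6
      · exact h6
      · subst h6; exact absurd hS.even h2
    · rw [hy]
      apply Nat.le_floor
      have h5 : ((p : ℝ)) ^ 512 ≤ Y := by exact_mod_cast h4
      calc (p : ℝ) = ((p : ℝ) ^ 512) ^ ((1 : ℝ) / 512) := by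
            rw [← Real.rpow_natCast, ← Real.rpow_mul (by positivity)]; norm_num
        _ ≤ _ := by gcongr
  -- the sieve
  have h1 := sieve_E Y X M hX1 E hS S hSY (by
    intro l hl p hp hpX hpM
    apply hSE l hl p hp _ hpM
    calc p ^ 8 ≤ (X ^ 2) ^ 8 := Nat.pow_le_pow_left hpX 8
      _ = X ^ 16 := by ring
      _ ≤ Y := hX16)
  set J := JJ (sg Y (X ^ 2) M E hS) (X ^ 2) with hJ
  have hJpos : 0 < J := JJ_pos _ (Nat.one_le_pow _ _ hX1)
  set V := ∏ p ∈ Q, (1 - 1 / (p : ℝ)) with hV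
  have hVge : 1 / (y : ℝ) ≤ V := prod_one_sub_ge y Q (fun p hp => ⟨by have := (hQy p hp).1; omega, (hQy p hp).2⟩) hy1
  have hy0 : (0 : ℝ) < y := by exact_mod_cast hy1
  have hVpos : 0 < V := lt_of_lt_of_le (by positivity) hVge
  -- Markov
  have hmk := markov Q (fun p hp => by have := (hQy p hp).1; omega) (fun p => (2 : ℝ) / ((p : ℝ) - 2))
    (fun p hp => by
      have : (3 : ℝ) ≤ p := by exact_mod_cast (hQy p hp).1
      exact div_nonneg (by norm_num) (by linarith)) X (by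
      have h2 : ∑ p ∈ Q, (2 : ℝ) / ((p : ℝ) - 2) * Real.log p
          ≤ 6 * ∑ p ∈ (Icc 1 y).filter Nat.Prime, Real.log p / p := by
        rw [Finset.mul_sum]
        have hsub : Q ⊆ (Icc 1 y).filter Nat.Prime := by
          intro p hp
          rw [mem_filter, mem_Icc]
          exact ⟨⟨by have := (hQy p hp).1; omega, (hQy p hp).2⟩, (hQ p hp).1⟩
        refine le_trans ?_ (Finset.sum_le_sum_of_subset_of_nonneg hsub ?_)
        · apply Finset.sum_le_sum
          intro p hp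
          have h3 : (3 : ℝ) ≤ p := by exact_mod_cast (hQy p hp).1
          have h4 : 0 ≤ Real.log p := Real.log_nonneg (by linarith)
          rw [div_mul_eq_mul_div, mul_div_assoc', div_le_div_iff₀ (by linarith) (by linarith)]
          nlinarith
        · intro p hp _
          rw [mem_filter, mem_Icc] at hp
          have : (1 : ℝ) ≤ p := by exact_mod_cast hp.1.1
          have h4 : 0 ≤ Real.log p := Real.log_nonneg (by linarith)
          positivity
      have h3 := (abs_le.1 (hC₀ y hy1)).2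
      have h4 : Real.log Y / 32 ≤ Real.log (X + 1) / 2 := by linarith
      linarith) hX1
  have hJl := JJ_lower Y X M E hS hM Q (fun p hp => ⟨(hQ p hp).1, (hQ p hp).2.1, (hQ p hp).2.2.1⟩)
  rw [← hJ] at hJl
  set N := M * ∏ p ∈ Q, p with hN
  have hQprod : ∏ p ∈ Q, p ≠ 0 := Finset.prod_ne_zero_iff.2 fun p hp => (hQ p hp).1.ne_zero
  have hN0 : N ≠ 0 := Nat.mul_ne_zero hM hQprod
  have hU := U_lower X N hN0
  have hUpos : 0 ≤ U X N := Finset.sum_nonneg fun _ _ => by positivity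
  have hp1 : ∀ p ∈ Q, 0 < 1 - 1 / (p : ℝ) := by
    intro p hp
    have h3 : (3 : ℝ) ≤ p := by exact_mod_cast (hQy p hp).1
    have : 1 / (p : ℝ) < 1 := by rw [div_lt_one (by linarith)]; linarith
    linarith
  have hprod : V⁻¹ ^ 2 ≤ ∏ p ∈ Q, (1 + (2 : ℝ) / ((p : ℝ) - 2)) := by
    rw [hV, ← Finset.prod_inv_distrib, ← Finset.prod_pow]
    apply Finset.prod_le_prod
    · intro p _; positivity
    · intro p hp
      have h3 : (3 : ℝ) ≤ p := by exact_mod_cast (hQy p hp).1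
      have e1 : (1 - 1 / (p : ℝ))⁻¹ = p / (p - 1) := by
        have : (p : ℝ) - 1 ≠ 0 := by linarith
        have : (p : ℝ) ≠ 0 := by linarith
        field_simp
      have e2 : 1 + (2 : ℝ) / ((p : ℝ) - 2) = p / (p - 2) := by
        have : (p : ℝ) - 2 ≠ 0 := by linarith
        field_simp
        ring
      rw [e1, e2, div_pow, div_le_div_iff₀ (by nlinarith) (by linarith)]
      nlinarith
  have htotN : (N : ℝ) / (N.totient : ℝ) = (M : ℝ) / (M.totient : ℝ) * V⁻¹ := by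
    have hcop : Nat.Coprime M (∏ p ∈ Q, p) := by
      rw [Nat.coprime_prod_right_iff]
      intro p hp
      rw [Nat.coprime_comm, Nat.Prime.coprime_iff_not_dvd (hQ p hp).1]
      exact (hQ p hp).2.1
    have htot : ((∏ p ∈ Q, p).totient : ℝ) = (∏ p ∈ Q, (p : ℝ)) * V := by
      have h2 := Nat.totient_eq_mul_prod_factors (∏ p ∈ Q, p)
      have h3 := congrArg (fun q : ℚ => (q : ℝ)) h2
      push_cast at h3
      rw [h3, Nat.primeFactors_prod fun p hp => (hQ p hp).1, hV]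
      congr 1
      apply Finset.prod_congr rfl
      intro p _
      rw [one_div]
    rw [hN, Nat.totient_mul hcop]
    push_cast
    rw [htot]
    have hPne : (∏ p ∈ Q, (p : ℝ)) ≠ 0 := by
      have : ((∏ p ∈ Q, p : ℕ) : ℝ) ≠ 0 := by exact_mod_cast hQprod
      push_cast at this
      exact this
    have hMt : (M.totient : ℝ) ≠ 0 := by
      have := Nat.totient_pos.2 (Nat.pos_of_ne_zero hM)
      exact_mod_cast this.ne'
    field_simp
  rw [htotN] at hU
  set G := (M : ℝ) / (M.totient : ℝ) with hG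
  have hG1 : 1 ≤ G := by
    have htot : (0 : ℝ) < M.totient := by exact_mod_cast Nat.totient_pos.2 (Nat.pos_of_ne_zero hM)
    rw [hG, one_le_div htot]
    exact_mod_cast Nat.totient_le M
  set A := ∑ t ∈ Q.powerset.filter (fun t => ∏ p ∈ t, p ≤ X), ∏ p ∈ t, (2 : ℝ) / ((p : ℝ) - 2) with hA
  have hA1 : V⁻¹ ^ 2 ≤ 2 * A := hprod.trans hmk
  have hJ2 : Real.log Y ≤ 64 * G * V * J := by
    have h2 : Real.log Y ≤ 32 * G * V⁻¹ * U X N := by
      have : Real.log Y / 16 ≤ 2 * (G * V⁻¹) * U X N := hlogX.trans hU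
      linarith
    have h3 : V⁻¹ ^ 2 * U X N ≤ 2 * J := by
      calc V⁻¹ ^ 2 * U X N ≤ 2 * A * U X N := by gcongr
        _ = 2 * (A * U X N) := by ring
        _ ≤ 2 * J := by linarith
    have h4 : V⁻¹ * U X N = V * (V⁻¹ ^ 2 * U X N) := by field_simp
    calc Real.log Y ≤ 32 * G * V⁻¹ * U X N := h2
      _ = 32 * G * (V * (V⁻¹ ^ 2 * U X N)) := by rw [← h4]; ring
      _ ≤ 32 * G * (V * (2 * J)) := by gcongr
      _ = _ := by ring
  have hmain : (Y : ℝ) / J ≤ 64 * G * ((Y : ℝ) / Real.log Y) * V := by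
    rw [div_le_iff₀ hJpos]
    have e : 64 * G * ((Y : ℝ) / Real.log Y) * V * J = (Y / Real.log Y) * (64 * G * V * J) := by ring
    rw [e]
    calc (Y : ℝ) = (Y / Real.log Y) * Real.log Y := by field_simp
      _ ≤ _ := by gcongr
  have herr : (X : ℝ) ^ 12 ≤ 8 * G * ((Y : ℝ) / Real.log Y) * V := by
    have e1 : (X : ℝ) ^ 12 ≤ (Y : ℝ) ^ ((3 : ℝ) / 4) := by
      calc (X : ℝ) ^ 12 ≤ ((Y : ℝ) ^ ((1 : ℝ) / 16)) ^ 12 := by gcongr
        _ = _ := by rw [← Real.rpow_natCast, ← Real.rpow_mul hY0.le]; norm_num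
    have e2 : Real.log Y ≤ 8 * (Y : ℝ) ^ ((1 : ℝ) / 8) := by
      have := Real.log_le_rpow_div hY0.le (ε := 1 / 8) (by norm_num)
      linarith
    have e3 : (Y : ℝ) ^ (-((1 : ℝ) / 512)) ≤ V := by
      refine le_trans ?_ hVge
      rw [Real.rpow_neg hY0.le, ← one_div]
      exact one_div_le_one_div_of_le hy0 hyle
    have e4 : (X : ℝ) ^ 12 * Real.log Y ≤ 8 * Y * V := by
      calc (X : ℝ) ^ 12 * Real.log Y ≤ (Y : ℝ) ^ ((3 : ℝ) / 4) * (8 * (Y : ℝ) ^ ((1 : ℝ) / 8)) := by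
            gcongr
        _ = 8 * ((Y : ℝ) ^ ((3 : ℝ) / 4) * (Y : ℝ) ^ ((1 : ℝ) / 8)) := by ring
        _ = 8 * (Y : ℝ) ^ ((7 : ℝ) / 8) := by rw [← Real.rpow_add hY0]; norm_num
        _ ≤ 8 * (Y : ℝ) ^ ((1 : ℝ) + -((1 : ℝ) / 512)) := by
            gcongr
            · linarith
            · norm_num
        _ = 8 * (Y * (Y : ℝ) ^ (-((1 : ℝ) / 512))) := by rw [Real.rpow_add hY0, Real.rpow_one]
        _ ≤ 8 * (Y * V) := by gcongr
        _ = 8 * Y * V := by ring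
    have e5 : (X : ℝ) ^ 12 ≤ 8 * Y * V / Real.log Y := by
      rw [le_div_iff₀ hlog]; exact e4
    refine e5.trans ?_
    have e6 : 8 * G * ((Y : ℝ) / Real.log Y) * V = G * (8 * Y * V / Real.log Y) := by ring
    rw [e6]
    have : 0 ≤ 8 * Y * V / Real.log Y := by positivity
    nlinarith
  calc (S.card : ℝ) ≤ (Y : ℝ) / J + (X : ℝ) ^ 12 := h1
    _ ≤ 64 * G * ((Y : ℝ) / Real.log Y) * V + 8 * G * ((Y : ℝ) / Real.log Y) * V := by linarith
    _ = 72 * G * ((Y : ℝ) / Real.log Y) * V := by ring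

end Pool.Agent.Cov
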