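import Mathlib
import Pool.Agent.Cov.SieveF

set_option autoImplicit false

namespace Pool.Agent.Cov

open Finset

theorem exists_class {p u v w : ℕ} (hp : p.Prime) (hu : ¬ p ∣ u) :
    ∃ c : ℕ, c < p ∧ ∀ x : ℕ, (u * x + v ≡ w [MOD p]) ↔ x % p = c := by
  have : Fact p.Prime := ⟨hp⟩
  have hu0 : (u : ZMod p) ≠ 0 := by
    rwa [Ne, ZMod.natCast_eq_zero_iff]
  refine ⟨(((w : ZMod p) - v) / u).val, ZMod.val_lt _, fun x => ?_⟩
  rw [← ZMod.natCast_eq_natCast_iff]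
  have h1 : (x % p = (((w : ZMod p) - v) / u).val) ↔ (x : ZMod p) = ((w : ZMod p) - v) / u := by
    constructor
    · intro h
      have h2 : ((x % p : ℕ) : ZMod p) = (((((w : ZMod p) - v) / u).val : ℕ) : ZMod p) := by rw [h]
      rwa [ZMod.natCast_mod, ZMod.natCast_zmod_val] at h2
    · intro h
      rw [← h, ZMod.val_natCast]
  rw [h1]
  push_cast
  constructor
  · intro h
    rw [eq_div_iff hu0, ← h]
    ring
  · intro h
    rw [h]
    field_simp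
    ring

theorem filter_mod_eq {p c : ℕ} (hc : c < p) : (range p).filter (fun x => x % p = c) = {c} := by
  ext x
  rw [mem_filter, mem_range, mem_singleton]
  constructor
  · rintro ⟨h1, h2⟩
    rwa [Nat.mod_eq_of_lt h1] at h2
  · rintro rfl
    exact ⟨hc, Nat.mod_eq_of_lt hc⟩

/-- residue sets for the linear form `W l + b` -/
def EE (W b e : ℕ) (a : ℕ → ℕ) (Q : Finset ℕ) (p : ℕ) : Finset ℕ :=
  (range p).filter (fun x => (W * x + b ≡ 0 [MOD p]) ∨ (p ∈ Q ∧ e * (W * x + b) ≡ a p [MOD p]))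

theorem EE_notMem {W b e : ℕ} {a : ℕ → ℕ} {Q : Finset ℕ} {p : ℕ} (hp : p.Prime) (hW : ¬ p ∣ W)
    (hpQ : p ∉ Q) : (EE W b e a Q p).card = 1 := by
  obtain ⟨c, hc, h⟩ := exists_class (v := b) (w := 0) hp hW
  have : EE W b e a Q p = {c} := by
    rw [← filter_mod_eq hc]
    unfold EE
    apply Finset.filter_congr
    intro x _
    rw [h]
    simp [hpQ]
  rw [this, Finset.card_singleton]

theorem EE_mem {W b e : ℕ} {a : ℕ → ℕ} {Q : Finset ℕ} {p : ℕ} (hp : p.Prime) (hW : ¬ p ∣ W)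
    (he : ¬ p ∣ e) (ha : ¬ p ∣ a p) (hpQ : p ∈ Q) : (EE W b e a Q p).card = 2 := by
  obtain ⟨c, hc, h⟩ := exists_class (v := b) (w := 0) hp hW
  have heW : ¬ p ∣ e * W := by
    rw [hp.dvd_mul]; tauto
  obtain ⟨c', hc', h'⟩ := exists_class (v := e * b) (w := a p) hp heW
  have hne : c ≠ c' := by
    rintro rfl
    have h1 : W * c + b ≡ 0 [MOD p] := (h c).2 (Nat.mod_eq_of_lt hc)
    have h2 : e * W * c + e * b ≡ a p [MOD p] := (h' c).2 (Nat.mod_eq_of_lt hc)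
    have h3 : e * (W * c + b) ≡ e * 0 [MOD p] := h1.mul_left e
    have h4 : e * (W * c + b) = e * W * c + e * b := by ring
    rw [h4, mul_zero] at h3
    exact ha ((Nat.modEq_zero_iff_dvd).1 (h2.symm.trans h3))
  have : EE W b e a Q p = {c, c'} := by
    ext x
    unfold EE
    rw [mem_filter, mem_range, mem_insert, mem_singleton]
    constructor
    · rintro ⟨h1, h2 | h2⟩
      · left
        rw [h, Nat.mod_eq_of_lt h1] at h2
        exact h2
      · right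
        have h3 := h2.2
        rw [show e * (W * x + b) = e * W * x + e * b by ring, h', Nat.mod_eq_of_lt h1] at h3
        exact h3
    · rintro (rfl | rfl)
      · exact ⟨hc, Or.inl ((h x).2 (Nat.mod_eq_of_lt hc))⟩
      · refine ⟨hc', Or.inr ⟨hpQ, ?_⟩⟩
        rw [show e * (W * x + b) = e * W * x + e * b by ring, h']
        exact Nat.mod_eq_of_lt hc'
  rw [this, Finset.card_pair hne]

theorem sieve_linear : ∃ C : ℝ, 0 < C ∧ ∃ Y₀ : ℕ, ∀ (W b e Y : ℕ) (a : ℕ → ℕ) (Q : Finset ℕ),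
    Y₀ ≤ Y → W ≠ 0 →
    (∀ r ∈ Q, r.Prime ∧ 3 ≤ r ∧ ¬ r ∣ W ∧ ¬ r ∣ e ∧ ¬ r ∣ a r ∧ r ^ 512 ≤ Y) →
    ∀ S : Finset ℕ, S ⊆ Icc 1 Y →
    (∀ l ∈ S, (W * l + b).Prime ∧ ∀ r ∈ Q, ¬ (e * (W * l + b) ≡ a r [MOD r])) →
    (S.card : ℝ) ≤ C * ((W : ℝ) / (W.totient : ℝ)) * ((Y : ℝ) / Real.log Y)
      * ∏ r ∈ Q, (1 - 1 / (r : ℝ)) := by
  obtain ⟨C, hC, Y₀, h⟩ := sieve_general
  refine ⟨2 * C + 8, by positivity, max 2 Y₀, ?_⟩
  intro W b e Y a Q hY hW hQ S hSY hS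
  classical
  have hY2 : 2 ≤ Y := (le_max_left _ _).trans hY
  have hYR : (2 : ℝ) ≤ Y := by exact_mod_cast hY2
  have hY0 : (0 : ℝ) < Y := by linarith
  have hlog : 0 < Real.log Y := Real.log_pos (by linarith)
  have hM0 : 2 * W ≠ 0 := by omega
  have hpW : ∀ p : ℕ, ¬ p ∣ 2 * W → ¬ p ∣ W := fun p h1 h2 => h1 (h2.mul_left 2)
  have hcard1 : ∀ p : ℕ, p.Prime → ¬ p ∣ 2 * W → p ∉ Q → (EE W b e a Q p).card = 1 :=
    fun p hp h1 h2 => EE_notMem hp (hpW p h1) h2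
  have hcard2 : ∀ p : ℕ, p ∈ Q → (EE W b e a Q p).card = 2 := by
    intro p hp
    obtain ⟨h1, h2, h3, h4, h5, h6⟩ := hQ p hp
    exact EE_mem h1 h3 h4 h5 hp
  have hSys : Sys (2 * W) (EE W b e a Q) := by
    refine ⟨dvd_mul_right _ _, fun p _ _ => Finset.filter_subset _ _, ?_, ?_⟩
    · intro p hp h1
      by_cases h2 : p ∈ Q
      · rw [hcard2 p h2]; norm_num
      · rw [hcard1 p hp h1 h2]
    · intro p hp h1
      by_cases h2 : p ∈ Q
      · rw [hcard2 p h2]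
      · rw [hcard1 p hp h1 h2]; norm_num
  have hmain := h Y (2 * W) (EE W b e a Q) Q ((le_max_right _ _).trans hY) hM0 hSys (by
    intro p hp
    obtain ⟨h1, h2, h3, h4, h5, h6⟩ := hQ p hp
    refine ⟨h1, ?_, hcard2 p hp, h6⟩
    rw [h1.dvd_mul]
    rintro (h7 | h7)
    · have := Nat.le_of_dvd (by norm_num) h7
      omega
    · exact h3 h7) (S.filter (fun l => Y < l ^ 8)) ((Finset.filter_subset _ _).trans hSY) (by
    intro l hl p hp hpY hpM hmem
    rw [mem_filter] at hl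
    obtain ⟨hlS, hlY⟩ := hl
    obtain ⟨h1, h2⟩ := hS l hlS
    unfold EE at hmem
    rw [mem_filter] at hmem
    have hmod : W * (l % p) + b ≡ W * l + b [MOD p] := ((Nat.mod_modEq l p).mul_left W).add_right b
    rcases hmem.2 with h3 | h3
    · have h4 : p ∣ W * l + b := (Nat.modEq_zero_iff_dvd).1 (hmod.symm.trans h3)
      have h5 := (Nat.prime_dvd_prime_iff_eq hp h1).1 h4
      have h6 : l ≤ p := by
        have : l ≤ W * l := Nat.le_mul_of_pos_left l (Nat.pos_of_ne_zero hW)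
        omega
      have h7 := Nat.pow_le_pow_left h6 8
      omega
    · exact h2 p h3.1 ((hmod.symm.mul_left e).trans h3.2))
  -- small elements
  have hsmall : ((S.filter (fun l => ¬ Y < l ^ 8)).card : ℝ) ≤ (Y : ℝ) ^ ((1 : ℝ) / 8) := by
    have h1 : S.filter (fun l => ¬ Y < l ^ 8) ⊆ Icc 1 ⌊(Y : ℝ) ^ ((1 : ℝ) / 8)⌋₊ := by
      intro l hl
      rw [mem_filter, not_lt] at hl
      have h2 := hSY hl.1
      rw [mem_Icc] at h2 ⊢
      refine ⟨h2.1, ?_⟩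
      apply Nat.le_floor
      have h5 : ((l : ℝ)) ^ 8 ≤ Y := by exact_mod_cast hl.2
      calc (l : ℝ) = ((l : ℝ) ^ 8) ^ ((1 : ℝ) / 8) := by
            rw [← Real.rpow_natCast, ← Real.rpow_mul (by positivity)]; norm_num
        _ ≤ _ := by gcongr
    have h2 := Finset.card_le_card h1
    rw [Nat.card_Icc, Nat.add_sub_cancel] at h2
    calc _ ≤ ((⌊(Y : ℝ) ^ ((1 : ℝ) / 8)⌋₊ : ℕ) : ℝ) := by exact_mod_cast h2
      _ ≤ _ := Nat.floor_le (by positivity)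
  set V := ∏ p ∈ Q, (1 - 1 / (p : ℝ)) with hV
  set y := ⌊(Y : ℝ) ^ ((1 : ℝ) / 512)⌋₊ with hy
  have hy1 : 1 ≤ y := by
    rw [hy, Nat.one_le_floor_iff]
    exact Real.one_le_rpow (by linarith) (by norm_num)
  have hy0 : (0 : ℝ) < y := by exact_mod_cast hy1
  have hyle : (y : ℝ) ≤ (Y : ℝ) ^ ((1 : ℝ) / 512) := Nat.floor_le (by positivity)
  have hVge : 1 / (y : ℝ) ≤ V := by
    apply prod_one_sub_ge y Q _ hy1
    intro p hp
    obtain ⟨h1, h2, h3, h4, h5, h6⟩ := hQ p hp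
    refine ⟨by omega, ?_⟩
    rw [hy]
    apply Nat.le_floor
    have h5 : ((p : ℝ)) ^ 512 ≤ Y := by exact_mod_cast h6
    calc (p : ℝ) = ((p : ℝ) ^ 512) ^ ((1 : ℝ) / 512) := by
          rw [← Real.rpow_natCast, ← Real.rpow_mul (by positivity)]; norm_num
      _ ≤ _ := by gcongr
  have hVpos : 0 < V := lt_of_lt_of_le (by positivity) hVge
  have e3 : (Y : ℝ) ^ (-((1 : ℝ) / 512)) ≤ V := by
    refine le_trans ?_ hVge
    rw [Real.rpow_neg hY0.le, ← one_div]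
    exact one_div_le_one_div_of_le hy0 hyle
  have e2 : Real.log Y ≤ 8 * (Y : ℝ) ^ ((1 : ℝ) / 8) := by
    have := Real.log_le_rpow_div hY0.le (ε := 1 / 8) (by norm_num)
    linarith
  have herr : (Y : ℝ) ^ ((1 : ℝ) / 8) ≤ 8 * ((Y : ℝ) / Real.log Y) * V := by
    have e4 : (Y : ℝ) ^ ((1 : ℝ) / 8) * Real.log Y ≤ 8 * Y * V := by
      calc (Y : ℝ) ^ ((1 : ℝ) / 8) * Real.log Y
          ≤ (Y : ℝ) ^ ((1 : ℝ) / 8) * (8 * (Y : ℝ) ^ ((1 : ℝ) / 8)) := by gcongr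
        _ = 8 * ((Y : ℝ) ^ ((1 : ℝ) / 8) * (Y : ℝ) ^ ((1 : ℝ) / 8)) := by ring
        _ = 8 * (Y : ℝ) ^ ((1 : ℝ) / 4) := by rw [← Real.rpow_add hY0]; norm_num
        _ ≤ 8 * (Y : ℝ) ^ ((1 : ℝ) + -((1 : ℝ) / 512)) := by
            gcongr
            · linarith
            · norm_num
        _ = 8 * (Y * (Y : ℝ) ^ (-((1 : ℝ) / 512))) := by rw [Real.rpow_add hY0, Real.rpow_one]
        _ ≤ 8 * (Y * V) := by gcongr
        _ = 8 * Y * V := by ring
    have e5 : (Y : ℝ) ^ ((1 : ℝ) / 8) ≤ 8 * Y * V / Real.log Y := by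
      rw [le_div_iff₀ hlog]; exact e4
    refine e5.trans (le_of_eq ?_)
    ring
  set G := (W : ℝ) / (W.totient : ℝ) with hG
  have htot : (0 : ℝ) < W.totient := by exact_mod_cast Nat.totient_pos.2 (Nat.pos_of_ne_zero hW)
  have hG1 : 1 ≤ G := by
    rw [hG, one_le_div htot]
    exact_mod_cast Nat.totient_le W
  have hMG : ((2 * W : ℕ) : ℝ) / ((2 * W).totient : ℝ) ≤ 2 * G := by
    rw [hG, ← mul_div_assoc]
    push_cast
    apply div_le_div_of_nonneg_left (by positivity) htot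
    have : Nat.totient W ≤ Nat.totient (2 * W) :=
      Nat.le_of_dvd (Nat.totient_pos.2 (by omega)) (Nat.totient_dvd_of_dvd (dvd_mul_left _ _))
    exact_mod_cast this
  have hYl : 0 < (Y : ℝ) / Real.log Y := by positivity
  have hsplit : (S.card : ℝ) = ((S.filter (fun l => Y < l ^ 8)).card : ℝ)
      + ((S.filter (fun l => ¬ Y < l ^ 8)).card : ℝ) := by
    have := Finset.card_filter_add_card_filter_not (s := S) (fun l => Y < l ^ 8)
    rw [← this]; push_cast; rfl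
  rw [hsplit]
  calc _ ≤ C * (((2 * W : ℕ) : ℝ) / ((2 * W).totient : ℝ)) * ((Y : ℝ) / Real.log Y) * V
        + 8 * ((Y : ℝ) / Real.log Y) * V := by linarith
    _ ≤ C * (2 * G) * ((Y : ℝ) / Real.log Y) * V + 8 * G * ((Y : ℝ) / Real.log Y) * V := by
        gcongr
        linarith
    _ = (2 * C + 8) * G * ((Y : ℝ) / Real.log Y) * V := by ring

end Pool.Agent.Cov
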