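import Mathlib
import Pool.Agent.Cov.Defs
import Pool.Agent.Cov.SieveLin

set_option autoImplicit false

namespace Pool.Agent.Cov

open Finset

theorem mem_DD {P x r : ℕ} : r ∈ DD P x ↔ r.Prime ∧ r % P = 1 ∧ r ≤ x := by
  unfold DD
  rw [mem_filter, mem_Icc]
  constructor
  · rintro ⟨⟨_, h2⟩, h3, h4⟩; exact ⟨h3, h4, h2⟩
  · rintro ⟨h1, h2, h3⟩; exact ⟨⟨h1.one_lt.le, h3⟩, h1, h2⟩

theorem lt_of_mod_one {P r : ℕ} (hr : r.Prime) (h : r % P = 1) : P < r := by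
  by_contra hc
  rw [not_lt] at hc
  rcases hc.lt_or_eq with h1 | h1
  · rw [Nat.mod_eq_of_lt h1] at h
    exact hr.one_lt.ne' h
  · subst h1
    rw [Nat.mod_self] at h
    omega

theorem one_sub_pos' {r : ℕ} (hr : r.Prime) : 0 < 1 - 1 / (r : ℝ) ∧ 1 - 1 / (r : ℝ) ≤ 1 := by
  have h3 : (2 : ℝ) ≤ r := by exact_mod_cast hr.two_le
  have : 1 / (r : ℝ) < 1 := by rw [div_lt_one (by linarith)]; linarith
  have h4 : 0 < 1 / (r : ℝ) := by positivity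
  constructor <;> linarith

theorem HH_inv (P x : ℕ) : ∏ r ∈ DD P x, (1 - 1 / (r : ℝ)) = (HH P x)⁻¹ := by
  unfold HH
  rw [Finset.prod_inv_distrib, inv_inv]

theorem HH_pos (P x : ℕ) : 0 < HH P x :=
  Finset.prod_pos fun r hr => inv_pos.2 (one_sub_pos' (mem_DD.1 hr).1).1

theorem HH_mono (P : ℕ) {x y : ℕ} (h : x ≤ y) : HH P x ≤ HH P y := by
  have hsub : DD P x ⊆ DD P y := by
    intro r hr
    rw [mem_DD] at hr ⊢
    exact ⟨hr.1, hr.2.1, hr.2.2.trans h⟩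
  unfold HH
  rw [← Finset.prod_sdiff hsub]
  have h1 : 1 ≤ ∏ r ∈ DD P y \ DD P x, (1 - 1 / (r : ℝ))⁻¹ := by
    have h0 : (1 : ℝ) = ∏ _r ∈ DD P y \ DD P x, (1 : ℝ) := by simp
    refine h0.le.trans ?_
    apply Finset.prod_le_prod
    · intro p _; norm_num
    · intro p hp
      have h2 := one_sub_pos' (mem_DD.1 (mem_sdiff.1 hp).1).1
      exact (one_le_inv₀ h2.1).2 h2.2
  have h2 : 0 < ∏ r ∈ DD P x, (1 - 1 / (r : ℝ))⁻¹ := HH_pos P x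
  nlinarith

theorem HH_ge_one (P x : ℕ) : 1 ≤ HH P x := by
  have h := HH_mono P (Nat.zero_le x)
  have : HH P 0 = 1 := by unfold HH DD; simp
  rw [this] at h
  exact h

/-- conditions on the residues used -/
structure GoodA (P : ℕ) (a : ℕ → ℕ) : Prop where
  d : ∀ q : ℕ, q.Prime → q % P = 1 → a q ≠ 0 ∧ a q < q

theorem GoodA.ndvd {P : ℕ} {a : ℕ → ℕ} (h : GoodA P a) {r : ℕ} (hr : r.Prime) (h1 : r % P = 1) :
    ¬ r ∣ a r := by
  intro h2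
  have h3 := h.d r hr h1
  exact absurd (Nat.le_of_dvd (Nat.pos_of_ne_zero h3.1) h2) (by omega)

theorem pow512_le {P i Y r : ℕ} (hr : r ∈ DD P (2 ^ (i / 512))) (hY : 2 ^ i ≤ Y) : r ^ 512 ≤ Y := by
  rw [mem_DD] at hr
  calc r ^ 512 ≤ (2 ^ (i / 512)) ^ 512 := Nat.pow_le_pow_left hr.2.2 _
    _ = 2 ^ ((i / 512) * 512) := by rw [← pow_mul]
    _ ≤ 2 ^ i := Nat.pow_le_pow_right (by norm_num) (Nat.div_mul_le_self _ _)
    _ ≤ Y := hY

theorem T1_bound : ∃ C : ℝ, 0 < C ∧ ∃ I₀ : ℕ, ∀ (P I : ℕ) (a : ℕ → ℕ), 2 ≤ P → GoodA P a → I₀ ≤ I →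
    ∀ S : Finset ℕ, (∀ n ∈ S, n.Prime ∧ n < 2 ^ (I + 1) ∧ ∀ r ∈ DD P (2 ^ ((I + 1) / 512)), n % r ≠ a r) →
    (S.card : ℝ) ≤ C * (2 ^ I / I) / HH P (2 ^ ((I + 1) / 512)) := by
  obtain ⟨C, hC, Y₀, h⟩ := sieve_linear
  refine ⟨3 * C, by positivity, max 1 Y₀, ?_⟩
  intro P I a hP ha hI S hS
  have hI1 : 1 ≤ I := (le_max_left _ _).trans hI
  have hIY : Y₀ ≤ 2 ^ (I + 1) := by
    calc Y₀ ≤ I := (le_max_right _ _).trans hI
      _ ≤ I + 1 := by omega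
      _ ≤ 2 ^ (I + 1) := Nat.lt_two_pow_self.le
  have h1 := h 1 0 1 (2 ^ (I + 1)) a (DD P (2 ^ ((I + 1) / 512))) hIY one_ne_zero (by
    intro r hr
    have hr' := mem_DD.1 hr
    have hlt := lt_of_mod_one hr'.1 hr'.2.1
    refine ⟨hr'.1, by omega, ?_, ?_, ha.ndvd hr'.1 hr'.2.1, pow512_le hr le_rfl⟩
    · exact hr'.1.one_lt.ne' ∘ Nat.dvd_one.1
    · exact hr'.1.one_lt.ne' ∘ Nat.dvd_one.1) S (by
    intro n hn
    rw [mem_Icc]
    exact ⟨(hS n hn).1.one_lt.le, (hS n hn).2.1.le⟩) (by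
    intro n hn
    obtain ⟨h2, h3, h4⟩ := hS n hn
    refine ⟨by simpa using h2, ?_⟩
    intro r hr h5
    have hr' := mem_DD.1 hr
    apply h4 r hr
    simp only [one_mul, add_zero] at h5
    unfold Nat.ModEq at h5
    rw [h5, Nat.mod_eq_of_lt (ha.d r hr'.1 hr'.2.1).2])
  rw [HH_inv] at h1
  simp only [Nat.cast_one, Nat.totient_one, div_one, mul_one] at h1
  refine h1.trans ?_
  have hIr : (1 : ℝ) ≤ I := by exact_mod_cast hI1
  have hl2 := Real.log_two_gt_d9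
  have e1 : ((2 ^ (I + 1) : ℕ) : ℝ) / Real.log ((2 ^ (I + 1) : ℕ) : ℝ) ≤ 3 * (2 ^ I / I) := by
    push_cast
    rw [Real.log_pow, div_le_iff₀ (by positivity)]
    push_cast
    have e2 : 3 * ((2 : ℝ) ^ I / I) * ((I + 1) * Real.log 2) = 2 ^ I * (3 * Real.log 2 * ((I + 1) / I)) := by
      field_simp
    rw [e2, pow_succ]
    apply mul_le_mul_of_nonneg_left _ (by positivity)
    have e3 : 1 ≤ ((I : ℝ) + 1) / I := by rw [le_div_iff₀ (by linarith)]; linarith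
    nlinarith
  have hH := HH_pos P (2 ^ ((I + 1) / 512))
  rw [← div_eq_mul_inv]
  apply div_le_div_of_nonneg_right _ hH.le
  calc C * (((2 ^ (I + 1) : ℕ) : ℝ) / Real.log ((2 ^ (I + 1) : ℕ) : ℝ)) ≤ C * (3 * (2 ^ I / I)) := by
        gcongr
    _ = _ := by ring

end Pool.Agent.Cov
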