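import Mathlib
import Pool.Agent.Cov.T1

set_option autoImplicit false

namespace Pool.Agent.Cov

open Finset

theorem totient_prod (A : ℕ) (hA : 1 ≤ A) :
    ∏ p ∈ A.primeFactors, (1 - 1 / (p : ℝ)) = (A.totient : ℝ) / A := by
  have h2 := Nat.totient_eq_mul_prod_factors A
  have h3 : (Nat.totient A : ℝ) = A * ∏ p ∈ A.primeFactors, (1 - (p : ℝ)⁻¹) := by
    have := congrArg (fun q : ℚ => (q : ℝ)) h2
    push_cast at this
    exact this
  have hA' : (A : ℝ) ≠ 0 := by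
    have : (1 : ℝ) ≤ A := by exact_mod_cast hA
    linarith
  rw [h3, mul_div_assoc, mul_comm, div_mul_cancel₀ _ hA']
  apply Finset.prod_congr rfl
  intro p _
  rw [one_div]

theorem prod_filter_le (P y A : ℕ) (hA : 1 ≤ A) :
    ∏ r ∈ (DD P y).filter (fun r => ¬ r ∣ A), (1 - 1 / (r : ℝ))
      ≤ (HH P y)⁻¹ * ((A : ℝ) / (A.totient : ℝ)) := by
  have htot : (0 : ℝ) < A.totient := by exact_mod_cast Nat.totient_pos.2 hA
  have hA0 : (0 : ℝ) < A := by exact_mod_cast hA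
  have h1 : (∏ r ∈ (DD P y).filter (fun r => r ∣ A), (1 - 1 / (r : ℝ)))
      * ∏ r ∈ (DD P y).filter (fun r => ¬ r ∣ A), (1 - 1 / (r : ℝ)) = (HH P y)⁻¹ := by
    rw [Finset.prod_filter_mul_prod_filter_not, HH_inv]
  have h2 : (A.totient : ℝ) / A ≤ ∏ r ∈ (DD P y).filter (fun r => r ∣ A), (1 - 1 / (r : ℝ)) := by
    rw [← totient_prod A hA]
    have hsub : (DD P y).filter (fun r => r ∣ A) ⊆ A.primeFactors := by
      intro r hr
      rw [mem_filter, mem_DD] at hr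
      rw [Nat.mem_primeFactors]
      exact ⟨hr.1.1, hr.2, by omega⟩
    rw [← Finset.prod_sdiff hsub]
    have h3 : ∏ p ∈ A.primeFactors \ (DD P y).filter (fun r => r ∣ A), (1 - 1 / (p : ℝ)) ≤ 1 := by
      apply Finset.prod_le_one
      · intro p hp
        exact (one_sub_pos' (Nat.prime_of_mem_primeFactors (mem_sdiff.1 hp).1)).1.le
      · intro p hp
        exact (one_sub_pos' (Nat.prime_of_mem_primeFactors (mem_sdiff.1 hp).1)).2
    have h4 : 0 ≤ ∏ r ∈ (DD P y).filter (fun r => r ∣ A), (1 - 1 / (r : ℝ)) :=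
      Finset.prod_nonneg fun r hr => (one_sub_pos' (mem_DD.1 (mem_filter.1 hr).1).1).1.le
    nlinarith
  have h3 : 0 ≤ ∏ r ∈ (DD P y).filter (fun r => ¬ r ∣ A), (1 - 1 / (r : ℝ)) :=
    Finset.prod_nonneg fun r hr => (one_sub_pos' (mem_DD.1 (mem_filter.1 hr).1).1).1.le
  set V := ∏ r ∈ (DD P y).filter (fun r => ¬ r ∣ A), (1 - 1 / (r : ℝ)) with hV
  have h4 : (A.totient : ℝ) / A * V ≤ (HH P y)⁻¹ := by
    rw [← h1]
    exact mul_le_mul_of_nonneg_right h2 h3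
  calc V = ((A.totient : ℝ) / A * V) * ((A : ℝ) / (A.totient : ℝ)) := by field_simp
    _ ≤ _ := by gcongr

theorem T2_perA : ∃ C : ℝ, 0 < C ∧ ∀ P : ℕ, P.Prime → 3 ≤ P → ∃ i₁ : ℕ, ∀ (z A e : ℕ) (a : ℕ → ℕ),
    GoodA P a → 1 ≤ A → (∀ r : ℕ, r.Prime → r % P = 1 → r ∣ e → r ∣ A) →
    i₁ ≤ Nat.log 2 (z / P / A) →
    ∀ T : Finset ℕ, (∀ q ∈ T, q.Prime ∧ q % P = 1 ∧ A * q ≤ z ∧
      ∀ r ∈ DD P (2 ^ (Nat.log 2 (z / P / A) / 512)), (e * q) % r ≠ a r) →
    ∑ q ∈ T, Real.log q ≤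
      C * ((z : ℝ) / P) * (1 / (A.totient : ℝ)) / HH P (2 ^ (Nat.log 2 (z / P / A) / 512)) := by
  obtain ⟨C, hC, Y₀, h⟩ := sieve_linear
  refine ⟨4 * C, by positivity, ?_⟩
  intro P hP hP3
  refine ⟨max 1 (max Y₀ (2 * P)), ?_⟩
  intro z A e a ha hA he hi T hT
  set Y := z / P / A with hY
  have hY0 : Y ≠ 0 := by
    intro h0
    rw [h0] at hi
    simp at hi
  have hYpow : 2 ^ (Nat.log 2 Y) ≤ Y := Nat.pow_log_le_self 2 hY0
  have hYi : max 1 (max Y₀ (2 * P)) ≤ Y := by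
    calc max 1 (max Y₀ (2 * P)) ≤ Nat.log 2 Y := hi
      _ ≤ 2 ^ Nat.log 2 Y := Nat.lt_two_pow_self.le
      _ ≤ Y := hYpow
  have hYY : Y₀ ≤ Y := (le_max_left _ _).trans ((le_max_right _ _).trans hYi)
  have hYP : 2 * P ≤ Y := (le_max_right _ _).trans ((le_max_right _ _).trans hYi)
  set y := 2 ^ (Nat.log 2 Y / 512) with hy
  set Q := (DD P y).filter (fun r => ¬ r ∣ A) with hQ
  -- elements of T
  have hTl : ∀ q ∈ T, P * (q / P) + 1 = q ∧ 1 ≤ q / P ∧ q / P ≤ Y := by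
    intro q hq
    obtain ⟨h1, h2, h3, _⟩ := hT q hq
    have h4 : P * (q / P) + 1 = q := by
      have := Nat.div_add_mod q P
      rw [h2] at this
      exact this
    have hlt := lt_of_mod_one h1 h2
    refine ⟨h4, Nat.div_pos hlt.le hP.pos, ?_⟩
    rw [hY, Nat.div_div_eq_div_mul, Nat.le_div_iff_mul_le (Nat.mul_pos hP.pos hA)]
    calc q / P * (P * A) = (P * (q / P)) * A := by ring
      _ ≤ q * A := Nat.mul_le_mul_right A (by omega)
      _ = A * q := mul_comm _ _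
      _ ≤ z := h3
  have hinj : Set.InjOn (fun q => q / P) (T : Set ℕ) := by
    intro q hq q' hq' hqq
    simp only at hqq
    rw [← (hTl q hq).1, ← (hTl q' hq').1, hqq]
  have hcard : (T.image (fun q => q / P)).card = T.card := Finset.card_image_of_injOn hinj
  have h1 := h P 1 e Y a Q hYY hP.ne_zero (by
    intro r hr
    rw [hQ, mem_filter] at hr
    have hr' := mem_DD.1 hr.1
    have hlt := lt_of_mod_one hr'.1 hr'.2.1
    refine ⟨hr'.1, by omega, ?_, ?_, ha.ndvd hr'.1 hr'.2.1, pow512_le hr.1 hYpow⟩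
    · intro h2
      have := Nat.le_of_dvd hP.pos h2
      omega
    · intro h2
      exact hr.2 (he r hr'.1 hr'.2.1 h2)) (T.image (fun q => q / P)) (by
    intro l hl
    rw [mem_image] at hl
    obtain ⟨q, hq, rfl⟩ := hl
    rw [mem_Icc]
    exact (hTl q hq).2) (by
    intro l hl
    rw [mem_image] at hl
    obtain ⟨q, hq, rfl⟩ := hl
    obtain ⟨h2, h3, h4, h5⟩ := hT q hq
    rw [(hTl q hq).1]
    refine ⟨h2, ?_⟩
    intro r hr h6
    rw [hQ, mem_filter] at hr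
    have hr' := mem_DD.1 hr.1
    apply h5 r hr.1
    unfold Nat.ModEq at h6
    rw [h6, Nat.mod_eq_of_lt (ha.d r hr'.1 hr'.2.1).2])
  rw [hcard] at h1
  have hYR : (1 : ℝ) ≤ Y := by exact_mod_cast (le_max_left _ _).trans hYi
  have hPR : (3 : ℝ) ≤ P := by exact_mod_cast hP3
  have hY2 : (2 : ℝ) ≤ Y := by
    have : (2 : ℝ) * P ≤ Y := by exact_mod_cast hYP
    linarith
  have hlogY : 0 < Real.log Y := Real.log_pos (by linarith)
  -- each log q ≤ 2 log Y
  have hlog : ∀ q ∈ T, Real.log q ≤ 2 * Real.log Y := by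
    intro q hq
    obtain ⟨h2, h3, h4⟩ := hTl q hq
    have h5 : q ≤ Y ^ 2 := by
      calc q = P * (q / P) + 1 := h2.symm
        _ ≤ P * Y + P * Y := by
            apply Nat.add_le_add (Nat.mul_le_mul_left _ h4)
            have : 1 ≤ Y := (le_max_left _ _).trans hYi
            nlinarith [hP.pos]
        _ = (2 * P) * Y := by ring
        _ ≤ Y * Y := Nat.mul_le_mul_right _ hYP
        _ = Y ^ 2 := by ring
    have h6 : (q : ℝ) ≤ (Y : ℝ) ^ 2 := by exact_mod_cast h5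
    have hq0 : (0 : ℝ) < q := by exact_mod_cast (hT q hq).1.pos
    have h7 := Real.log_le_log hq0 h6
    rw [Real.log_pow] at h7
    push_cast at h7
    exact h7
  have hsum : ∑ q ∈ T, Real.log q ≤ T.card * (2 * Real.log Y) := by
    have := Finset.sum_le_card_nsmul T (fun q => Real.log (q : ℝ)) (2 * Real.log Y) hlog
    rwa [nsmul_eq_mul] at this
  have hG : (P : ℝ) / (P.totient : ℝ) ≤ 2 := by
    rw [Nat.totient_prime hP, Nat.cast_sub hP.one_lt.le, Nat.cast_one, div_le_iff₀ (by linarith)]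
    linarith
  have hprod := prod_filter_le P y A hA
  rw [← hQ] at hprod
  have hQ0 : 0 ≤ ∏ r ∈ Q, (1 - 1 / (r : ℝ)) :=
    Finset.prod_nonneg fun r hr => (one_sub_pos' (mem_DD.1 (mem_filter.1 hr).1).1).1.le
  have hA0 : (0 : ℝ) < A := by exact_mod_cast hA
  have htot : (0 : ℝ) < A.totient := by exact_mod_cast Nat.totient_pos.2 hA
  have hHH := HH_pos P y
  have hYz : (Y : ℝ) ≤ (z : ℝ) / P / A := by
    calc (Y : ℝ) ≤ ((z / P : ℕ) : ℝ) / A := Nat.cast_div_le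
      _ ≤ _ := by
          gcongr
          exact Nat.cast_div_le
  have hCG : 0 ≤ C * ((P : ℝ) / (P.totient : ℝ)) := by positivity
  calc ∑ q ∈ T, Real.log q ≤ T.card * (2 * Real.log Y) := hsum
    _ ≤ (C * ((P : ℝ) / (P.totient : ℝ)) * ((Y : ℝ) / Real.log Y) * ∏ r ∈ Q, (1 - 1 / (r : ℝ)))
          * (2 * Real.log Y) := by gcongr
    _ = (C * ((P : ℝ) / (P.totient : ℝ))) * 2 * Y * ∏ r ∈ Q, (1 - 1 / (r : ℝ)) := by
        field_simp
    _ ≤ (C * 2) * 2 * ((z : ℝ) / P / A) * ((HH P y)⁻¹ * ((A : ℝ) / (A.totient : ℝ))) := by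
        gcongr
    _ = 4 * C * ((z : ℝ) / P) * (1 / (A.totient : ℝ)) / HH P y := by
        field_simp
        ring

end Pool.Agent.Cov
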