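import Mathlib
import Pool.Agent.Cov.T2a
import Pool.Agent.Cov.PrimesAP
import Pool.Agent.Cov.Sums

set_option autoImplicit false

namespace Pool.Agent.Cov

open Finset

theorem T2_small (P : ℕ) (hP : P.Prime) (i₁ z A : ℕ) (hA : 1 ≤ A)
    (hi : Nat.log 2 (z / P / A) < i₁) (T : Finset ℕ)
    (hT : ∀ q ∈ T, q.Prime ∧ q % P = 1 ∧ A * q ≤ z) :
    ∑ q ∈ T, Real.log q ≤ 2 ^ i₁ * Real.log (P * 2 ^ i₁) := by
  set Y := z / P / A with hY
  have hYlt : Y < 2 ^ i₁ := Nat.lt_pow_of_log_lt (by norm_num) hi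
  have hTl : ∀ q ∈ T, P * (q / P) + 1 = q ∧ 1 ≤ q / P ∧ q / P ≤ Y := by
    intro q hq
    obtain ⟨h1, h2, h3⟩ := hT q hq
    have h4 : P * (q / P) + 1 = q := by
      have := Nat.div_add_mod q P
      rw [h2] at this
      exact this
    have hlt := lt_of_mod_one h1 h2
    refine ⟨h4, Nat.div_pos hlt.le hP.pos, ?_⟩
    rw [hY, Nat.div_div_eq_div_mul, Nat.le_div_iff_mul_le (Nat.mul_pos hP.pos hA)]
    calc q / P * (P * A) = (P * (q / P)) * A := by ring
      _ ≤ q * A := Nat.mul_le_mul_right A (by omega)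
      _ = A * q := mul_comm _ _
      _ ≤ z := h3
  have hinj : Set.InjOn (fun q => q / P) (T : Set ℕ) := by
    intro q hq q' hq' hqq
    simp only at hqq
    rw [← (hTl q hq).1, ← (hTl q' hq').1, hqq]
  have hcard : T.card ≤ 2 ^ i₁ := by
    rw [← Finset.card_image_of_injOn hinj]
    have hsub : T.image (fun q => q / P) ⊆ Icc 1 Y := by
      intro l hl
      rw [mem_image] at hl
      obtain ⟨q, hq, rfl⟩ := hl
      rw [mem_Icc]
      exact (hTl q hq).2
    have := Finset.card_le_card hsub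
    rw [Nat.card_Icc, Nat.add_sub_cancel] at this
    exact this.trans hYlt.le
  have hP1 : (1 : ℝ) ≤ P := by exact_mod_cast hP.one_lt.le
  have h2i : (1 : ℝ) ≤ 2 ^ i₁ := one_le_pow₀ (by norm_num)
  have hlog0 : 0 ≤ Real.log (P * 2 ^ i₁) := Real.log_nonneg (by nlinarith)
  have hlog : ∀ q ∈ T, Real.log q ≤ Real.log (P * 2 ^ i₁) := by
    intro q hq
    obtain ⟨h2, h3, h4⟩ := hTl q hq
    have h5 : q ≤ P * 2 ^ i₁ := by
      calc q = P * (q / P) + 1 := h2.symm
        _ ≤ P * Y + P := Nat.add_le_add (Nat.mul_le_mul_left _ h4) hP.one_lt.le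
        _ = P * (Y + 1) := by ring
        _ ≤ P * 2 ^ i₁ := Nat.mul_le_mul_left _ hYlt
    apply Real.log_le_log (by exact_mod_cast (hT q hq).1.pos)
    exact_mod_cast h5
  have h1 := Finset.sum_le_card_nsmul T (fun q => Real.log (q : ℝ)) _ hlog
  rw [nsmul_eq_mul] at h1
  refine h1.trans ?_
  apply mul_le_mul_of_nonneg_right _ hlog0
  exact_mod_cast hcard

theorem sum_inv_sqrt (J : ℕ) : ∑ i ∈ Icc 1 J, 1 / Real.sqrt i ≤ 2 * Real.sqrt J := by
  induction J with
  | zero => simp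
  | succ n ih =>
    rw [Finset.sum_Icc_succ_top (by omega)]
    have h0 : (0 : ℝ) ≤ n := Nat.cast_nonneg n
    have h1 : 0 < Real.sqrt ((n + 1 : ℕ) : ℝ) := Real.sqrt_pos.2 (by positivity)
    have h2 : 0 ≤ Real.sqrt (n : ℝ) := Real.sqrt_nonneg _
    have h3 : Real.sqrt (n : ℝ) ^ 2 = n := Real.sq_sqrt h0
    have h4 : Real.sqrt ((n + 1 : ℕ) : ℝ) ^ 2 = n + 1 := by
      rw [Real.sq_sqrt (by positivity)]; push_cast; ring
    set u := Real.sqrt (n : ℝ)
    set v := Real.sqrt ((n + 1 : ℕ) : ℝ)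
    have h5 : 1 / v ≤ 2 * v - 2 * u := by
      rw [div_le_iff₀ h1]
      nlinarith [sq_nonneg (v - u)]
    linarith

open Classical in
theorem T2_sum : ∀ C₁ : ℝ, 0 < C₁ → ∃ C : ℝ, 0 < C ∧ ∀ P : ℕ, P.Prime → 50 ≤ P →
    ∀ (i₁ : ℕ) (K : ℝ), 0 ≤ K → ∃ J₀ : ℕ, ∀ z : ℕ, J₀ ≤ Nat.log 2 (z / P) → ∀ F : ℕ → ℝ,
    (∀ A ∈ Icc 1 (z / P), Gen P A → i₁ ≤ Nat.log 2 (z / P / A) →
      F A ≤ C₁ * ((z : ℝ) / P) * (1 / (A.totient : ℝ)) / HH P (2 ^ (Nat.log 2 (z / P / A) / 512))) →
    (∀ A ∈ Icc 1 (z / P), Gen P A → Nat.log 2 (z / P / A) < i₁ → F A ≤ K) →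
    ∑ A ∈ (Icc 1 (z / P)).filter (fun A => Gen P A), F A ≤ C * ((z : ℝ) / P) := by
  intro C₁ hC₁
  obtain ⟨C0, hC0, hs0⟩ := sum_totient_le
  obtain ⟨C2, hC2, hs2⟩ := sum_totient_window
  refine ⟨1 + 384 * C₁ * C2 + 64 * C₁ * C0, by positivity, ?_⟩
  intro P hP hP50 i₁ K hK
  obtain ⟨i₀, hi₀, hratio⟩ := HH_ratio P hP hP50
  set i₂ := max i₁ (512 * i₀) with hi₂
  -- threshold for J
  set Z : ℝ := 3 * C2 * (i₂ * (K + C₁)) with hZ
  have hZ0 : 0 ≤ Z := by positivity
  set h0 := HH P (2 ^ i₀) with hh0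
  have hh0pos : 0 < h0 := HH_pos _ _
  refine ⟨max (2 * i₂ + 2) (⌈2 * (Z * h0) ^ 2⌉₊ + 1), ?_⟩
  intro z hz F hF1 hF2
  set z' := z / P with hz'
  set J := Nat.log 2 z' with hJ
  have hJ1 : 2 * i₂ + 2 ≤ J := (le_max_left _ _).trans hz
  have hJ2 : 2 * (Z * h0) ^ 2 ≤ J := by
    refine (Nat.le_ceil _).trans ?_
    have := (le_max_right _ _).trans hz
    exact_mod_cast (by omega : ⌈2 * (Z * h0) ^ 2⌉₊ ≤ J)
  have hz'0 : z' ≠ 0 := by
    intro h
    rw [hJ, h] at hJ1
    simp at hJ1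
  have hz'1 : 1 ≤ z' := Nat.pos_of_ne_zero hz'0
  have hz'lo : 2 ^ J ≤ z' := Nat.pow_log_le_self 2 hz'0
  have hz'hi : z' < 2 ^ (J + 1) := Nat.lt_pow_succ_log_self (by norm_num) z'
  have hJr : (0 : ℝ) < J := by exact_mod_cast (by omega : 0 < J)
  have hJ1r : (1 : ℝ) ≤ J := by exact_mod_cast (by omega : 1 ≤ J)
  set H := HH P (2 ^ (J + 1)) with hH
  have hHpos : 0 < H := HH_pos _ _
  have hHz : HH P z' ≤ H := HH_mono P hz'hi.le
  set W : ℕ → ℝ := fun i => ∑ A ∈ (Icc 1 z').filter (fun A => Gen P A ∧ Nat.log 2 (z' / A) = i),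
    (1 : ℝ) / (A.totient : ℝ) with hW
  have hW0 : ∀ i, 0 ≤ W i := fun i => Finset.sum_nonneg fun _ _ => by positivity
  set c : ℕ → ℝ := fun i => if i < i₂ then K + C₁ else C₁ / HH P (2 ^ (i / 512)) with hc
  have hc0 : ∀ i, 0 ≤ c i := by
    intro i
    simp only [hc]
    split_ifs
    · positivity
    · exact div_nonneg hC₁.le (HH_pos _ _).le
  have hzP : (z' : ℝ) ≤ (z : ℝ) / P := Nat.cast_div_le
  have hzP0 : 0 < (z : ℝ) / P := lt_of_lt_of_le (by exact_mod_cast hz'1) hzP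
  -- pointwise bound
  have hpt : ∀ A ∈ (Icc 1 z').filter (fun A => Gen P A),
      F A ≤ ((z : ℝ) / P) * (c (Nat.log 2 (z' / A)) * (1 / (A.totient : ℝ))) := by
    intro A hA
    rw [mem_filter] at hA
    have hA' := mem_Icc.1 hA.1
    have hA0 : (0 : ℝ) < A := by exact_mod_cast hA'.1
    have htot : (0 : ℝ) < A.totient := by exact_mod_cast Nat.totient_pos.2 hA'.1
    have htotA : (A.totient : ℝ) ≤ A := by exact_mod_cast Nat.totient_le A
    have hAz : (A : ℝ) ≤ z' := by exact_mod_cast hA'.2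
    have hone : 1 ≤ ((z : ℝ) / P) * (1 / (A.totient : ℝ)) := by
      rw [mul_one_div, one_le_div htot]
      linarith
    have hpos : 0 ≤ ((z : ℝ) / P) * (1 / (A.totient : ℝ)) := by linarith
    by_cases h1 : Nat.log 2 (z' / A) < i₁
    · have h2 : c (Nat.log 2 (z' / A)) = K + C₁ := by
        simp only [hc]
        rw [if_pos (lt_of_lt_of_le h1 (le_max_left _ _))]
      rw [h2]
      calc F A ≤ K := hF2 A hA.1 hA.2 h1
        _ ≤ K + C₁ := by linarith
        _ ≤ (K + C₁) * (((z : ℝ) / P) * (1 / (A.totient : ℝ))) := by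
            have : 0 ≤ K + C₁ := by linarith
            nlinarith
        _ = _ := by ring
    · rw [not_lt] at h1
      have h3 := hF1 A hA.1 hA.2 h1
      have hHi := HH_pos P (2 ^ (Nat.log 2 (z' / A) / 512))
      have hHi1 := HH_ge_one P (2 ^ (Nat.log 2 (z' / A) / 512))
      refine h3.trans ?_
      by_cases h4 : Nat.log 2 (z' / A) < i₂
      · have h2 : c (Nat.log 2 (z' / A)) = K + C₁ := by
          simp only [hc]
          rw [if_pos h4]
        rw [h2]
        calc C₁ * ((z : ℝ) / P) * (1 / (A.totient : ℝ)) / HH P (2 ^ (Nat.log 2 (z' / A) / 512))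
            ≤ C₁ * ((z : ℝ) / P) * (1 / (A.totient : ℝ)) := div_le_self (by positivity) hHi1
          _ = C₁ * (((z : ℝ) / P) * (1 / (A.totient : ℝ))) := by ring
          _ ≤ (K + C₁) * (((z : ℝ) / P) * (1 / (A.totient : ℝ))) := by
              apply mul_le_mul_of_nonneg_right _ hpos
              linarith
          _ = _ := by ring
      · have h2 : c (Nat.log 2 (z' / A)) = C₁ / HH P (2 ^ (Nat.log 2 (z' / A) / 512)) := by
          simp only [hc]
          rw [if_neg h4]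
        rw [h2]
        apply le_of_eq
        ring
  have hmaps : ∀ A ∈ (Icc 1 z').filter (fun A => Gen P A), Nat.log 2 (z' / A) ∈ range (J + 1) := by
    intro A _
    rw [mem_range]
    have : Nat.log 2 (z' / A) ≤ Nat.log 2 z' := Nat.log_mono_right (Nat.div_le_self _ _)
    omega
  have hfib : ∑ A ∈ (Icc 1 z').filter (fun A => Gen P A), c (Nat.log 2 (z' / A)) * (1 / (A.totient : ℝ))
      = ∑ i ∈ range (J + 1), c i * W i := by
    rw [← Finset.sum_fiberwise_of_maps_to hmaps]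
    apply Finset.sum_congr rfl
    intro i _
    simp only [hW]
    rw [Finset.mul_sum, Finset.filter_filter]
    apply Finset.sum_congr rfl
    intro A hA
    rw [mem_filter] at hA
    rw [hA.2.2]
  have htot_sum : ∑ i ∈ range (J + 1), W i ≤ C0 * H := by
    have h1 : ∑ i ∈ range (J + 1), W i
        = ∑ A ∈ (Icc 1 z').filter (fun A => Gen P A), (1 : ℝ) / (A.totient : ℝ) := by
      rw [← Finset.sum_fiberwise_of_maps_to hmaps]
      apply Finset.sum_congr rfl
      intro i _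
      simp only [hW]
      rw [Finset.filter_filter]
    rw [h1]
    calc _ ≤ C0 * HH P z' := hs0 P z' hP.two_le
      _ ≤ C0 * H := by gcongr
  -- window bound
  have hl2 := Real.log_two_gt_d9
  have hWi : ∀ i, 2 * (i + 1) ≤ J → W i ≤ 3 * C2 * H / J := by
    intro i hi
    have h1 := hs2 P z' i hP.two_le hz'1
    have h2 : (J : ℝ) / 3 ≤ Real.log z' - (i + 1) * Real.log 2 := by
      have h3 : (J : ℝ) * Real.log 2 ≤ Real.log z' := by
        have h4 : ((2 : ℝ) ^ J) ≤ z' := by exact_mod_cast hz'lo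
        have := Real.log_le_log (by positivity) h4
        rwa [Real.log_pow] at this
      have h5 : 2 * ((i : ℝ) + 1) ≤ J := by exact_mod_cast hi
      nlinarith
    have h3 : (J : ℝ) / 3 * W i ≤ C2 * H := by
      calc (J : ℝ) / 3 * W i ≤ (Real.log z' - (i + 1) * Real.log 2) * W i :=
            mul_le_mul_of_nonneg_right h2 (hW0 i)
        _ ≤ C2 * HH P z' := h1
        _ ≤ C2 * H := by gcongr
    rw [le_div_iff₀ hJr]
    linarith
  -- ratio bound
  have hrat : ∀ i, i₂ ≤ i → i ≤ J → H / HH P (2 ^ (i / 512)) ≤ 32 * (Real.sqrt (J + 1) * (1 / Real.sqrt i)) := by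
    intro i hi hiJ
    have hi512 : 512 * i₀ ≤ i := (le_max_right _ _).trans hi
    have hi' : i₀ ≤ i / 512 := by
      rw [Nat.le_div_iff_mul_le (by norm_num)]
      omega
    have h1 := hratio (i / 512) (J + 1) hi' (by
      have := Nat.div_le_self i 512
      omega)
    rw [← hH] at h1
    have hge : (i : ℝ) / 1024 ≤ ((i / 512 : ℕ) : ℝ) := by
      rw [div_le_iff₀ (by norm_num)]
      have : i ≤ (i / 512) * 1024 := by omega
      exact_mod_cast this
    set hi5 := HH P (2 ^ (i / 512)) with hhi5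
    have hpos5 : 0 < hi5 := HH_pos _ _
    have hi1 : (1 : ℝ) ≤ i := by exact_mod_cast (by omega : 1 ≤ i)
    have h2 : (H / hi5) ^ 2 ≤ (32 * (Real.sqrt (J + 1) * (1 / Real.sqrt i))) ^ 2 := by
      have e1 : (32 * (Real.sqrt (J + 1) * (1 / Real.sqrt i))) ^ 2 = 1024 * ((J + 1) / i) := by
        rw [mul_pow, mul_pow, div_pow, Real.sq_sqrt (by positivity), Real.sq_sqrt (by positivity)]
        ring
      rw [e1, div_pow, div_le_iff₀ (by positivity)]
      push_cast at h1
      have h3 : H ^ 2 * ((i : ℝ) / 1024) ≤ hi5 ^ 2 * (J + 1) := by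
        refine le_trans ?_ h1
        gcongr
      have h4 : 1024 * (((J : ℝ) + 1) / i) * hi5 ^ 2 = (hi5 ^ 2 * (J + 1)) / ((i : ℝ) / 1024) := by
        field_simp
      rw [h4, le_div_iff₀ (by positivity)]
      exact h3
    exact (pow_le_pow_iff_left₀ (by positivity) (by positivity) two_ne_zero).1 h2
  -- termwise
  have hterm : ∀ i ∈ range (J + 1), c i * W i ≤ (if i < i₂ then (K + C₁) * (3 * C2 * H / J) else 0)
      + (96 * C₁ * C2 / J * Real.sqrt (J + 1)) * (1 / Real.sqrt i) + 64 * C₁ / H * W i := by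
    intro i hiJ
    rw [mem_range] at hiJ
    have hn1 : 0 ≤ (96 * C₁ * C2 / J * Real.sqrt (J + 1)) * (1 / Real.sqrt i) := by positivity
    have hn2 : 0 ≤ 64 * C₁ / H * W i := mul_nonneg (by positivity) (hW0 i)
    by_cases h1 : i < i₂
    · rw [if_pos h1]
      have h2 : c i = K + C₁ := by simp only [hc]; rw [if_pos h1]
      rw [h2]
      have h3 := hWi i (by omega)
      have h4 : (K + C₁) * W i ≤ (K + C₁) * (3 * C2 * H / J) :=
        mul_le_mul_of_nonneg_left h3 (by linarith)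
      linarith
    · rw [if_neg h1]
      rw [not_lt] at h1
      have h2 : c i = C₁ / HH P (2 ^ (i / 512)) := by simp only [hc]; rw [if_neg (by omega)]
      rw [h2]
      have h3 := hrat i h1 (by omega)
      have hHi := HH_pos P (2 ^ (i / 512))
      by_cases h4 : 2 * (i + 1) ≤ J
      · have h5 := hWi i h4
        have h6 : C₁ / HH P (2 ^ (i / 512)) * W i
            ≤ (96 * C₁ * C2 / J * Real.sqrt (J + 1)) * (1 / Real.sqrt i) := by
          calc C₁ / HH P (2 ^ (i / 512)) * W i ≤ C₁ / HH P (2 ^ (i / 512)) * (3 * C2 * H / J) := by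
                apply mul_le_mul_of_nonneg_left h5 (by positivity)
            _ = (3 * C₁ * C2 / J) * (H / HH P (2 ^ (i / 512))) := by ring
            _ ≤ (3 * C₁ * C2 / J) * (32 * (Real.sqrt (J + 1) * (1 / Real.sqrt i))) := by
                apply mul_le_mul_of_nonneg_left h3 (by positivity)
            _ = _ := by ring
        linarith
      · have hi1 : 1 ≤ i := by
          have : 1 ≤ 512 * i₀ := by omega
          have := (le_max_right i₁ (512 * i₀)).trans h1
          omega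
        have h5 : Real.sqrt (J + 1) * (1 / Real.sqrt i) ≤ 2 := by
          have h6 : (J : ℝ) + 1 ≤ 4 * i := by exact_mod_cast (by omega : J + 1 ≤ 4 * i)
          have hir : (0 : ℝ) < i := by exact_mod_cast hi1
          have h7 : Real.sqrt (J + 1) ≤ 2 * Real.sqrt i := by
            rw [show (2 : ℝ) * Real.sqrt i = Real.sqrt (4 * i) by
              rw [Real.sqrt_mul (by norm_num), show (4 : ℝ) = 2 ^ 2 by norm_num,
                Real.sqrt_sq (by norm_num)]]
            exact Real.sqrt_le_sqrt h6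
          rw [mul_one_div, div_le_iff₀ (Real.sqrt_pos.2 hir)]
          exact h7
        have h6 : C₁ / HH P (2 ^ (i / 512)) * W i ≤ 64 * C₁ / H * W i := by
          apply mul_le_mul_of_nonneg_right _ (hW0 i)
          have h7 : H / HH P (2 ^ (i / 512)) ≤ 64 := by linarith
          rw [div_le_iff₀ hHi] at h7
          rw [div_le_div_iff₀ hHi hHpos]
          nlinarith
        linarith
  have hsum1 : ∑ i ∈ range (J + 1), (if i < i₂ then (K + C₁) * (3 * C2 * H / J) else 0) ≤ 1 := by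
    have e1 : ∑ i ∈ range (J + 1), (if i < i₂ then (K + C₁) * (3 * C2 * H / J) else 0)
        = i₂ * ((K + C₁) * (3 * C2 * H / J)) := by
      rw [← Finset.sum_filter]
      have : (range (J + 1)).filter (fun i => i < i₂) = range i₂ := by
        ext i
        rw [mem_filter, mem_range, mem_range]
        constructor
        · rintro ⟨_, h⟩; exact h
        · intro h; exact ⟨by omega, h⟩
      rw [this, Finset.sum_const, card_range, nsmul_eq_mul]
    have e2 : (i₂ : ℝ) * ((K + C₁) * (3 * C2 * H / J)) = Z * H / J := by rw [hZ]; ring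
    rw [e1, e2, div_le_one hJr]
    have h1 := hratio i₀ (J + 1) le_rfl (by
      have : i₀ ≤ 512 * i₀ := by omega
      have := this.trans (le_max_right i₁ (512 * i₀))
      omega)
    rw [← hH, ← hh0] at h1
    push_cast at h1
    have hi0r : (1 : ℝ) ≤ i₀ := by exact_mod_cast hi₀
    have h2 : H ^ 2 ≤ 2 * h0 ^ 2 * J := by
      calc H ^ 2 ≤ H ^ 2 * i₀ := by nlinarith [sq_nonneg H]
        _ ≤ h0 ^ 2 * (J + 1) := h1
        _ ≤ h0 ^ 2 * (2 * J) := by gcongr; linarith
        _ = _ := by ring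
    have h3 : (Z * H) ^ 2 ≤ (J : ℝ) ^ 2 := by
      calc (Z * H) ^ 2 = Z ^ 2 * H ^ 2 := by ring
        _ ≤ Z ^ 2 * (2 * h0 ^ 2 * J) := by gcongr
        _ = (2 * (Z * h0) ^ 2) * J := by ring
        _ ≤ J * J := by gcongr
        _ = (J : ℝ) ^ 2 := by ring
    exact (pow_le_pow_iff_left₀ (by positivity) (by positivity) two_ne_zero).1 h3
  have hsum2 : ∑ i ∈ range (J + 1), (96 * C₁ * C2 / J * Real.sqrt (J + 1)) * (1 / Real.sqrt i)
      ≤ 384 * C₁ * C2 := by
    rw [← Finset.mul_sum]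
    have h1 : ∑ i ∈ range (J + 1), 1 / Real.sqrt i = ∑ i ∈ Icc 1 J, 1 / Real.sqrt i := by
      rw [Finset.range_eq_Ico, Finset.sum_eq_sum_Ico_succ_bot (by omega)]
      simp only [Nat.cast_zero, Real.sqrt_zero, div_zero, zero_add]
      rfl
    rw [h1]
    have h2 := sum_inv_sqrt J
    have h3 : Real.sqrt (J + 1) ≤ 2 * Real.sqrt J := by
      rw [show (2 : ℝ) * Real.sqrt J = Real.sqrt (4 * J) by
        rw [Real.sqrt_mul (by norm_num), show (4 : ℝ) = 2 ^ 2 by norm_num,
          Real.sqrt_sq (by norm_num)]]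
      apply Real.sqrt_le_sqrt
      linarith
    have h4 : Real.sqrt J * Real.sqrt J = J := Real.mul_self_sqrt hJr.le
    calc (96 * C₁ * C2 / J * Real.sqrt (J + 1)) * ∑ i ∈ Icc 1 J, 1 / Real.sqrt i
        ≤ (96 * C₁ * C2 / J * (2 * Real.sqrt J)) * (2 * Real.sqrt J) := by gcongr
      _ = 384 * C₁ * C2 / J * (Real.sqrt J * Real.sqrt J) := by ring
      _ = 384 * C₁ * C2 := by rw [h4]; field_simp
  have hsum3 : ∑ i ∈ range (J + 1), 64 * C₁ / H * W i ≤ 64 * C₁ * C0 := by
    rw [← Finset.mul_sum]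
    calc 64 * C₁ / H * ∑ i ∈ range (J + 1), W i ≤ 64 * C₁ / H * (C0 * H) := by gcongr
      _ = 64 * C₁ * C0 := by field_simp
  have hfinal : ∑ i ∈ range (J + 1), c i * W i ≤ 1 + 384 * C₁ * C2 + 64 * C₁ * C0 := by
    refine (Finset.sum_le_sum hterm).trans ?_
    rw [Finset.sum_add_distrib, Finset.sum_add_distrib]
    linarith
  calc ∑ A ∈ (Icc 1 z').filter (fun A => Gen P A), F A
      ≤ ∑ A ∈ (Icc 1 z').filter (fun A => Gen P A),
          ((z : ℝ) / P) * (c (Nat.log 2 (z' / A)) * (1 / (A.totient : ℝ))) := Finset.sum_le_sum hpt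
    _ = ((z : ℝ) / P) * ∑ i ∈ range (J + 1), c i * W i := by rw [← Finset.mul_sum, hfib]
    _ ≤ ((z : ℝ) / P) * (1 + 384 * C₁ * C2 + 64 * C₁ * C0) := by gcongr
    _ = _ := by ring

end Pool.Agent.Cov
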