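import Mathlib
import Pool.Agent.Cov.T2b

set_option autoImplicit false

namespace Pool.Agent.Cov

open Finset ArithmeticFunction
open Pool.Agent.Erdos456.SieveAux (sum_le_of_inj)

theorem Gen.dvd {P m d : ℕ} (h : Gen P m) (hd : d ∣ m) : Gen P d :=
  ⟨ne_zero_of_dvd_ne_zero h.1 hd, fun q hq hqd => h.2 q hq (hqd.trans hd)⟩

theorem primeFactors_filter (m : ℕ) : m.divisors.filter Nat.Prime = m.primeFactors := by
  ext p
  rw [mem_filter, Nat.mem_divisors, Nat.mem_primeFactors]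
  tauto

open Classical in
theorem log_sum_le (P z : ℕ) (S : Finset ℕ) (hS : ∀ m ∈ S, Gen P m ∧ m ≤ z) :
    ∑ m ∈ S, Real.log m ≤ ∑ m ∈ S, ∑ q ∈ m.primeFactors, Real.log q
      + z * ∑ d ∈ (Icc 1 z).filter (fun d => Gen P d ∧ ¬ d.Prime), vonMangoldt d / (d : ℝ) := by
  have h1 : ∀ m ∈ S, Real.log m = ∑ q ∈ m.primeFactors, Real.log q
      + ∑ d ∈ (Icc 1 z).filter (fun d => Gen P d ∧ ¬ d.Prime), (if d ∣ m then vonMangoldt d else 0) := by
    intro m hm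
    obtain ⟨h2, h3⟩ := hS m hm
    rw [← vonMangoldt_sum, ← Finset.sum_filter_add_sum_filter_not m.divisors Nat.Prime, primeFactors_filter]
    congr 1
    · apply Finset.sum_congr rfl
      intro q hq
      exact vonMangoldt_apply_prime (Nat.prime_of_mem_primeFactors hq)
    · rw [← Finset.sum_filter]
      apply Finset.sum_congr _ (fun _ _ => rfl)
      ext d
      simp only [mem_filter, Nat.mem_divisors, mem_Icc]
      constructor
      · rintro ⟨⟨h4, h5⟩, h6⟩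
        have h7 := Nat.le_of_dvd (Nat.pos_of_ne_zero h5) h4
        exact ⟨⟨⟨Nat.pos_of_dvd_of_pos h4 (Nat.pos_of_ne_zero h5), h7.trans h3⟩, h2.dvd h4, h6⟩, h4⟩
      · rintro ⟨⟨_, _, h6⟩, h4⟩
        exact ⟨⟨h4, h2.1⟩, h6⟩
  rw [Finset.sum_congr rfl h1, Finset.sum_add_distrib]
  apply add_le_add le_rfl
  rw [Finset.sum_comm, Finset.mul_sum]
  apply Finset.sum_le_sum
  intro d hd
  rw [mem_filter, mem_Icc] at hd
  have hd0 : (0 : ℝ) < d := by exact_mod_cast hd.1.1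
  rw [← Finset.sum_filter, Finset.sum_const, nsmul_eq_mul]
  have h2 : ((S.filter (fun m => d ∣ m)).card : ℝ) ≤ (z : ℝ) / d := by
    have h3 : S.filter (fun m => d ∣ m) ⊆ (Ioc 0 z).filter (fun m => d ∣ m) := by
      intro m hm
      rw [mem_filter] at hm ⊢
      obtain ⟨h4, h5⟩ := hS m hm.1
      rw [mem_Ioc]
      exact ⟨⟨Nat.pos_of_ne_zero h4.1, h5⟩, hm.2⟩
    have h4 := Finset.card_le_card h3
    rw [Nat.Ioc_filter_dvd_card_eq_div] at h4
    calc _ ≤ ((z / d : ℕ) : ℝ) := by exact_mod_cast h4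
      _ ≤ _ := Nat.cast_div_le
  have h5 : 0 ≤ vonMangoldt d := vonMangoldt_nonneg
  calc _ ≤ (z : ℝ) / d * vonMangoldt d := mul_le_mul_of_nonneg_right h2 h5
    _ = _ := by ring

open Classical in
theorem T2_bound : ∃ C : ℝ, 0 < C ∧ ∀ P : ℕ, P.Prime → 50 ≤ P → ∃ I₀ : ℕ, 1 ≤ I₀ ∧
    ∀ (I B : ℕ) (a : ℕ → ℕ), I₀ ≤ I → 1 ≤ B → B ^ 8 ≤ 2 ^ I →
    (∀ r : ℕ, r.Prime → r % P = 1 → ¬ r ∣ B) → GoodA P a →
    ∀ S : Finset ℕ, (∀ m ∈ S, Gen P m ∧ 2 ^ I ≤ B * m ∧ B * m < 2 ^ (I + 1) ∧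
      ∀ r ∈ DD P (2 ^ ((I + 1) / 512)), (B * m) % r ≠ a r) →
    (S.card : ℝ) ≤ C * (2 ^ I / (B * P * I)) := by
  obtain ⟨C₁, hC₁, hperA⟩ := T2_perA
  obtain ⟨C₄, hC₄, hsum⟩ := T2_sum C₁ hC₁
  obtain ⟨C₃, hC₃, hnp⟩ := sum_nonprime_le
  refine ⟨4 * (C₃ + C₄), by positivity, ?_⟩
  intro P hP hP50
  obtain ⟨i₁, hper⟩ := hperA P hP (by omega)
  have hP1 : (1 : ℝ) ≤ P := by exact_mod_cast hP.one_lt.le
  have h2i : (1 : ℝ) ≤ 2 ^ i₁ := one_le_pow₀ (by norm_num)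
  have hK : 0 ≤ (2 : ℝ) ^ i₁ * Real.log (P * 2 ^ i₁) :=
    mul_nonneg (by positivity) (Real.log_nonneg (by nlinarith))
  obtain ⟨J₀, hJ₀⟩ := hsum P hP hP50 i₁ _ hK
  refine ⟨(2 ^ J₀ * P) ^ 8, Nat.one_le_pow _ _ (Nat.mul_pos (by positivity) hP.pos), ?_⟩
  intro I B a hI hB hB8 hBr ha S hS
  set z := 2 ^ (I + 1) / B with hz
  have hI8 : (2 ^ J₀ * P) ^ 8 ≤ 2 ^ I := hI.trans Nat.lt_two_pow_self.le
  have hBP : 2 ^ J₀ * P * B ≤ 2 ^ I := by
    have h1 : (2 ^ J₀ * P * B) ^ 8 ≤ (2 ^ I) ^ 8 := by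
      calc (2 ^ J₀ * P * B) ^ 8 = (2 ^ J₀ * P) ^ 8 * B ^ 8 := by rw [mul_pow]
        _ ≤ 2 ^ I * 2 ^ I := Nat.mul_le_mul hI8 hB8
        _ = (2 ^ I) ^ 2 := by ring
        _ ≤ (2 ^ I) ^ 8 := Nat.pow_le_pow_right (by positivity) (by norm_num)
    exact (Nat.pow_le_pow_iff_left (by norm_num)).1 h1
  have hzP : 2 ^ J₀ ≤ z / P := by
    rw [hz, Nat.div_div_eq_div_mul, Nat.le_div_iff_mul_le (Nat.mul_pos hB hP.pos)]
    calc 2 ^ J₀ * (B * P) = 2 ^ J₀ * P * B := by ring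
      _ ≤ 2 ^ I := hBP
      _ ≤ 2 ^ (I + 1) := Nat.pow_le_pow_right (by norm_num) (by omega)
  have hlogz : J₀ ≤ Nat.log 2 (z / P) := Nat.le_log_of_pow_le (by norm_num) hzP
  have hSz : ∀ m ∈ S, Gen P m ∧ m ≤ z := by
    intro m hm
    obtain ⟨h1, h2, h3, h4⟩ := hS m hm
    refine ⟨h1, ?_⟩
    rw [hz, Nat.le_div_iff_mul_le hB, mul_comm]
    exact h3.le
  set T : ℕ → Finset ℕ := fun A => (Icc 1 z).filter (fun q => q.Prime ∧ q % P = 1 ∧ A * q ∈ S) with hT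
  set F : ℕ → ℝ := fun A => ∑ q ∈ T A, Real.log q with hF
  have hTA : ∀ A, ∀ q ∈ T A, q.Prime ∧ q % P = 1 ∧ A * q ≤ z := by
    intro A q hq
    simp only [hT, mem_filter] at hq
    exact ⟨hq.2.1, hq.2.2.1, (hSz _ hq.2.2.2).2⟩
  have hmain := hJ₀ z hlogz F (by
    intro A hA hGen hi
    rw [mem_Icc] at hA
    refine hper z A (B * A) a ha hA.1 ?_ hi (T A) ?_
    · intro r hr hr1 hrd
      rcases (hr.dvd_mul).1 hrd with h | h
      · exact absurd h (hBr r hr hr1)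
      · exact h
    · intro q hq
      obtain ⟨h1, h2, h3⟩ := hTA A q hq
      refine ⟨h1, h2, h3, ?_⟩
      intro r hr
      simp only [hT, mem_filter] at hq
      have h4 := (hS _ hq.2.2.2).2.2.2 r (by
        rw [mem_DD] at hr ⊢
        refine ⟨hr.1, hr.2.1, hr.2.2.trans ?_⟩
        apply Nat.pow_le_pow_right (by norm_num)
        apply Nat.div_le_div_right
        calc Nat.log 2 (z / P / A) ≤ Nat.log 2 (2 ^ (I + 1)) := by
              apply Nat.log_mono_right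
              exact (Nat.div_le_self _ _).trans ((Nat.div_le_self _ _).trans (Nat.div_le_self _ _))
          _ = I + 1 := Nat.log_pow (by norm_num) _)
      rwa [mul_assoc]) (by
    intro A hA hGen hi
    rw [mem_Icc] at hA
    exact T2_small P hP i₁ z A hA.1 hi (T A) (hTA A))
  -- double counting
  have hdc : ∑ m ∈ S, ∑ q ∈ m.primeFactors, Real.log q
      ≤ ∑ A ∈ (Icc 1 (z / P)).filter (fun A => Gen P A), F A := by
    simp only [hF]
    rw [Finset.sum_sigma', Finset.sum_sigma']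
    apply sum_le_of_inj (fun x : (_ : ℕ) × ℕ => (⟨x.1 / x.2, x.2⟩ : (_ : ℕ) × ℕ))
    · rintro ⟨m, q⟩ hx
      rw [mem_sigma] at hx
      simp only at hx
      obtain ⟨hm, hq⟩ := hx
      obtain ⟨h1, h2⟩ := hSz m hm
      rw [Nat.mem_primeFactors] at hq
      have hq1 := h1.2 q hq.1 hq.2.1
      have hlt := lt_of_mod_one hq.1 hq1
      have hmq : m / q * q = m := Nat.div_mul_cancel hq.2.1
      have hpos : 0 < m / q := Nat.div_pos (Nat.le_of_dvd (Nat.pos_of_ne_zero hq.2.2) hq.2.1) hq.1.pos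
      rw [mem_sigma, mem_filter, mem_Icc]
      simp only [hT, mem_filter, mem_Icc]
      refine ⟨⟨⟨hpos, ?_⟩, h1.dvd ⟨q, hmq.symm⟩⟩, ⟨hq.1.one_lt.le, ?_⟩, hq.1, hq1, ?_⟩
      · rw [Nat.le_div_iff_mul_le hP.pos]
        calc m / q * P ≤ m / q * q := Nat.mul_le_mul_left _ hlt.le
          _ = m := hmq
          _ ≤ z := h2
      · exact (Nat.le_of_dvd (Nat.pos_of_ne_zero hq.2.2) hq.2.1).trans h2
      · rw [hmq]; exact hm
    · rintro ⟨m, q⟩ hx ⟨m', q'⟩ hx' heq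
      rw [Finset.mem_coe, mem_sigma] at hx hx'
      simp only [Sigma.mk.injEq, heq_eq_eq] at heq hx hx'
      obtain ⟨h1, h2⟩ := heq
      subst h2
      have e1 := Nat.div_mul_cancel (Nat.dvd_of_mem_primeFactors hx.2)
      have e2 := Nat.div_mul_cancel (Nat.dvd_of_mem_primeFactors hx'.2)
      rw [Sigma.mk.injEq]
      refine ⟨?_, HEq.rfl⟩
      rw [← e1, ← e2, h1]
    · rintro ⟨m, q⟩ _
      exact le_rfl
    · rintro ⟨A, q⟩ hx
      rw [mem_sigma] at hx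
      simp only at hx ⊢
      apply Real.log_nonneg
      exact_mod_cast (hTA A q hx.2).1.one_lt.le
  have hls := log_sum_le P z S hSz
  have hnpz := hnp P z hP.two_le
  have hIpos : 1 ≤ I := by
    have : 1 ≤ (2 ^ J₀ * P) ^ 8 := Nat.one_le_pow _ _ (Nat.mul_pos (by positivity) hP.pos)
    omega
  have hIr : (1 : ℝ) ≤ I := by exact_mod_cast hIpos
  have hl2 := Real.log_two_gt_d9
  have hB0 : (0 : ℝ) < B := by exact_mod_cast hB
  have hlow : ∀ m ∈ S, (I : ℝ) / 2 ≤ Real.log m := by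
    intro m hm
    obtain ⟨h1, h2, h3, h4⟩ := hS m hm
    have hm0 : (0 : ℝ) < m := by exact_mod_cast Nat.pos_of_ne_zero h1.1
    have h5 : ((2 : ℝ) ^ I) ≤ B * m := by exact_mod_cast h2
    have h6 := Real.log_le_log (by positivity) h5
    rw [Real.log_pow, Real.log_mul hB0.ne' hm0.ne'] at h6
    have h7 : ((B : ℝ)) ^ 8 ≤ 2 ^ I := by exact_mod_cast hB8
    have h8 := Real.log_le_log (by positivity) h7
    rw [Real.log_pow, Real.log_pow] at h8
    push_cast at h8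
    nlinarith
  have hlow2 : (S.card : ℝ) * ((I : ℝ) / 2) ≤ ∑ m ∈ S, Real.log m := by
    have := Finset.card_nsmul_le_sum S (fun m => Real.log (m : ℝ)) ((I : ℝ) / 2) hlow
    rwa [nsmul_eq_mul] at this
  have hzr : (z : ℝ) ≤ 2 ^ (I + 1) / B := by
    have : ((2 ^ (I + 1) / B : ℕ) : ℝ) ≤ ((2 ^ (I + 1) : ℕ) : ℝ) / B := Nat.cast_div_le
    push_cast at this
    rw [hz]
    push_cast
    exact this
  have hz0 : (0 : ℝ) ≤ z := Nat.cast_nonneg _
  have hP0 : (0 : ℝ) < P := by linarith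
  have htotal : (S.card : ℝ) * ((I : ℝ) / 2) ≤ (C₃ + C₄) * (2 ^ (I + 1) / B / P) := by
    calc (S.card : ℝ) * ((I : ℝ) / 2) ≤ ∑ m ∈ S, Real.log m := hlow2
      _ ≤ C₄ * ((z : ℝ) / P) + z * (C₃ / P) := by
          refine hls.trans (add_le_add (hdc.trans hmain) ?_)
          exact mul_le_mul_of_nonneg_left hnpz hz0
      _ = (C₃ + C₄) * ((z : ℝ) / P) := by ring
      _ ≤ _ := by gcongr
  have hfin : (S.card : ℝ) = ((S.card : ℝ) * ((I : ℝ) / 2)) * (2 / I) := by field_simp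
  rw [hfin]
  calc ((S.card : ℝ) * ((I : ℝ) / 2)) * (2 / I) ≤ ((C₃ + C₄) * (2 ^ (I + 1) / B / P)) * (2 / I) := by
        gcongr
    _ = 4 * (C₃ + C₄) * (2 ^ I / (B * P * I)) := by
        rw [pow_succ]
        field_simp
        ring

end Pool.Agent.Cov
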