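import Mathlib
import Pool.Agent.Cov.T2c
import Pool.Agent.Cov.Construct

set_option autoImplicit false

namespace Pool.Agent.Cov

open Finset Filter Topology

theorem Gen.mod {P : ℕ} (hP : 2 ≤ P) {m : ℕ} (h : Gen P m) : m % P = 1 := by
  induction m using Nat.recOnMul with
  | zero => exact absurd rfl h.1
  | one => exact Nat.mod_eq_of_lt (by omega)
  | prime p hp => exact h.2 p hp dvd_rfl
  | mul a b iha ihb =>
    have h1 := iha (h.dvd (dvd_mul_right _ _))
    have h2 := ihb (h.dvd (dvd_mul_left _ _))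
    rw [Nat.mul_mod, h1, h2, mul_one]
    exact Nat.mod_eq_of_lt (by omega)

/-- structure of the leftover integers -/
theorem left_struct (k P I n : ℕ) (a : ℕ → ℕ) (hP : P.Prime) (hPk : 4 * k < P)
    (h0 : ∀ p : ℕ, p.Prime → p ≠ P → p % P ≠ 1 → a p = 0) (h1 : a P = 1)
    (hI : k * P ≤ 2 ^ I) (hn : n ∈ Left k P a I) :
    n.Prime ∨ ∃ j m : ℕ, 1 ≤ j ∧ Gen P m ∧ n = P ^ j * m := by
  classical
  unfold Left at hn
  rw [mem_filter, mem_Ico] at hn
  obtain ⟨⟨hn1, hn2⟩, hn3⟩ := hn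
  have hnpos : 0 < n := lt_of_lt_of_le (by positivity) hn1
  have hP2 := hP.two_le
  by_cases hA : ∃ p : ℕ, p.Prime ∧ p ∣ n ∧ p % P ≠ 1 ∧ p ≠ P
  · left
    obtain ⟨p, hp, hpn, hp1, hpP⟩ := hA
    have hap := h0 p hp hpP hp1
    have hlt : n < k * p := by
      by_contra hc
      rw [not_lt] at hc
      have := hn3 p hp (Or.inl hp1) hc
      rw [hap] at this
      exact this (Nat.mod_eq_zero_of_dvd hpn)
    obtain ⟨t, ht⟩ := hpn
    have htk : t < k := by
      rw [ht, mul_comm k p] at hlt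
      exact Nat.lt_of_mul_lt_mul_left hlt
    by_cases ht1 : t = 1
    · rw [ht, ht1, mul_one]; exact hp
    · exfalso
      obtain ⟨p', hp', hp't⟩ := Nat.exists_prime_and_dvd ht1
      have ht0 : 0 < t := by
        rcases Nat.eq_zero_or_pos t with h | h
        · rw [h, mul_zero] at ht; omega
        · exact h
      have hp'le := Nat.le_of_dvd ht0 hp't
      have hp'P : p' < P := by omega
      have hp'1 : p' % P ≠ 1 := by
        rw [Nat.mod_eq_of_lt hp'P]; exact hp'.one_lt.ne'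
      have hkp' : k * p' ≤ n := by
        calc k * p' ≤ k * P := Nat.mul_le_mul_left _ hp'P.le
          _ ≤ 2 ^ I := hI
          _ ≤ n := hn1
      have := hn3 p' hp' (Or.inl hp'1) hkp'
      rw [h0 p' hp' hp'P.ne hp'1] at this
      exact this (Nat.mod_eq_zero_of_dvd (ht ▸ hp't.mul_left p))
  · right
    push Not at hA
    obtain ⟨j, m, hm, hnm⟩ := Nat.exists_eq_pow_mul_and_not_dvd hnpos.ne' P hP.one_lt.ne'
    have hGen : Gen P m := by
      refine ⟨?_, ?_⟩
      · rintro rfl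
        exact hm (dvd_zero P)
      · intro q hq hqm
        by_contra hc
        have := hA q hq (hnm ▸ hqm.mul_left (P ^ j)) hc
        exact hm (this ▸ hqm)
    refine ⟨j, m, ?_, hGen, hnm⟩
    by_contra hj
    have hj0 : j = 0 := by omega
    rw [hj0, pow_zero, one_mul] at hnm
    have hmod := hGen.mod hP2
    rw [← hnm] at hmod
    have h3 := hn3 P hP (Or.inl (by rw [Nat.mod_self]; omega)) (hI.trans hn1)
    rw [h1] at h3
    exact h3 hmod

/-- leftover integers avoid the classes of small primes -/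
theorem left_avoid (k P I n : ℕ) (a : ℕ → ℕ)
    (hI : 2 * k * 2 ^ ((I + 1) / 512) < 2 ^ I) (hn : n ∈ Left k P a I) :
    ∀ r ∈ DD P (2 ^ ((I + 1) / 512)), n % r ≠ a r := by
  classical
  unfold Left at hn
  rw [mem_filter, mem_Ico] at hn
  obtain ⟨⟨hn1, hn2⟩, hn3⟩ := hn
  intro r hr
  rw [mem_DD] at hr
  have h1 : 2 * k * r < 2 ^ I := lt_of_le_of_lt (Nat.mul_le_mul_left _ hr.2.2) hI
  apply hn3 r hr.1
  · right
    rcases Nat.eq_zero_or_pos (2 * k * r) with h | h
    · rw [h]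
      simp only [Nat.log_zero_right]
      rcases Nat.eq_zero_or_pos I with h2 | h2
      · exfalso
        subst h2
        have hk : k = 0 ∨ r = 0 := by
          rcases Nat.mul_eq_zero.1 h with h3 | h3
          · left; omega
          · right; exact h3
        rcases hk with h3 | h3
        · subst h3
          have h4 : r ≤ 2 ^ (1 / 512) := hr.2.2
          have h5 := hr.1.two_le
          norm_num at h4
          omega
        · exact hr.1.ne_zero h3
      · exact h2
    · exact Nat.log_lt_of_lt_pow h.ne' h1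
  · calc k * r ≤ 2 * k * r := by nlinarith
      _ ≤ 2 ^ I := h1.le
      _ ≤ n := hn1

theorem main_bound (k : ℕ) (hk : 3 ≤ k) : ∃ P I₀ : ℕ, P.Prime ∧ 4 * k < P ∧
    ∀ a : ℕ → ℕ,
      (∀ q : ℕ, q.Prime → q % P = 1 → a q ≠ 0 ∧ a q < q) →
      (∀ p : ℕ, p.Prime → p ≠ P → p % P ≠ 1 → a p = 0) → a P = 1 →
      ∀ I : ℕ, I₀ ≤ I → (Left k P a I).card ≤ (Fr k P I).card := by
  classical
  obtain ⟨C₅, hC₅, I₅, hT1⟩ := T1_bound
  obtain ⟨C₆, hC₆, hT2⟩ := T2_bound
  obtain ⟨P, hPge, hP⟩ := Nat.exists_infinite_primes (max (4 * k + 50) ⌈48 * k * C₆⌉₊)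
  have hP50 : 50 ≤ P := by
    have := (le_max_left _ _).trans hPge
    omega
  have hPk : 4 * k < P := by
    have := (le_max_left _ _).trans hPge
    omega
  have hPC : 48 * k * C₆ ≤ P := (Nat.le_ceil _).trans (by exact_mod_cast (le_max_right _ _).trans hPge)
  have hP0 : (0 : ℝ) < P := by exact_mod_cast hP.pos
  have hk0 : (0 : ℝ) < k := by exact_mod_cast (by omega : 0 < k)
  obtain ⟨I₆, hI₆1, hT2'⟩ := hT2 P hP hP50
  obtain ⟨I₇, hI₇⟩ := fresh_lower k P (by omega) hP
  have hten := (tendsto_atTop.1 (HH_tendsto P hP)) (24 * k * P * C₅)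
  rw [eventually_atTop] at hten
  obtain ⟨I₈, hI₈⟩ := hten
  -- exponential dominates
  have hexp : ∀ᶠ I : ℕ in atTop, ((I : ℝ) ^ 8) / 2 ^ I < 1 / (48 * k * P) ^ 8 := by
    have h := tendsto_pow_const_div_const_pow_of_one_lt 8 (r := (2 : ℝ)) (by norm_num)
    exact h.eventually_lt_const (by positivity)
  rw [eventually_atTop] at hexp
  obtain ⟨I₉, hI₉⟩ := hexp
  refine ⟨P, max (max I₅ I₆) (max (max I₇ (512 * I₈)) (max I₉ (8 * (k * P) + 8))), hP, hPk, ?_⟩
  intro a ha0 ha1 ha2 I hI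
  have hI5 : I₅ ≤ I := le_trans (le_trans (le_max_left _ _) (le_max_left _ _)) hI
  have hI6 : I₆ ≤ I := le_trans (le_trans (le_max_right _ _) (le_max_left _ _)) hI
  have hI7 : I₇ ≤ I := le_trans (le_trans (le_trans (le_max_left _ _) (le_max_left _ _)) (le_max_right _ _)) hI
  have hI8 : 512 * I₈ ≤ I := le_trans (le_trans (le_trans (le_max_right _ _) (le_max_left _ _)) (le_max_right _ _)) hI
  have hI9 : I₉ ≤ I := le_trans (le_trans (le_trans (le_max_left _ _) (le_max_right _ _)) (le_max_right _ _)) hI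
  have hI10 : 8 * (k * P) + 8 ≤ I := le_trans (le_trans (le_trans (le_max_right _ _) (le_max_right _ _)) (le_max_right _ _)) hI
  have hGood : GoodA P a := ⟨ha0⟩
  have hIpos : 1 ≤ I := by omega
  have hIr : (1 : ℝ) ≤ I := by exact_mod_cast hIpos
  have hkP : k * P ≤ 2 ^ I := by
    have : I < 2 ^ I := Nat.lt_two_pow_self
    omega
  have hsm : 2 * k * 2 ^ ((I + 1) / 512) < 2 ^ I := by
    have h1 : 2 * k < 2 ^ (I / 2) := by
      have h2 : I / 2 < 2 ^ (I / 2) := Nat.lt_two_pow_self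
      have h3 : k ≤ k * P := Nat.le_mul_of_pos_right k hP.pos
      omega
    calc 2 * k * 2 ^ ((I + 1) / 512) < 2 ^ (I / 2) * 2 ^ ((I + 1) / 512) :=
          Nat.mul_lt_mul_of_pos_right h1 (by positivity)
      _ = 2 ^ (I / 2 + (I + 1) / 512) := by rw [pow_add]
      _ ≤ 2 ^ I := Nat.pow_le_pow_right (by norm_num) (by omega)
  -- three pieces
  set L := Left k P a I with hL
  have hLwin : ∀ n ∈ L, 2 ^ I ≤ n ∧ n < 2 ^ (I + 1) := by
    intro n hn
    rw [hL] at hn
    unfold Left at hn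
    rw [mem_filter, mem_Ico] at hn
    exact hn.1
  set L1 := L.filter Nat.Prime with hL1
  set js := (Icc 1 I).filter (fun j => (P ^ j) ^ 8 ≤ 2 ^ I) with hjs
  set Sj : ℕ → Finset ℕ := fun j => (range (2 ^ (I + 1))).filter (fun m => Gen P m ∧ P ^ j * m ∈ L) with hSj
  have hex : ∃ j, 2 ^ I < (P ^ j) ^ 8 := by
    refine ⟨I, ?_⟩
    calc 2 ^ I ≤ P ^ I := Nat.pow_le_pow_left hP.two_le I
      _ = (P ^ I) ^ 1 := (pow_one _).symm
      _ < (P ^ I) ^ 8 := Nat.pow_lt_pow_right (Nat.one_lt_pow (by omega) hP.one_lt) (by norm_num)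
  set j₀ := Nat.find hex with hj₀
  have hj₀spec : 2 ^ I < (P ^ j₀) ^ 8 := Nat.find_spec hex
  set D := P ^ j₀ with hD
  have hDpos : 0 < D := Nat.pow_pos hP.pos
  set L3 := L.filter (fun n => D ∣ n) with hL3
  have hcover : L ⊆ (L1 ∪ js.biUnion (fun j => (Sj j).image (fun m => P ^ j * m))) ∪ L3 := by
    intro n hn
    rw [mem_union, mem_union]
    rcases left_struct k P I n a hP hPk ha1 ha2 hkP hn with h | ⟨j, m, hj, hm, hnm⟩
    · left; left
      rw [hL1, mem_filter]; exact ⟨hn, h⟩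
    · by_cases hjP : (P ^ j) ^ 8 ≤ 2 ^ I
      · left; right
        rw [mem_biUnion]
        refine ⟨j, ?_, ?_⟩
        · rw [hjs, mem_filter, mem_Icc]
          refine ⟨⟨hj, ?_⟩, hjP⟩
          by_contra hc
          rw [not_le] at hc
          have h1 : 2 ^ I < (P ^ j) ^ 8 := by
            calc 2 ^ I < 2 ^ j := Nat.pow_lt_pow_right (by norm_num) hc
              _ ≤ P ^ j := Nat.pow_le_pow_left hP.two_le j
              _ ≤ (P ^ j) ^ 8 := Nat.le_self_pow (by norm_num) _
          omega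
        · rw [mem_image]
          refine ⟨m, ?_, hnm.symm⟩
          simp only [hSj, mem_filter, mem_range]
          refine ⟨?_, hm, hnm ▸ hn⟩
          have h1 := (hLwin n hn).2
          calc m ≤ P ^ j * m := Nat.le_mul_of_pos_left m (Nat.pow_pos hP.pos)
            _ = n := hnm.symm
            _ < _ := h1
      · right
        rw [hL3, mem_filter]
        refine ⟨hn, ?_⟩
        rw [not_le] at hjP
        have h1 : j₀ ≤ j := Nat.find_min' hex hjP
        rw [hnm, hD]
        exact (pow_dvd_pow P h1).mul_right m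
  have hcard : (L.card : ℝ) ≤ L1.card + ∑ j ∈ js, ((Sj j).card : ℝ) + L3.card := by
    have h1 := Finset.card_le_card hcover
    have h2 := Finset.card_union_le (L1 ∪ js.biUnion (fun j => (Sj j).image (fun m => P ^ j * m))) L3
    have h3 := Finset.card_union_le L1 (js.biUnion (fun j => (Sj j).image (fun m => P ^ j * m)))
    have h4 : (js.biUnion (fun j => (Sj j).image (fun m => P ^ j * m))).card ≤ ∑ j ∈ js, (Sj j).card :=
      Finset.card_biUnion_le.trans (Finset.sum_le_sum fun j _ => Finset.card_image_le)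
    have h5 : L.card ≤ L1.card + ∑ j ∈ js, (Sj j).card + L3.card := by omega
    exact_mod_cast h5
  -- piece 1
  have hb1 : (L1.card : ℝ) ≤ 2 ^ I / (24 * k * P * I) := by
    have h1 := hT1 P I a hP.two_le hGood hI5 L1 (by
      intro n hn
      rw [hL1, mem_filter] at hn
      exact ⟨hn.2, (hLwin n hn.1).2, left_avoid k P I n a hsm hn.1⟩)
    have h2 : 24 * k * P * C₅ ≤ HH P (2 ^ ((I + 1) / 512)) := by
      apply hI₈
      rw [Nat.le_div_iff_mul_le (by norm_num)]
      omega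
    refine h1.trans ?_
    rw [div_le_iff₀ (HH_pos _ _)]
    calc C₅ * (2 ^ I / I) = 2 ^ I / (24 * k * P * I) * (24 * k * P * C₅) := by field_simp
      _ ≤ _ := by gcongr
  -- piece 2
  have hb2 : ∑ j ∈ js, ((Sj j).card : ℝ) ≤ 2 ^ I / (24 * k * P * I) := by
    have h1 : ∀ j ∈ js, ((Sj j).card : ℝ) ≤ C₆ * (2 ^ I / (P * I)) * ((P : ℝ)⁻¹) ^ j := by
      intro j hj
      rw [hjs, mem_filter, mem_Icc] at hj
      have h2 := hT2' I (P ^ j) a hI6 (Nat.one_le_pow _ _ hP.pos) hj.2 (by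
        intro r hr hr1 hrd
        have h3 := hr.dvd_of_dvd_pow hrd
        have h4 := (Nat.prime_dvd_prime_iff_eq hr hP).1 h3
        rw [h4, Nat.mod_self] at hr1
        omega) hGood (Sj j) (by
        intro m hm
        simp only [hSj, mem_filter, mem_range] at hm
        exact ⟨hm.2.1, (hLwin _ hm.2.2).1, (hLwin _ hm.2.2).2, left_avoid k P I _ a hsm hm.2.2⟩)
      refine h2.trans (le_of_eq ?_)
      push_cast
      rw [inv_pow]
      field_simp
    refine (Finset.sum_le_sum h1).trans ?_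
    rw [← Finset.mul_sum]
    have hx1 : (P : ℝ)⁻¹ ≤ 1 / 2 := by
      rw [inv_le_comm₀ hP0 (by norm_num)]
      norm_num
      exact_mod_cast hP.two_le
    have hx0 : (0 : ℝ) ≤ (P : ℝ)⁻¹ := by positivity
    have h2 : ∑ j ∈ js, ((P : ℝ)⁻¹) ^ j ≤ 2 / P := by
      calc ∑ j ∈ js, ((P : ℝ)⁻¹) ^ j ≤ ∑ j ∈ Ico 1 (I + 1), ((P : ℝ)⁻¹) ^ j := by
            apply Finset.sum_le_sum_of_subset_of_nonneg
            · intro j hj
              rw [hjs, mem_filter, mem_Icc] at hj
              rw [mem_Ico]; omega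
            · intro j _ _; positivity
        _ ≤ ((P : ℝ)⁻¹) ^ 1 / (1 - (P : ℝ)⁻¹) := geom_sum_Ico_le_of_lt_one hx0 (by linarith)
        _ ≤ 2 / P := by
            rw [pow_one, div_le_iff₀ (by linarith), div_eq_mul_inv]
            nlinarith
    calc C₆ * (2 ^ I / (P * I)) * ∑ j ∈ js, ((P : ℝ)⁻¹) ^ j ≤ C₆ * (2 ^ I / (P * I)) * (2 / P) := by
          gcongr
      _ = (2 ^ I / (24 * k * P * I)) * ((48 * k * C₆) / P) := by
          field_simp
          ring
      _ ≤ (2 ^ I / (24 * k * P * I)) * 1 := by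
          gcongr
          rw [div_le_one hP0]; exact hPC
      _ = _ := by ring
  -- piece 3
  have hb3 : (L3.card : ℝ) ≤ 2 ^ I / (24 * k * P * I) := by
    have h1 : L3 ⊆ (Ioc 0 (2 ^ (I + 1))).filter (fun n => D ∣ n) := by
      intro n hn
      rw [hL3, mem_filter] at hn
      rw [mem_filter, mem_Ioc]
      have h2 := hLwin n hn.1
      exact ⟨⟨lt_of_lt_of_le (by positivity) h2.1, h2.2.le⟩, hn.2⟩
    have h2 := Finset.card_le_card h1
    rw [Nat.Ioc_filter_dvd_card_eq_div] at h2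
    have h3 : (L3.card : ℝ) ≤ 2 ^ (I + 1) / D := by
      calc (L3.card : ℝ) ≤ ((2 ^ (I + 1) / D : ℕ) : ℝ) := by exact_mod_cast h2
        _ ≤ ((2 ^ (I + 1) : ℕ) : ℝ) / D := Nat.cast_div_le
        _ = _ := by push_cast; ring
    have h4 : 48 * (k : ℝ) * P * I ≤ D := by
      have h5 := hI₉ I hI9
      rw [div_lt_div_iff₀ (by positivity) (by positivity)] at h5
      have h6 : (48 * (k : ℝ) * P * I) ^ 8 ≤ (D : ℝ) ^ 8 := by
        calc (48 * (k : ℝ) * P * I) ^ 8 = (I : ℝ) ^ 8 * (48 * k * P) ^ 8 := by ring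
          _ ≤ 1 * 2 ^ I := h5.le
          _ = 2 ^ I := one_mul _
          _ ≤ (D : ℝ) ^ 8 := by exact_mod_cast hj₀spec.le
      exact (pow_le_pow_iff_left₀ (by positivity) (by positivity) (by norm_num)).1 h6
    have hD0 : (0 : ℝ) < D := by exact_mod_cast hDpos
    refine h3.trans ?_
    rw [div_le_div_iff₀ hD0 (by positivity), pow_succ]
    have h7 : (0 : ℝ) < 2 ^ I := by positivity
    nlinarith
  have hfr := hI₇ I hI7
  have hfinal : (L.card : ℝ) ≤ ((Fr k P I).card : ℝ) := by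
    refine le_trans ?_ hfr
    have e : (2 : ℝ) ^ I / (8 * k * P * I) = 2 ^ I / (24 * k * P * I) + 2 ^ I / (24 * k * P * I)
        + 2 ^ I / (24 * k * P * I) := by
      field_simp
      norm_num
    rw [e]
    linarith
  exact_mod_cast hfinal

theorem main (k : ℕ) (hk : 3 ≤ k) :
    ∃ a : ℕ → ℕ, (∀ p : ℕ, p.Prime → a p < p) ∧
        ∃ N : ℕ, ∀ n : ℕ, N ≤ n →
          ∃ p t : ℕ, p.Prime ∧ k ≤ t ∧ n = a p + t * p := by
  obtain ⟨P, I₀, hP, hPk, h⟩ := main_bound k hk
  exact construct k P I₀ hk hP hPk h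

end Pool.Agent.Cov
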